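import Pool.Agent.Wyk.MLw

/-!
# An upper bound for the slopes of the upper beam (module BUp)

`mlrev`. Suppose `ν > 1`. For `T ≥ 1`, `pk1rev` gives
`∑_{ups σ 1 T} (1/c + 1/σ c) ≤ ∑_{cols σ 0 T} (1/c + 1/σ c) ≤ Hs 0 T + 1 ≤ 2 + log T`. The left hand
side is `≥ ∑_{ups σ 1 T, c > N} ν / rk σ c ≥ ν ∑_{ups σ 1 T} 1/rk σ c - ν N
≥ ν (log T - 1 - log 2^101) - ν N` (`rank_harm` with `T1 = 1`). So `(ν - 1) log T ≤ C`: contradiction
for `T` large.

`up_slope_le`. Let `r = √3 - 1` and suppose that `rk σ c / c ≥ r + ε` for all upper `c > N`. With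
`κ = rk σ c / c`, `k = rk σ c` and `σ c = 2c + k = (2 + κ) c` (`up_eq`):
`1/c + 1/σ c = (κ + κ/(2+κ)) / k ≥ ((r+ε) + (r+ε)/(2+r+ε)) / k`, since `κ + κ/(2+κ)` is increasing in
`κ ≥ 0`. And `r + r/(2+r) = 1` (`r² + 2r = 2`), so `ν := (r+ε) + (r+ε)/(2+r+ε) > 1`: contradiction
with `mlrev`.
-/

open Finset

namespace Wyk

variable {σ : ℕ → ℕ}

theorem mlrev (h : WS σ) (ν : ℝ) (hν : 0 ≤ ν) (N : ℕ)
    (hup : ∀ c, N < c → Up σ c → ν / (rk σ c : ℝ) ≤ 1 / (c : ℝ) + 1 / (σ c : ℝ)) : ν ≤ 1 := by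
  by_contra hcon
  push Not at hcon
  have hpos : 0 < ν - 1 := by linarith
  have htend : Filter.Tendsto (fun n : ℕ => Real.log (n : ℝ)) Filter.atTop Filter.atTop :=
    Real.tendsto_log_atTop.comp tendsto_natCast_atTop_atTop
  set C : ℝ := 2 + ν * (1 + Real.log (2 ^ 101)) + ν * N with hC
  obtain ⟨T, hT1, hT⟩ := ((Filter.eventually_ge_atTop 1).and
    (htend.eventually_gt_atTop (C / (ν - 1)))).exists
  rw [div_lt_iff₀ hpos] at hT
  have hTpos : 0 < T := hT1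
  have r1 := pk1rev h T
  have r2 := Hs_le0 T hTpos
  have r3 := rank_harm h 1 T one_pos hT1
  have r3' := (abs_le.mp r3).1
  simp only [Nat.cast_one, div_one] at r3'
  -- sum over ups σ 1 T of ν / rk ≤ sum over cols + ν N
  have hcolpos : ∀ c ∈ cols σ 0 T, 0 ≤ 1 / (c : ℝ) + 1 / (σ c : ℝ) := by
    intro c _
    positivity
  have hsub : ups σ 1 T ⊆ cols σ 0 T := by
    intro c hc
    rw [mem_ups] at hc
    rw [mem_cols]
    omega
  have hle1 : ∑ c ∈ ups σ 1 T, (1 / (c : ℝ) + 1 / (σ c : ℝ)) ≤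
      ∑ c ∈ cols σ 0 T, (1 / (c : ℝ) + 1 / (σ c : ℝ)) :=
    Finset.sum_le_sum_of_subset_of_nonneg hsub (fun c hc _ => hcolpos c hc)
  have hpt : ∀ c ∈ ups σ 1 T, ν * (1 / (rk σ c : ℝ)) ≤
      (1 / (c : ℝ) + 1 / (σ c : ℝ)) + (if c ≤ N then ν else 0) := by
    intro c hc
    rw [mem_ups] at hc
    have hUp : Up σ c := hc.2
    split_ifs with hcN
    · have q1 : 1 ≤ rk σ c := rk_pos h hUp
      have q1' : (1 : ℝ) ≤ (rk σ c : ℝ) := by exact_mod_cast q1
      have q2 : 1 / (rk σ c : ℝ) ≤ 1 := by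
        rw [div_le_one (by linarith)]; exact q1'
      have q3 : (0 : ℝ) ≤ 1 / (c : ℝ) + 1 / (σ c : ℝ) := by positivity
      nlinarith
    · have := hup c (by omega) hUp
      have e : ν * (1 / (rk σ c : ℝ)) = ν / (rk σ c : ℝ) := by ring
      rw [e]
      linarith
  have hsum := Finset.sum_le_sum hpt
  rw [← Finset.mul_sum, Finset.sum_add_distrib] at hsum
  have hN : ∑ c ∈ ups σ 1 T, (if c ≤ N then ν else 0) ≤ ν * N := by
    rw [← Finset.sum_filter, Finset.sum_const, nsmul_eq_mul, mul_comm]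
    apply mul_le_mul_of_nonneg_left _ hν
    have hsub : (ups σ 1 T).filter (fun c => c ≤ N) ⊆ Ioc 0 N := by
      intro c hc
      rw [Finset.mem_filter, mem_ups] at hc
      rw [Finset.mem_Ioc]
      omega
    have := Finset.card_le_card hsub
    rw [Nat.card_Ioc] at this
    exact_mod_cast this
  have r4 : ν * (Real.log (T : ℝ) - (1 + Real.log (2 ^ 101))) ≤
      ν * ∑ c ∈ ups σ 1 T, 1 / (rk σ c : ℝ) := by
    apply mul_le_mul_of_nonneg_left _ hν
    linarith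
  have e1 : ν * (Real.log (T : ℝ) - (1 + Real.log (2 ^ 101))) =
      ν * Real.log (T : ℝ) - ν * (1 + Real.log (2 ^ 101)) := by ring
  have e2 : Real.log (T : ℝ) * (ν - 1) = ν * Real.log (T : ℝ) - Real.log (T : ℝ) := by ring
  rw [e1] at r4
  rw [e2] at hT
  clear r3 e1 e2 r3' hpt
  clear_value C
  generalize Real.log ((2 : ℝ) ^ 101) = x at *
  linarith

theorem up_slope_le (h : WS σ) (ε : ℝ) (hε : 0 < ε) (N : ℕ) :
    ∃ c, N < c ∧ Up σ c ∧ (rk σ c : ℝ) / c < Real.sqrt 3 - 1 + ε := by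
  by_contra hcon
  push Not at hcon
  set r : ℝ := Real.sqrt 3 - 1 with hr
  have h3 : Real.sqrt 3 ^ 2 = 3 := Real.sq_sqrt (by norm_num)
  have h1 : 1 < Real.sqrt 3 := by
    rw [show (1 : ℝ) = Real.sqrt 1 by simp]
    exact Real.sqrt_lt_sqrt (by norm_num) (by norm_num)
  have hr0 : 0 < r := by rw [hr]; linarith
  have hr2 : r ^ 2 + 2 * r = 2 := by rw [hr]; nlinarith
  set ν : ℝ := (r + ε) + (r + ε) / (2 + (r + ε)) with hνdef
  have hνpos : 0 ≤ ν := by rw [hνdef]; positivity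
  have hone : r + r / (2 + r) = 1 := by
    field_simp
    nlinarith
  have hmono : ∀ x y : ℝ, 0 ≤ x → x ≤ y → x / (2 + x) ≤ y / (2 + y) := by
    intro x y hx hxy
    rw [div_le_div_iff₀ (by linarith) (by linarith)]
    nlinarith
  have hν1 : 1 < ν := by
    have := hmono r (r + ε) hr0.le (by linarith)
    rw [hνdef]
    linarith
  have hres := mlrev h ν hνpos N ?_
  · linarith
  intro c hc hUp
  have hk := hcon c hc hUp
  have hc0 : 0 < c := by omega
  have hc' : (0 : ℝ) < c := by exact_mod_cast hc0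
  have hrk : 0 < rk σ c := rk_pos h hUp
  have hrk' : (0 : ℝ) < (rk σ c : ℝ) := by exact_mod_cast hrk
  set κ : ℝ := (rk σ c : ℝ) / c with hκ
  have hκ0 : 0 < κ := by rw [hκ]; positivity
  have hm := hmono (r + ε) κ (by positivity) hk
  have hνκ : ν ≤ κ + κ / (2 + κ) := by rw [hνdef]; linarith
  have heq : (σ c : ℝ) = 2 * c + rk σ c := by exact_mod_cast up_eq h hUp
  have hrkκ : (rk σ c : ℝ) = κ * c := by rw [hκ]; field_simp
  have e1 : 1 / (c : ℝ) + 1 / (σ c : ℝ) = (κ + κ / (2 + κ)) / (rk σ c : ℝ) := by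
    rw [heq, hrkκ]
    have : (2 + κ) ≠ 0 := by positivity
    field_simp
  rw [e1]
  exact div_le_div_of_nonneg_right hνκ hrk'.le

end Wyk
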