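import Pool.Agent.Wyk.Defs

/-!
# The upper P-positions: `σ c = 2 c + rank c` (module C1)

Proofs.
* `rk_le`: `ups σ 0 c ⊆ Ioc 0 c`. `rk_mono`: `ups σ 0 a ⊆ ups σ 0 b` for `a ≤ b`.
* `rk_lt`: if `a < b` and `b` is upper then `b ∈ ups σ 0 b \ ups σ 0 a`.
* `rk_pos`: `c ∈ ups σ 0 c` (uses `Up.pos`). `rk_succ`: `ups σ 0 (n+1) ⊆ insert (n+1) (ups σ 0 n)`.
* `exists_rk`: for an upper column `c` and `0 < i ≤ rk σ c` there is an upper column `c' ≤ c` with
  `rk σ c' = i`: let `c'` be the least number with `i ≤ rk σ c'` (`Nat.find`); then `c' > 0`,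
  `rk σ (c'-1) < i`, so `rk σ c' = i` by `rk_succ` and `rk σ (c'-1) < rk σ c'`, hence `c'` is upper
  (otherwise `ups σ 0 c' = ups σ 0 (c'-1)`).
* `up_eq`: strong induction on `c`. Let `c` be upper, `k = rk σ c`; for the upper `c' < c` we know
  `σ c' = 2c' + rk σ c'`, and `rk σ c' < k` (`rk_lt`).
  (1) `σ c ≥ 2c + k`: otherwise `i := σ c - 2c` satisfies `0 < i < k`, so by `exists_rk` there is an
  upper `c' ≤ c` with `rk σ c' = i < k`, so `c' ≠ c`, `c' < c`, and `2c' - σ c' = -i = 2c - σ c`: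
  by `einj` `c' = c`, contradiction.
  (2) `σ c ≤ 2c + k`: otherwise `y := 2c + k` satisfies `c < y < σ c` and is blocked: there is
  `c' < c` with one of
  - `σ c' = y = 2c+k`: if `c'` is upper then `σ c' = 2c' + rk σ c' < 2c + k`; otherwise `σ c' ≤ 2c'`;
  - `σ c' - c' = y - c = c + k`: if `c'` is upper, `σ c' - c' = c' + rk σ c' < c + k`; otherwise
    `σ c' - c' ≤ c' < c`;
  - `2c' - σ c' = 2c - y = -k`: then `σ c' > 2c'` (as `k > 0`), `c'` is upper and
    `2c' - σ c' = -rk σ c' > -k`, contradiction;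
  - `2σ c' - c' = 2y - c = 3c + 2k`: if `c'` is upper, `2σ c' - c' = 3c' + 2 rk σ c' < 3c + 2k`;
    otherwise `σ c' ≤ 2c'` and `2σ c' - c' ≤ 3c' < 3c`.
* `sig_le`: a column is lower (`σ c < 2c`) or upper (`σ c = 2c + rk σ c ≤ 3c`).
* `rank_sum`: the map `rk σ` is a bijection from `ups σ T1 T` onto `Ioc (rk σ T1) (rk σ T)`:
  injective by `rk_lt`; into: `T1 < c ≤ T` upper gives `rk σ T1 < rk σ c ≤ rk σ T`; onto: `exists_rk`
  in the form `exists_rk'`. (Or: induction on `T`, with `rk σ (T+1) = rk σ T + 1` if `T+1` is upper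
  and `= rk σ T` otherwise. This is the easiest way; `Up σ 0` is false by `Up.pos`.)
-/

open Finset

namespace Wyk

variable {σ : ℕ → ℕ}

theorem rk_le (σ : ℕ → ℕ) (c : ℕ) : rk σ c ≤ c := by
  unfold rk
  calc (ups σ 0 c).card ≤ (Ioc 0 c).card := card_le_card (filter_subset _ _)
    _ = c := by simp

theorem rk_mono (σ : ℕ → ℕ) {a b : ℕ} (h : a ≤ b) : rk σ a ≤ rk σ b := by
  unfold rk
  apply card_le_card
  intro x hx
  rw [mem_ups] at hx ⊢
  omega

theorem rk_lt {a b : ℕ} (h : a < b) (hb : Up σ b) : rk σ a < rk σ b := by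
  unfold rk
  apply card_lt_card
  have hsub : ups σ 0 a ⊆ ups σ 0 b := by
    intro x hx
    rw [mem_ups] at hx ⊢
    omega
  rw [Finset.ssubset_iff_of_subset hsub]
  refine ⟨b, ?_, ?_⟩
  · rw [mem_ups]
    unfold Up at hb
    omega
  · rw [mem_ups]
    omega

theorem rk_pos (h : WS σ) {c : ℕ} (hc : Up σ c) : 0 < rk σ c := by
  unfold rk
  exact Finset.card_pos.2 ⟨c, mem_ups.2 ⟨⟨Up.pos h hc, le_rfl⟩, hc⟩⟩

private theorem C1_ups_up (σ : ℕ → ℕ) (a n : ℕ) (han : a ≤ n) (h : Up σ (n + 1)) :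
    ups σ a (n + 1) = insert (n + 1) (ups σ a n) := by
  ext x
  rw [Finset.mem_insert, mem_ups, mem_ups]
  unfold Up at h
  constructor
  · rintro ⟨⟨h1, h2⟩, h3⟩
    rcases Nat.lt_or_ge n x with h4 | h4
    · left; omega
    · right; exact ⟨⟨h1, h4⟩, h3⟩
  · rintro (h1 | ⟨⟨h1, h2⟩, h3⟩)
    · subst h1; exact ⟨⟨by omega, le_rfl⟩, h⟩
    · exact ⟨⟨h1, by omega⟩, h3⟩

private theorem C1_ups_not (σ : ℕ → ℕ) (a n : ℕ) (h : ¬ Up σ (n + 1)) :
    ups σ a (n + 1) = ups σ a n := by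
  ext x
  rw [mem_ups, mem_ups]
  unfold Up at h
  constructor
  · rintro ⟨⟨h1, h2⟩, h3⟩
    rcases Nat.lt_or_ge n x with h4 | h4
    · exfalso
      have : x = n + 1 := by omega
      subst this
      exact h h3
    · exact ⟨⟨h1, h4⟩, h3⟩
  · rintro ⟨⟨h1, h2⟩, h3⟩
    exact ⟨⟨h1, by omega⟩, h3⟩

private theorem C1_not_mem (σ : ℕ → ℕ) (a n : ℕ) : n + 1 ∉ ups σ a n := by
  rw [mem_ups]
  omega

theorem rk_succ (σ : ℕ → ℕ) (n : ℕ) :
    rk σ (n + 1) = if Up σ (n + 1) then rk σ n + 1 else rk σ n := by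
  unfold rk
  by_cases h : Up σ (n + 1)
  · rw [if_pos h, C1_ups_up σ 0 n (Nat.zero_le n) h,
      Finset.card_insert_of_notMem (C1_not_mem σ 0 n)]
  · rw [if_neg h, C1_ups_not σ 0 n h]

theorem exists_rk {c i : ℕ} (hi : 0 < i) (hic : i ≤ rk σ c) :
    ∃ c', c' ≤ c ∧ Up σ c' ∧ rk σ c' = i := by
  induction c with
  | zero =>
    exfalso
    have := rk_le σ 0
    omega
  | succ n ih =>
    by_cases h1 : i ≤ rk σ n
    · obtain ⟨c', h2, h3, h4⟩ := ih h1
      exact ⟨c', by omega, h3, h4⟩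
    · by_cases h : Up σ (n + 1)
      · rw [rk_succ, if_pos h] at hic
        refine ⟨n + 1, le_rfl, h, ?_⟩
        rw [rk_succ, if_pos h]
        omega
      · rw [rk_succ, if_neg h] at hic
        exact absurd hic h1

theorem up_eq (h : WS σ) {c : ℕ} (hc : Up σ c) : σ c = 2 * c + rk σ c := by
  induction c using Nat.strong_induction_on with
  | _ c ih =>
    have hc0 := Up.pos h hc
    have hk := rk_pos h hc
    have hc' : 2 * c < σ c := hc
    apply le_antisymm
    · by_contra hlt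
      have hlt' : 2 * c + rk σ c < σ c := by omega
      obtain ⟨d, hd, hb⟩ := h.block c (2 * c + rk σ c) (by omega) hlt'
      have key : (σ d = 2 * d + rk σ d ∧ rk σ d < rk σ c) ∨ σ d ≤ 2 * d := by
        by_cases hu : Up σ d
        · exact Or.inl ⟨ih d hd hu, rk_lt hd hc⟩
        · right
          unfold Up at hu
          omega
      push_cast at hb
      rcases key with ⟨k1, k2⟩ | k1 <;> rcases hb with hb | hb | hb | hb <;> omega
    · by_contra hlt
      have h1 : 0 < σ c - 2 * c := by omega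
      have h2 : σ c - 2 * c ≤ rk σ c := by omega
      obtain ⟨d, hd, hu, hr⟩ := exists_rk (σ := σ) h1 h2
      have hdc : d ≠ c := by
        intro e
        subst e
        omega
      have e1 := ih d (by omega) hu
      have := h.einj d c (by omega)
      exact hdc this

theorem sig_le (h : WS σ) {c : ℕ} (hc : Col σ c) : σ c ≤ 3 * c := by
  rcases col_cases h hc with h1 | h1
  · unfold Lo at h1
    omega
  · have h2 := up_eq h h1
    have h3 := rk_le σ c
    omega

theorem rank_sum (σ : ℕ → ℕ) (T1 T : ℕ) (hT : T1 ≤ T) :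
    ∑ c ∈ ups σ T1 T, 1 / (rk σ c : ℝ) = Hs (rk σ T1) (rk σ T) := by
  induction T, hT using Nat.le_induction with
  | base =>
    have : ups σ T1 T1 = ∅ := by
      ext x
      rw [mem_ups]
      constructor
      · rintro ⟨h1, _⟩; omega
      · intro h; exact absurd h (Finset.notMem_empty x)
    rw [this]
    simp [Hs]
  | succ n hn ih =>
    by_cases h : Up σ (n + 1)
    · rw [C1_ups_up σ T1 n hn h, Finset.sum_insert (C1_not_mem σ T1 n), ih, rk_succ, if_pos h]
      unfold Hs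
      rw [Finset.sum_Ioc_succ_top (rk_mono σ hn), add_comm]
    · rw [C1_ups_not σ T1 n h, ih, rk_succ, if_neg h]

end Wyk
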