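import Pool.Agent.Wyk.HsB
import Pool.Agent.Wyk.C1

/-!
# The blocking inequality for an unused difference (module Blk)

`blk`. Let `a ∈ cols σ T1 T`, `y = a + m`. Then `a < y < σ a`: for lower `a` (`a > T1 ≥ N0`, so `hlow`
applies) `5 (σ a - a) > 4 a ≥ 5 m`; for upper `a`, `σ a - a > a > m` (`a > T1 ≥ 1000 m`). By `block`
there is `c' < a` with one of
(i) `σ c' = a + m`;
(ii) `σ c' - c' = m`: then `c' < σ c'` (as `m > 0`), `c' < a ≤ T`: excluded by `hunused`;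
(iii) `2c' - σ c' = a - m`. If `c' < σ c'` then (`σ c' < 2c'` since `a > m`) `c'` is lower; if
  `c' > N0`, `5 (a - m) = 10 c' - 5 σ c' < c' < a`, but `5(a-m) ≥ 4a` ... contradiction since `a ≥ 1000m`;
  if `c' ≤ N0`, `a - m = 2c' - σ c' < c' ≤ N0` contradicts `2 N0 ≤ T1 < a`, `m ≤ a/1000`. If
  `σ c' < c'` put `c'' = σ c'`, a column with `σ c'' = c'`: `2σ c'' - c'' = a - m`, and `c'' < a`.
  (`c' = σ c'` only for `c' = 0`, then `a - m = 0`, impossible.)
(iv) `2σ c' - c' = a + 2m`: then `c' < σ c'` (otherwise `2σ c' - c' ≤ σ c' ≤ c' < a`).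
So every column `a` in the window satisfies one of
(I) `∃ c' < a`, column, `σ c' = a + m`; (III) `∃ c'' < a`, column, `2σ c'' - c'' = a - m`;
(IV) `∃ c' < a`, column, `2σ c' - c' = a + 2m`.

`k_ineq`. `∑_{cols} 1/a ≤ S1 + S3 + S4` over the `a` of type I, III, IV.
Type I: `a ↦ c'` is injective (`a = σ c' - m`), `σ c' = a + m ≤ (1 + 1/1000) a`, so
`1/a ≤ (1+1/1000)/σ c'`. The `a` with `c' > T1` contribute
`≤ (1+1/1000) ∑_{c' ∈ cols σ T1 T} 1/σ c'`, the `a` with `c' ≤ T1` are at most `T1` many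
(`c' ≥ 1` as `σ 0 = 0`), with `1/a ≤ 1/T1`: contribution `≤ 1`.
Type III: `1/a ≤ 1/(a-m) = 1/(2σ c'' - c'')`, injective, `c'' ≤ T1` contributes `≤ 1`, the rest
`≤ ∑_{cols σ T1 T} 1/(2σ c - c)`.
Type IV: `1/a ≤ (1 + 2/1000)/(a+2m)`, similarly: `≤ 1 + (1+2/1000) ∑_{cols σ T1 T} 1/(2σ c - c)`.
Sum: `∑ 1/a ≤ 3 + ∑_{cols σ T1 T} ((1+1/1000)/σ c + (2+2/1000)/(2σ c - c))`.
A convenient general lemma: if `S ⊆ cols σ T1 T`, `g : ℕ → ℕ` injective on `S` with `0 < g a < a` and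
`Col σ (g a)`, and `1/a ≤ F (g a)` for `a ∈ S`, `F ≥ 0` on columns, then
`∑_{a∈S} 1/a ≤ 1 + ∑_{c ∈ cols σ T1 T} F c`.
-/

open Finset

namespace Wyk

variable {σ : ℕ → ℕ}

theorem blk (h : WS σ) (N0 m T1 T : ℕ) (hm : 0 < m) (hT1 : 1000 * m ≤ T1) (hN0 : 2 * N0 ≤ T1)
    (hlow : ∀ c, N0 < c → Lo σ c → 9 * c < 5 * σ c)
    (hunused : ∀ c, c ≤ T → Col σ c → σ c ≠ c + m) (a : ℕ) (ha : a ∈ cols σ T1 T) :
    (∃ c, c < a ∧ Col σ c ∧ σ c = a + m) ∨ (∃ c, c < a ∧ Col σ c ∧ 2 * σ c + m = a + c) ∨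
      (∃ c, c < a ∧ Col σ c ∧ 2 * σ c = a + 2 * m + c) := by
  rw [mem_cols] at ha
  obtain ⟨⟨ha1, ha2⟩, ha3⟩ := ha
  have hy : a + m < σ a := by
    rcases col_cases h (c := a) ha3 with h1 | h1
    · have := hlow a (by omega) h1
      omega
    · unfold Up at h1
      omega
  obtain ⟨c, hc, h1⟩ := h.block a (a + m) (by omega) hy
  push_cast at h1
  rcases h1 with h1 | h1 | h1 | h1
  · left
    refine ⟨c, hc, ?_, h1⟩
    unfold Col
    omega
  · exfalso
    have h2 : σ c = c + m := by omega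
    exact hunused c (by omega) (by unfold Col; omega) h2
  · rcases lt_trichotomy c (σ c) with h2 | h2 | h2
    · exfalso
      have h3 : Lo σ c := ⟨h2, by omega⟩
      by_cases h4 : N0 < c
      · have := hlow c h4 h3
        omega
      · omega
    · exfalso
      rcases Nat.eq_zero_or_pos c with h3 | h3
      · omega
      · exact h.ne c h3 h2.symm
    · right; left
      refine ⟨σ c, by omega, ?_, ?_⟩
      · unfold Col
        rw [h.inv]
        exact h2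
      · rw [h.inv]
        omega
  · right; right
    refine ⟨c, hc, ?_, ?_⟩
    · unfold Col
      omega
    · omega

private theorem Blk_sum (T1 T : ℕ) (hT : 0 < T1) (S : Finset ℕ) (hS : S ⊆ cols σ T1 T) (g : ℕ → ℕ)
    (hg : Set.InjOn g (S : Set ℕ)) (hga : ∀ a ∈ S, 0 < g a ∧ g a < a ∧ Col σ (g a)) (F : ℕ → ℝ)
    (hF0 : ∀ c, Col σ c → 0 ≤ F c) (hF : ∀ a ∈ S, 1 / (a : ℝ) ≤ F (g a)) :
    ∑ a ∈ S, 1 / (a : ℝ) ≤ 1 + ∑ c ∈ cols σ T1 T, F c := by
  rw [← Finset.sum_filter_add_sum_filter_not S (fun a => g a ≤ T1)]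
  apply add_le_add
  · have h1 : ∀ a ∈ S.filter (fun a => g a ≤ T1), 1 / (a : ℝ) ≤ 1 / (T1 : ℝ) := by
      intro a ha
      have h2 := hS (Finset.mem_filter.mp ha).1
      rw [mem_cols] at h2
      have h3 : (T1 : ℝ) < a := by exact_mod_cast h2.1.1
      have h4 : (0 : ℝ) < T1 := by exact_mod_cast hT
      exact one_div_le_one_div_of_le h4 h3.le
    have h2 := Finset.sum_le_card_nsmul _ _ _ h1
    have h3 : (S.filter (fun a => g a ≤ T1)).card ≤ T1 := by
      apply card_inj_le _ g T1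
      · intro x hx y hy hxy
        exact hg (Finset.mem_filter.mp hx).1 (Finset.mem_filter.mp hy).1 hxy
      · intro i hi
        exact ⟨(hga i (Finset.mem_filter.mp hi).1).1, (Finset.mem_filter.mp hi).2⟩
    refine h2.trans ?_
    rw [nsmul_eq_mul]
    have h4 : (0 : ℝ) < T1 := by exact_mod_cast hT
    have h5 : ((S.filter (fun a => g a ≤ T1)).card : ℝ) ≤ T1 := by exact_mod_cast h3
    rw [mul_one_div, div_le_one h4]
    exact h5
  · have h1 : ∑ a ∈ S.filter (fun a => ¬ g a ≤ T1), 1 / (a : ℝ) ≤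
        ∑ a ∈ S.filter (fun a => ¬ g a ≤ T1), F (g a) :=
      Finset.sum_le_sum (fun a ha => hF a (Finset.mem_filter.mp ha).1)
    refine h1.trans ?_
    rw [← Finset.sum_image (f := F) (g := g) (fun x hx y hy hxy =>
      hg (Finset.mem_filter.mp hx).1 (Finset.mem_filter.mp hy).1 hxy)]
    apply Finset.sum_le_sum_of_subset_of_nonneg
    · intro c hc
      obtain ⟨a, ha, rfl⟩ := Finset.mem_image.mp hc
      obtain ⟨ha1, ha2⟩ := Finset.mem_filter.mp ha
      have h2 := hga a ha1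
      have h3 := hS ha1
      rw [mem_cols] at h3 ⊢
      refine ⟨⟨by omega, by omega⟩, h2.2.2⟩
    · intro c hc _
      apply hF0
      exact (mem_cols.mp hc).2

theorem k_ineq (h : WS σ) (N0 m T1 T : ℕ) (hm : 0 < m) (hT1 : 1000 * m ≤ T1) (hN0 : 2 * N0 ≤ T1)
    (hlow : ∀ c, N0 < c → Lo σ c → 9 * c < 5 * σ c)
    (hunused : ∀ c, c ≤ T → Col σ c → σ c ≠ c + m) :
    ∑ c ∈ cols σ T1 T, (1 / (c : ℝ) - (1 + 1 / 1000) / (σ c : ℝ)
      - (2 + 2 / 1000) / (2 * (σ c : ℝ) - c)) ≤ 3 := by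
  classical
  have hT0 : 0 < T1 := by omega
  have hb := blk h N0 m T1 T hm hT1 hN0 hlow hunused
  have hm' : (0 : ℝ) < m := by exact_mod_cast hm
  -- the three sets
  have key : ∀ (P : ℕ → ℕ → Prop) (F : ℕ → ℝ)
      (_ : ∀ a c c', P a c → P a c' → True)
      (_ : ∀ a a' c, P a c → P a' c → a = a')
      (_ : ∀ a c, T1 < a → P a c → 0 < c)
      (_ : ∀ c, Col σ c → 0 ≤ F c)
      (_ : ∀ a c, T1 < a → c < a → Col σ c → P a c → 1 / (a : ℝ) ≤ F c),
      ∑ a ∈ (cols σ T1 T).filter (fun a => ∃ c, c < a ∧ Col σ c ∧ P a c), 1 / (a : ℝ) ≤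
        1 + ∑ c ∈ cols σ T1 T, F c := by
    intro P F _ hinj hpos hF0 hF
    have hex : ∀ a : ℕ, ∃ c : ℕ, (∃ c, c < a ∧ Col σ c ∧ P a c) → c < a ∧ Col σ c ∧ P a c := by
      intro a
      by_cases hh : ∃ c, c < a ∧ Col σ c ∧ P a c
      · obtain ⟨c, hc⟩ := hh
        exact ⟨c, fun _ => hc⟩
      · exact ⟨0, fun hh' => (hh hh').elim⟩
    choose g hg using hex
    have hg' : ∀ a ∈ (cols σ T1 T).filter (fun a => ∃ c, c < a ∧ Col σ c ∧ P a c),
        T1 < a ∧ g a < a ∧ Col σ (g a) ∧ P a (g a) := by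
      intro a ha
      obtain ⟨ha1, ha2⟩ := Finset.mem_filter.mp ha
      exact ⟨(mem_cols.mp ha1).1.1, hg a ha2⟩
    apply Blk_sum T1 T hT0 _ (Finset.filter_subset _ _) g
    · intro x hx y hy hxy
      have h1 := (hg' x hx).2.2.2
      have h2 := (hg' y hy).2.2.2
      have hxy' : g x = g y := hxy
      rw [← hxy'] at h2
      exact hinj x y (g x) h1 h2
    · intro a ha
      obtain ⟨h1, h2, h3, h4⟩ := hg' a ha
      exact ⟨hpos a _ h1 h4, h2, h3⟩
    · exact hF0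
    · intro a ha
      obtain ⟨h1, h2, h3, h4⟩ := hg' a ha
      exact hF a _ h1 h2 h3 h4
  have hcol : ∀ c, Col σ c → (0 : ℝ) < σ c ∧ (0 : ℝ) < 2 * (σ c : ℝ) - c := by
    intro c hc
    have h1 : (c : ℝ) < σ c := by exact_mod_cast hc
    have h2 : (0 : ℝ) ≤ c := Nat.cast_nonneg c
    constructor <;> linarith
  have hab : ∀ a : ℕ, T1 < a → 1000 * (m : ℝ) ≤ a := by
    intro a ha
    have : 1000 * m ≤ a := by omega
    exact_mod_cast this
  have k1 := key (fun a c => σ c = a + m) (fun c => (1 + 1 / 1000) / (σ c : ℝ)) (fun _ _ _ _ _ => trivial)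
    (fun a a' c h1 h2 => by omega)
    (fun a c h1 h2 => by
      rcases Nat.eq_zero_or_pos c with h3 | h3
      · subst h3
        rw [h.zero] at h2
        omega
      · exact h3)
    (fun c hc => (div_pos (by norm_num) (hcol c hc).1).le)
    (fun a c h1 _ _ h2 => by
      have h3 := hab a h1
      have h4 : (σ c : ℝ) = a + m := by rw [h2]; push_cast; ring
      rw [h4, div_le_div_iff₀ (by linarith) (by linarith)]
      linarith)
  have k2 := key (fun a c => 2 * σ c + m = a + c) (fun c => 1 / (2 * (σ c : ℝ) - c)) (fun _ _ _ _ _ => trivial)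
    (fun a a' c h1 h2 => by omega)
    (fun a c h1 h2 => by
      rcases Nat.eq_zero_or_pos c with h3 | h3
      · subst h3
        rw [h.zero] at h2
        omega
      · exact h3)
    (fun c hc => (div_pos (by norm_num) (hcol c hc).2).le)
    (fun a c h1 _ _ h2 => by
      have h3 := hab a h1
      have h4 : (2 * (σ c : ℝ) + m) = a + c := by exact_mod_cast h2
      apply one_div_le_one_div_of_le <;> linarith)
  have k3 := key (fun a c => 2 * σ c = a + 2 * m + c) (fun c => (1 + 2 / 1000) / (2 * (σ c : ℝ) - c))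
    (fun _ _ _ _ _ => trivial)
    (fun a a' c h1 h2 => by omega)
    (fun a c h1 h2 => by
      rcases Nat.eq_zero_or_pos c with h3 | h3
      · subst h3
        rw [h.zero] at h2
        omega
      · exact h3)
    (fun c hc => (div_pos (by norm_num) (hcol c hc).2).le)
    (fun a c h1 _ _ h2 => by
      have h3 := hab a h1
      have h4 : 2 * (σ c : ℝ) = a + 2 * m + c := by exact_mod_cast h2
      have h5 : 2 * (σ c : ℝ) - c = a + 2 * m := by linarith
      rw [h5, div_le_div_iff₀ (by linarith) (by linarith)]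
      linarith)
  -- the union
  have hun : ∑ a ∈ cols σ T1 T, 1 / (a : ℝ) ≤
      ∑ a ∈ (cols σ T1 T).filter (fun a => ∃ c, c < a ∧ Col σ c ∧ σ c = a + m), 1 / (a : ℝ) +
      (∑ a ∈ (cols σ T1 T).filter (fun a => ∃ c, c < a ∧ Col σ c ∧ 2 * σ c + m = a + c), 1 / (a : ℝ) +
      ∑ a ∈ (cols σ T1 T).filter (fun a => ∃ c, c < a ∧ Col σ c ∧ 2 * σ c = a + 2 * m + c), 1 / (a : ℝ)) := by
    have hnn : ∀ a : ℕ, 0 ≤ 1 / (a : ℝ) := fun a => by positivity
    rw [Finset.sum_filter, Finset.sum_filter, Finset.sum_filter, ← Finset.sum_add_distrib, ← Finset.sum_add_distrib]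
    apply Finset.sum_le_sum
    intro a ha
    rcases hb a ha with h1 | h1 | h1
    · rw [if_pos h1]
      have h2 : 0 ≤ (if ∃ c, c < a ∧ Col σ c ∧ 2 * σ c + m = a + c then 1 / (a : ℝ) else 0) := by
        split_ifs <;> [exact hnn a; exact le_rfl]
      have h3 : 0 ≤ (if ∃ c, c < a ∧ Col σ c ∧ 2 * σ c = a + 2 * m + c then 1 / (a : ℝ) else 0) := by
        split_ifs <;> [exact hnn a; exact le_rfl]
      linarith
    · rw [if_pos h1]
      have h2 : 0 ≤ (if ∃ c, c < a ∧ Col σ c ∧ σ c = a + m then 1 / (a : ℝ) else 0) := by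
        split_ifs <;> [exact hnn a; exact le_rfl]
      have h3 : 0 ≤ (if ∃ c, c < a ∧ Col σ c ∧ 2 * σ c = a + 2 * m + c then 1 / (a : ℝ) else 0) := by
        split_ifs <;> [exact hnn a; exact le_rfl]
      linarith
    · rw [if_pos h1]
      have h2 : 0 ≤ (if ∃ c, c < a ∧ Col σ c ∧ σ c = a + m then 1 / (a : ℝ) else 0) := by
        split_ifs <;> [exact hnn a; exact le_rfl]
      have h3 : 0 ≤ (if ∃ c, c < a ∧ Col σ c ∧ 2 * σ c + m = a + c then 1 / (a : ℝ) else 0) := by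
        split_ifs <;> [exact hnn a; exact le_rfl]
      linarith
  have hs : ∑ c ∈ cols σ T1 T, (1 / (c : ℝ) - (1 + 1 / 1000) / (σ c : ℝ)
      - (2 + 2 / 1000) / (2 * (σ c : ℝ) - c)) = ∑ c ∈ cols σ T1 T, 1 / (c : ℝ) -
      ∑ c ∈ cols σ T1 T, (1 + 1 / 1000) / (σ c : ℝ) - ∑ c ∈ cols σ T1 T, 1 / (2 * (σ c : ℝ) - c) -
      ∑ c ∈ cols σ T1 T, (1 + 2 / 1000) / (2 * (σ c : ℝ) - c) := by
    rw [← Finset.sum_sub_distrib, ← Finset.sum_sub_distrib, ← Finset.sum_sub_distrib]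
    apply Finset.sum_congr rfl
    intro c _
    ring
  rw [hs]
  have k1' : ∑ a ∈ (cols σ T1 T).filter (fun a => ∃ c, c < a ∧ Col σ c ∧ σ c = a + m), 1 / (a : ℝ) ≤
      1 + ∑ c ∈ cols σ T1 T, (1 + 1 / 1000) / (σ c : ℝ) := by convert k1
  have k2' : ∑ a ∈ (cols σ T1 T).filter (fun a => ∃ c, c < a ∧ Col σ c ∧ 2 * σ c + m = a + c), 1 / (a : ℝ) ≤
      1 + ∑ c ∈ cols σ T1 T, 1 / (2 * (σ c : ℝ) - c) := by convert k2
  have k3' : ∑ a ∈ (cols σ T1 T).filter (fun a => ∃ c, c < a ∧ Col σ c ∧ 2 * σ c = a + 2 * m + c), 1 / (a : ℝ) ≤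
      1 + ∑ c ∈ cols σ T1 T, (1 + 2 / 1000) / (2 * (σ c : ℝ) - c) := by convert k3
  linarith

end Wyk
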