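import Mathlib

/-!
# The pair `(s, B)` (module Cert)

`eqD s B`: `B (1+s)(2-2s-s²) = (2+s)(B²-1)`;
`eqE s B`: `B (3+2s)(2-2s-s²) = (2+s)(3+s)(2-B)(2B-1)`.

Put `ρ(s) = (1+s)(2-2s-s²)/(2+s) = (2-3s²-s³)/(2+s)`,
`τ(s) = (3+2s)(2-2s-s²)/((3+s)(2+s)) = (6-2s-7s²-2s³)/((3+s)(2+s))`. For `B > 0`:
`eqD ⟺ B - 1/B = ρ(s)`, `eqE ⟺ 5 - 2(B + 1/B) = τ(s)` (as `(2-B)(2B-1)/B = 5 - 2B - 2/B`).

Existence: `(B+1/B)² - (B-1/B)² = 4`. Let `F(s) = ((5-τ(s))/2)² - ρ(s)² - 4`; `F` is continuous on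
`[s1, s2]`, `s1 = 0.24772558`, `s2 = 0.24772559`, and has opposite signs at the ends (F is increasing:
`F(s1) < 0 < F(s2)`, please check the signs numerically). Take a zero `s` and
`B := ((5-τ)/2 + ρ)/2`; then `B * ((5-τ)/2 - ρ)/2 = 1`, so `1/B = ((5-τ)/2 - ρ)/2`, and both equations
hold. Bounds for `B`: on `[s1,s2]` `ρ` and `τ` are decreasing and `ρ ∈ [ρ(s2), ρ(s1)]`,
`τ ∈ [τ(s2), τ(s1)]`, which gives `1.4777997 < B < 1.4777998` (`B ≈ 1.47779977527`). (Alternatively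
get the bounds of `B` from `B - 1/B = ρ(s)`, with `B - 1/B` increasing.)

Uniqueness: let `(s,B)`, `(s',B')` be two solutions in `(0,1) × (1,2)`, `q(s) := 2-2s-s²`.
From `eqE`, the right side is `> 0`, so `q > 0`. Suppose `s < s'`. Then `ρ(s) > ρ(s')` and
`τ(s) > τ(s')` (numerators positive and decreasing, denominators positive and increasing), so
`B - 1/B > B' - 1/B'`, hence `B > B'`, and `B + 1/B < B' + 1/B'`, hence `B < B'` (both functions are
strictly increasing on `(1, ∞)`): contradiction. So `s = s'`, `B - 1/B = B' - 1/B'`, `B = B'`.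
-/

namespace Wyk

/-- the first equation -/
def eqD (s B : ℝ) : Prop := B * (1 + s) * (2 - 2 * s - s ^ 2) = (2 + s) * (B ^ 2 - 1)

/-- the second equation -/
def eqE (s B : ℝ) : Prop :=
  B * (3 + 2 * s) * (2 - 2 * s - s ^ 2) = (2 + s) * (3 + s) * (2 - B) * (2 * B - 1)

theorem cert_exists : ∃ s B : ℝ, (0.24772558 < s ∧ s < 0.24772559) ∧
    (1.4777997 < B ∧ B < 1.4777998) ∧ eqD s B ∧ eqE s B := by
  have hcont : ContinuousOn (fun s : ℝ => (24 + 27 * s + 12 * s ^ 2 + 2 * s ^ 3) ^ 2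
      - 4 * ((2 - 3 * s ^ 2 - s ^ 3) * (3 + s)) ^ 2 - 16 * (2 + s) ^ 2 * (3 + s) ^ 2)
      (Set.Icc (0.24772558 : ℝ) 0.24772559) := by
    apply Continuous.continuousOn
    fun_prop
  have hmem : (0 : ℝ) ∈ Set.Ioo
      ((fun s : ℝ => (24 + 27 * s + 12 * s ^ 2 + 2 * s ^ 3) ^ 2
      - 4 * ((2 - 3 * s ^ 2 - s ^ 3) * (3 + s)) ^ 2 - 16 * (2 + s) ^ 2 * (3 + s) ^ 2) 0.24772558)
      ((fun s : ℝ => (24 + 27 * s + 12 * s ^ 2 + 2 * s ^ 3) ^ 2
      - 4 * ((2 - 3 * s ^ 2 - s ^ 3) * (3 + s)) ^ 2 - 16 * (2 + s) ^ 2 * (3 + s) ^ 2)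
        0.24772559) := by
    constructor <;> norm_num
  obtain ⟨s, ⟨hs1, hs2⟩, hs⟩ := intermediate_value_Ioo (by norm_num) hcont hmem
  simp only at hs
  have hs0 : 0 < s := by linarith
  have hp : 0 < 2 + s := by linarith
  have hq : 0 < 3 + s := by linarith
  set ρ : ℝ := (2 - 3 * s ^ 2 - s ^ 3) / (2 + s) with hρ
  set u : ℝ := (24 + 27 * s + 12 * s ^ 2 + 2 * s ^ 3) / (2 * (2 + s) * (3 + s)) with hu
  have hρ' : ρ * (2 + s) = 2 - 3 * s ^ 2 - s ^ 3 := by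
    rw [hρ]; field_simp
  have hu' : u * (2 * (2 + s) * (3 + s)) = 24 + 27 * s + 12 * s ^ 2 + 2 * s ^ 3 := by
    rw [hu]; field_simp
  have h4 : (u - ρ) * (u + ρ) = 4 := by
    have e : (u * (2 * (2 + s) * (3 + s))) ^ 2 - 4 * ((ρ * (2 + s)) * (3 + s)) ^ 2
        - 16 * (2 + s) ^ 2 * (3 + s) ^ 2 = 0 := by
      rw [hρ', hu']; exact hs
    have e2 : 4 * ((2 + s) ^ 2 * (3 + s) ^ 2) * ((u - ρ) * (u + ρ) - 4) = 0 := by
      linear_combination e
    have e3 : 4 * ((2 + s) ^ 2 * (3 + s) ^ 2) ≠ 0 := by positivity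
    have e4 := (mul_eq_zero.mp e2).resolve_left e3
    linarith
  refine ⟨s, (u + ρ) / 2, ⟨hs1, hs2⟩, ?_, ?_, ?_⟩
  · have hB : (u + ρ) / 2 = (36 + 31 * s - 6 * s ^ 2 - 10 * s ^ 3 - 2 * s ^ 4) /
        (4 * (6 + 5 * s + s ^ 2)) := by
      rw [hu, hρ]
      have : (6 + 5 * s + s ^ 2) = (2 + s) * (3 + s) := by ring
      rw [this]
      field_simp
      ring
    rw [hB]
    have hden : 0 < 4 * (6 + 5 * s + s ^ 2) := by positivity
    have a2 : (0.24772558 : ℝ) ^ 2 ≤ s ^ 2 := pow_le_pow_left₀ (by norm_num) hs1.le 2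
    have a3 : (0.24772558 : ℝ) ^ 3 ≤ s ^ 3 := pow_le_pow_left₀ (by norm_num) hs1.le 3
    have a4 : (0.24772558 : ℝ) ^ 4 ≤ s ^ 4 := pow_le_pow_left₀ (by norm_num) hs1.le 4
    have b2 : s ^ 2 ≤ (0.24772559 : ℝ) ^ 2 := pow_le_pow_left₀ hs0.le hs2.le 2
    have b3 : s ^ 3 ≤ (0.24772559 : ℝ) ^ 3 := pow_le_pow_left₀ hs0.le hs2.le 3
    have b4 : s ^ 4 ≤ (0.24772559 : ℝ) ^ 4 := pow_le_pow_left₀ hs0.le hs2.le 4
    norm_num at a2 a3 a4 b2 b3 b4 hs1 hs2
    constructor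
    · rw [lt_div_iff₀ hden]
      norm_num
      linarith
    · rw [div_lt_iff₀ hden]
      norm_num
      linarith
  · unfold eqD
    linear_combination (-(u + ρ) / 2) * hρ' - (2 + s) / 4 * h4
  · unfold eqE
    linear_combination ((u + ρ) / 2) * hu' - (2 + s) * (3 + s) / 2 * h4

private theorem cert_aux (s B s' B' : ℝ) (hs : 0 < s) (_hs1 : s < 1) (hB : 1 < B) (hB2 : B < 2)
    (hs' : 0 < s') (_hs1' : s' < 1) (hB' : 1 < B') (hB2' : B' < 2)
    (hD : eqD s B) (hE : eqE s B) (hD' : eqD s' B') (hE' : eqE s' B') (hlt : s < s') : False := by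
  unfold eqD at hD hD'
  unfold eqE at hE hE'
  have hB0 : 0 < B := by linarith
  have hB0' : 0 < B' := by linarith
  have hq' : 0 < 2 - 2 * s' - s' ^ 2 := by
    have h1 : 0 < (2 + s') * (3 + s') * (2 - B') * (2 * B' - 1) := by
      have : 0 < 2 - B' := by linarith
      have : 0 < 2 * B' - 1 := by linarith
      positivity
    rw [← hE'] at h1
    have h2 : 0 < B' * (3 + 2 * s') := by positivity
    exact (pos_iff_pos_of_mul_pos h1).mp h2
  have hqq : 2 - 2 * s' - s' ^ 2 < 2 - 2 * s - s ^ 2 := by nlinarith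
  have hq : 0 < 2 - 2 * s - s ^ 2 := by linarith
  -- first equation
  have hρ : (2 - 3 * s' ^ 2 - s' ^ 3) / (2 + s') < (2 - 3 * s ^ 2 - s ^ 3) / (2 + s) := by
    have n1 : 2 - 3 * s' ^ 2 - s' ^ 3 = (1 + s') * (2 - 2 * s' - s' ^ 2) := by ring
    have n2 : 0 < 2 - 3 * s' ^ 2 - s' ^ 3 := by rw [n1]; positivity
    have n3 : 2 - 3 * s' ^ 2 - s' ^ 3 < 2 - 3 * s ^ 2 - s ^ 3 := by
      have e2 : s ^ 2 < s' ^ 2 := pow_lt_pow_left₀ hlt hs.le (by norm_num)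
      have e3 : s ^ 3 < s' ^ 3 := pow_lt_pow_left₀ hlt hs.le (by norm_num)
      linarith
    rw [div_lt_div_iff₀ (by linarith) (by linarith)]
    nlinarith
  have hτ : (6 - 2 * s' - 7 * s' ^ 2 - 2 * s' ^ 3) / ((2 + s') * (3 + s')) <
      (6 - 2 * s - 7 * s ^ 2 - 2 * s ^ 3) / ((2 + s) * (3 + s)) := by
    have n1 : 6 - 2 * s' - 7 * s' ^ 2 - 2 * s' ^ 3 = (3 + 2 * s') * (2 - 2 * s' - s' ^ 2) := by
      ring
    have n2 : 0 < 6 - 2 * s' - 7 * s' ^ 2 - 2 * s' ^ 3 := by rw [n1]; positivity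
    have n3 : 6 - 2 * s' - 7 * s' ^ 2 - 2 * s' ^ 3 < 6 - 2 * s - 7 * s ^ 2 - 2 * s ^ 3 := by
      have e2 : s ^ 2 < s' ^ 2 := pow_lt_pow_left₀ hlt hs.le (by norm_num)
      have e3 : s ^ 3 < s' ^ 3 := pow_lt_pow_left₀ hlt hs.le (by norm_num)
      linarith
    have n4 : (2 + s) * (3 + s) < (2 + s') * (3 + s') := by nlinarith
    rw [div_lt_div_iff₀ (by positivity) (by positivity)]
    have n5 : 0 < (2 + s) * (3 + s) := by positivity
    exact mul_lt_mul'' n3 n4 n2.le n5.le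
  have e1 : B - 1 / B = (2 - 3 * s ^ 2 - s ^ 3) / (2 + s) := by
    rw [eq_div_iff (by linarith)]
    field_simp
    linear_combination -hD
  have e1' : B' - 1 / B' = (2 - 3 * s' ^ 2 - s' ^ 3) / (2 + s') := by
    rw [eq_div_iff (by linarith)]
    field_simp
    linear_combination -hD'
  have e2 : 5 - 2 * (B + 1 / B) = (6 - 2 * s - 7 * s ^ 2 - 2 * s ^ 3) / ((2 + s) * (3 + s)) := by
    rw [eq_div_iff (by positivity)]
    field_simp
    linear_combination -hE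
  have e2' : 5 - 2 * (B' + 1 / B') =
      (6 - 2 * s' - 7 * s' ^ 2 - 2 * s' ^ 3) / ((2 + s') * (3 + s')) := by
    rw [eq_div_iff (by positivity)]
    field_simp
    linear_combination -hE'
  rw [← e1, ← e1'] at hρ
  rw [← e2, ← e2'] at hτ
  have hBB : B' < B := by
    by_contra hcon
    push Not at hcon
    have : 1 / B' ≤ 1 / B := one_div_le_one_div_of_le hB0 hcon
    linarith
  have hfin : B' + 1 / B' ≤ B + 1 / B := by
    have h5 : (B + 1 / B) - (B' + 1 / B') = (B - B') * (B * B' - 1) / (B * B') := by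
      field_simp
      ring
    have h6 : 0 < B * B' - 1 := by nlinarith
    have h7 : 0 ≤ (B - B') * (B * B' - 1) / (B * B') := by
      have : 0 < B - B' := by linarith
      positivity
    linarith
  linarith

theorem cert_unique (s B s' B' : ℝ) (hs : 0 < s) (hs1 : s < 1) (hB : 1 < B) (hB2 : B < 2)
    (hs' : 0 < s') (hs1' : s' < 1) (hB' : 1 < B') (hB2' : B' < 2)
    (hD : eqD s B) (hE : eqE s B) (hD' : eqD s' B') (hE' : eqE s' B') : s = s' ∧ B = B' := by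
  have hss : s = s' := by
    rcases lt_trichotomy s s' with h | h | h
    · exact (cert_aux s B s' B' hs hs1 hB hB2 hs' hs1' hB' hB2' hD hE hD' hE' h).elim
    · exact h
    · exact (cert_aux s' B' s B hs' hs1' hB' hB2' hs hs1 hB hB2 hD' hE' hD hE h).elim
  refine ⟨hss, ?_⟩
  subst hss
  unfold eqD at hD hD'
  have h1 : (2 + s) * ((B - B') * (B * B' + 1)) = 0 := by
    linear_combination (-B') * hD + B * hD'
  have h2 : (2 + s) ≠ 0 := by positivity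
  have h3 := (mul_eq_zero.mp h1).resolve_left h2
  have h4 : B * B' + 1 ≠ 0 := by positivity
  have h5 := (mul_eq_zero.mp h3).resolve_right h4
  linarith

end Wyk
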