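import Pool.Agent.Wyk.Cert

/-!
# The dual certificate (module CertAB)

Let `x = B - 1 ∈ (0.4777, 0.4779)`, `R = 1 + 1/(1+x)`, `ψ = 1/(1-x) + 1/(1+2x)`,
`b = (1 + 1/(1+x)²) / (1/(1-x)² + 1/(1+2x)²) ≈ 0.3711`, `a = x (R - b ψ) ≈ 0.3709`.

The polynomial
`N(y) = a(1-y)(1+2y)(1+y) + b y(1+y)(2+y) - y(2+y)(1-y)(1+2y)`
`     = a + (2a+2b-2) y + (-a+3b-3) y² + (-2a+b+3) y³ + 2y⁴`
is `y(1-y)(1+2y)(1+y) * (a/y + b(1/(1-y) + 1/(1+2y)) - (1 + 1/(1+y)))`. By the choice of `a, b`,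
`N(x) = 0` and `N'(x) = 0`, so `N(y) = (y-x)² (2y² + p y + r)` with `p = 3 - 2a + b + 4x ≈ 4.54` and
`r = a/x² ≈ 1.62` (compare the coefficients of `y³` and of `1`; the two others follow from
`N(x) = N'(x) = 0`). From rough bounds `0.36 < a < 0.38`, `0.36 < b < 0.38`: `p > 0`, `r > 1.5`.
For `y ∈ (0,1)`: `y(1-y)(1+2y)(1+y) ≤ 1.5` (`y(1-y) ≤ 1/4`, `(1+2y)(1+y) ≤ 6`), so
`a/y + b(...) - (1+1/(1+y)) ≥ (y-x)² r / 1.5 ≥ (y-x)²`.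

Identity `s(1 + 1/(2+s) - a/(1+s) - b/(3+2s)) = 1 - a - b`: put `λ = x/(1+s)`. By `eqD`,
`λ R = 1 - s(1+1/(2+s))` (both sides: `x R = (B²-1)/B`, `1 - s - s/(2+s) = (2-2s-s²)/(2+s)`), and by
`eqE` and `eqD`, `λ ψ = 1 - s/(3+2s) = (3+s)/(3+2s)` (here `ψ = (1+B)/((2-B)(2B-1))` and
`x R/ψ = (B-1)(2-B)(2B-1)/B`...; precisely `λ R = (2-2s-s²)/(2+s)`, and `eqE` says
`(2-2s-s²)/(2+s) * (3+2s)/(3+s) = (2-B)(2B-1)/B = R/ψ`). And `λ/x = 1/(1+s)`, i.e.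
`λ/x = 1 - s/(1+s)`. Since `R = a/x + bψ`:
`1 - s(1+1/(2+s)) = λR = a λ/x + b λψ = a(1 - s/(1+s)) + b(1 - s/(3+2s))`, which is the identity.

`hh`: with `f(κ) = κ/(1+κ)`: `0 ≤ f(κ') - f(κ) ≤ κ' - κ`; `g(κ) = κ/(3+2κ)`:
`0 ≤ g(κ') - g(κ) ≤ (κ'-κ)/3`; `m(κ) = κ/(2+κ)`: `0 ≤ m(κ') - m(κ) ≤ (κ'-κ)/2` for `0 ≤ κ ≤ κ'`;
`hh a b κ = κ + m(κ) - a f(κ) - b g(κ)`.
-/

namespace Wyk

/-- the upper certificate function -/
noncomputable def hh (a b κ : ℝ) : ℝ := κ * (1 + 1 / (2 + κ) - a / (1 + κ) - b / (3 + 2 * κ))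

theorem hh_incr (a b κ κ' : ℝ) (ha : 0 ≤ a) (hb : 0 ≤ b) (hκ : 0 ≤ κ) (hκκ : κ ≤ κ') :
    hh a b κ + (1 - a - b) * (κ' - κ) ≤ hh a b κ' ∧ hh a b κ' ≤ hh a b κ + 3 / 2 * (κ' - κ) := by
  have hκ' : 0 ≤ κ' := hκ.trans hκκ
  have hd : 0 ≤ κ' - κ := by linarith
  -- the three functions
  have e1 : κ' / (1 + κ') - κ / (1 + κ) = (κ' - κ) / ((1 + κ') * (1 + κ)) := by
    field_simp
    ring
  have e2 : κ' / (3 + 2 * κ') - κ / (3 + 2 * κ) = 3 * (κ' - κ) / ((3 + 2 * κ') * (3 + 2 * κ)) := by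
    field_simp
    ring
  have e3 : κ' / (2 + κ') - κ / (2 + κ) = 2 * (κ' - κ) / ((2 + κ') * (2 + κ)) := by
    field_simp
    ring
  have f1 : 0 ≤ κ' / (1 + κ') - κ / (1 + κ) := by rw [e1]; positivity
  have f1' : κ' / (1 + κ') - κ / (1 + κ) ≤ κ' - κ := by
    rw [e1, div_le_iff₀ (by positivity)]
    have : 1 ≤ (1 + κ') * (1 + κ) := by nlinarith [mul_nonneg hκ' hκ]
    nlinarith
  have f2 : 0 ≤ κ' / (3 + 2 * κ') - κ / (3 + 2 * κ) := by rw [e2]; positivity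
  have f2' : κ' / (3 + 2 * κ') - κ / (3 + 2 * κ) ≤ κ' - κ := by
    rw [e2, div_le_iff₀ (by positivity)]
    have : 3 ≤ (3 + 2 * κ') * (3 + 2 * κ) := by nlinarith [mul_nonneg hκ' hκ]
    nlinarith
  have f3 : 0 ≤ κ' / (2 + κ') - κ / (2 + κ) := by rw [e3]; positivity
  have f3' : κ' / (2 + κ') - κ / (2 + κ) ≤ (κ' - κ) / 2 := by
    rw [e3, div_le_iff₀ (by positivity)]
    have : 4 ≤ (2 + κ') * (2 + κ) := by nlinarith [mul_nonneg hκ' hκ]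
    nlinarith
  have g : ∀ t : ℝ, hh a b t = t + t / (2 + t) - a * (t / (1 + t)) - b * (t / (3 + 2 * t)) := by
    intro t
    unfold hh
    ring
  rw [g κ, g κ']
  have h1 := mul_le_mul_of_nonneg_left f1' ha
  have h2 := mul_le_mul_of_nonneg_left f2' hb
  have h3 := mul_nonneg ha f1
  have h4 := mul_nonneg hb f2
  constructor <;> nlinarith

private theorem CertAB_mul {x y a b c d : ℝ} (ha : 0 < a) (h1 : a < x) (h2 : x < b) (hc : 0 < c) (h3 : c < y)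
    (h4 : y < d) : a * c < x * y ∧ x * y < b * d :=
  ⟨mul_lt_mul'' h1 h3 ha.le hc.le, mul_lt_mul'' h2 h4 (ha.trans h1).le (hc.trans h3).le⟩

private theorem CertAB_bounds (x : ℝ) (x1 : 0.4777 < x) (x2 : x < 0.4779) :
    (0.36 < 2 * x ^ 3 * (x + 2) ^ 3 / ((1 + x) ^ 2 * (2 + 2 * x + 5 * x ^ 2)) ∧
      2 * x ^ 3 * (x + 2) ^ 3 / ((1 + x) ^ 2 * (2 + 2 * x + 5 * x ^ 2)) < 0.38) ∧
    (0.36 < (2 + 2 * x + x ^ 2) * (1 - x) ^ 2 * (1 + 2 * x) ^ 2 / ((1 + x) ^ 2 * (2 + 2 * x + 5 * x ^ 2)) ∧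
      (2 + 2 * x + x ^ 2) * (1 - x) ^ 2 * (1 + 2 * x) ^ 2 / ((1 + x) ^ 2 * (2 + 2 * x + 5 * x ^ 2)) < 0.38) := by
  have p0 : (0 : ℝ) < 0.4777 := by norm_num
  obtain ⟨s1, s2⟩ := CertAB_mul p0 x1 x2 p0 x1 x2
  obtain ⟨s3, s4⟩ := CertAB_mul (by norm_num) s1 s2 p0 x1 x2
  have u1 : (2.4777 : ℝ) < x + 2 := by linarith
  have u2 : x + 2 < (2.4779 : ℝ) := by linarith
  obtain ⟨t1, t2⟩ := CertAB_mul (by norm_num) u1 u2 (by norm_num) u1 u2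
  obtain ⟨t3, t4⟩ := CertAB_mul (by norm_num) t1 t2 (by norm_num) u1 u2
  obtain ⟨n1, n2⟩ := CertAB_mul (by norm_num) s3 s4 (by norm_num) t3 t4
  have v1 : (1.4777 : ℝ) < 1 + x := by linarith
  have v2 : 1 + x < (1.4779 : ℝ) := by linarith
  obtain ⟨d1, d2⟩ := CertAB_mul (by norm_num) v1 v2 (by norm_num) v1 v2
  have k1 : (4.0959 : ℝ) < 2 + 2 * x + 5 * (x * x) := by norm_num at s1 ⊢; linarith
  have k2 : 2 + 2 * x + 5 * (x * x) < (4.0979 : ℝ) := by norm_num at s2 ⊢; linarith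
  obtain ⟨D1, D2⟩ := CertAB_mul (by norm_num) d1 d2 (by norm_num) k1 k2
  have z1 : (0.5221 : ℝ) < 1 - x := by linarith
  have z2 : 1 - x < (0.5223 : ℝ) := by linarith
  have y1 : (1.9554 : ℝ) < 1 + 2 * x := by linarith
  have y2 : 1 + 2 * x < (1.9558 : ℝ) := by linarith
  obtain ⟨w1, w2⟩ := CertAB_mul (by norm_num) z1 z2 (by norm_num) y1 y2
  obtain ⟨w3, w4⟩ := CertAB_mul (by norm_num) w1 w2 (by norm_num) w1 w2
  have q1 : (3.183 : ℝ) < 2 + 2 * x + x * x := by norm_num at s1 ⊢; linarith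
  have q2 : 2 + 2 * x + x * x < (3.1843 : ℝ) := by norm_num at s2 ⊢; linarith
  obtain ⟨r1, r2⟩ := CertAB_mul (by norm_num) q1 q2 (by norm_num) w3 w4
  have e1 : 2 * x ^ 3 * (x + 2) ^ 3 = 2 * (x * x * x * ((x + 2) * (x + 2) * (x + 2))) := by ring
  have e2 : (1 + x) ^ 2 * (2 + 2 * x + 5 * x ^ 2) = (1 + x) * (1 + x) * (2 + 2 * x + 5 * (x * x)) := by ring
  have e3 : (2 + 2 * x + x ^ 2) * (1 - x) ^ 2 * (1 + 2 * x) ^ 2 =
      (2 + 2 * x + x * x) * ((1 - x) * (1 + 2 * x) * ((1 - x) * (1 + 2 * x))) := by ring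
  rw [e1, e2, e3]
  have hD : 0 < (1 + x) * (1 + x) * (2 + 2 * x + 5 * (x * x)) := lt_trans (by norm_num) D1
  refine ⟨⟨?_, ?_⟩, ?_, ?_⟩
  · rw [lt_div_iff₀ hD]
    norm_num at n1 D2 ⊢
    linarith
  · rw [div_lt_iff₀ hD]
    norm_num at n2 D1 ⊢
    linarith
  · rw [lt_div_iff₀ hD]
    norm_num at r1 D2 ⊢
    linarith
  · rw [div_lt_iff₀ hD]
    norm_num at r2 D1 ⊢
    linarith

private theorem CertAB_id (s x a b : ℝ) (hs0 : 0 < s) (x0 : 0 < x) (xh : x < 1)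
    (ha : a = 2 * x ^ 3 * (x + 2) ^ 3 / ((1 + x) ^ 2 * (2 + 2 * x + 5 * x ^ 2)))
    (hb : b = (2 + 2 * x + x ^ 2) * (1 - x) ^ 2 * (1 + 2 * x) ^ 2 / ((1 + x) ^ 2 * (2 + 2 * x + 5 * x ^ 2)))
    (hD : eqD s (1 + x)) (hE : eqE s (1 + x)) : hh a b s = 1 - a - b := by
  unfold eqD at hD
  unfold eqE at hE
  have hv : 0 < 1 - x := by linarith
  have hw : 0 < 1 + 2 * x := by linarith
  have p1 : (0 : ℝ) < 1 + s := by linarith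
  have p2 : (0 : ℝ) < 2 + s := by linarith
  have p3 : (0 : ℝ) < 3 + 2 * s := by linarith
  have p4 : (0 : ℝ) < 1 + x := by linarith
  have hK : 0 < 2 + 2 * x + 5 * x ^ 2 := by positivity
  -- lambda R
  have l1 : x / (1 + s) * (1 + 1 / (1 + x)) = 1 - s * (1 + 1 / (2 + s)) := by
    field_simp
    linear_combination (-1 : ℝ) * hD
  have l2 : x / (1 + s) * (1 / (1 - x) + 1 / (1 + 2 * x)) = 1 - s / (3 + 2 * s) := by
    have e1 : (1 + x) * (2 + s) ≠ 0 := by positivity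
    have e2 : 1 - x ≠ 0 := hv.ne'
    have h1 : x * (2 + x) * (3 + 2 * s) = (3 + s) * (1 + s) * ((1 - x) * (1 + 2 * x)) := by
      have h2 : ((1 + x) * (2 + s)) * (x * (2 + x) * (3 + 2 * s)) =
          ((1 + x) * (2 + s)) * ((3 + s) * (1 + s) * ((1 - x) * (1 + 2 * x))) := by
        linear_combination (-(1 + x) * (3 + 2 * s)) * hD + ((1 + x) * (1 + s)) * hE
      exact mul_left_cancel₀ e1 h2
    field_simp
    linear_combination h1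
  have l3 : a = x * ((1 + 1 / (1 + x)) - b * (1 / (1 - x) + 1 / (1 + 2 * x))) := by
    rw [ha, hb]
    have e2 : 1 - x ≠ 0 := hv.ne'
    field_simp
    ring
  have l4 : a / (1 + s) = (1 - s * (1 + 1 / (2 + s))) - b * (1 - s / (3 + 2 * s)) := by
    rw [← l1, ← l2]
    have : a / (1 + s) = x * ((1 + 1 / (1 + x)) - b * (1 / (1 - x) + 1 / (1 + 2 * x))) / (1 + s) := by
      rw [← l3]
    rw [this]
    ring
  have l5 : a / (1 + s) = a - s * (a / (1 + s)) := by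
    field_simp
    ring
  unfold hh
  have l6 : s * (b / (3 + 2 * s)) = b * (s / (3 + 2 * s)) := by ring
  have l7 : s * (1 + 1 / (2 + s) - a / (1 + s) - b / (3 + 2 * s)) =
      s * (1 + 1 / (2 + s)) - s * (a / (1 + s)) - s * (b / (3 + 2 * s)) := by ring
  rw [l7, l6]
  linarith

private theorem CertAB_c (x a b r p : ℝ) (x0 : 0 < x)
    (ha : a = 2 * x ^ 3 * (x + 2) ^ 3 / ((1 + x) ^ 2 * (2 + 2 * x + 5 * x ^ 2)))
    (hb : b = (2 + 2 * x + x ^ 2) * (1 - x) ^ 2 * (1 + 2 * x) ^ 2 / ((1 + x) ^ 2 * (2 + 2 * x + 5 * x ^ 2)))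
    (hr : r = 2 * x * (x + 2) ^ 3 / ((1 + x) ^ 2 * (2 + 2 * x + 5 * x ^ 2)))
    (hp : p = 3 - 2 * a + b + 4 * x) :
    r * x ^ 2 = a ∧ r - 2 * x * p + 2 * x ^ 2 = -a + 3 * b - 3 ∧ -2 * x * r + x ^ 2 * p = 2 * a + 2 * b - 2 := by
  have p4 : (0 : ℝ) < 1 + x := by linarith
  have hK : 0 < 2 + 2 * x + 5 * x ^ 2 := by positivity
  refine ⟨?_, ?_, ?_⟩
  · rw [hr, ha]
    field_simp
  · rw [hp, hr, ha, hb]
    field_simp
    ring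
  · rw [hp, hr, ha, hb]
    field_simp
    ring

private theorem CertAB_y (x a b r p y : ℝ) (hy0 : 0 < y) (hy1 : y < 1) (hr1 : 1.5 < r) (hp0 : 0 < p)
    (hra : r * x ^ 2 = a) (c2 : r - 2 * x * p + 2 * x ^ 2 = -a + 3 * b - 3)
    (c1 : -2 * x * r + x ^ 2 * p = 2 * a + 2 * b - 2) (hp : p = 3 - 2 * a + b + 4 * x) :
    1 + 1 / (1 + y) + (y - x) ^ 2 ≤ a / y + b * (1 / (1 - y) + 1 / (1 + 2 * y)) := by
  have q1 : 0 < 1 - y := by linarith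
  have q2 : 0 < 1 + 2 * y := by linarith
  have q3 : 0 < 1 + y := by linarith
  have hM : 0 < y * (1 - y) * (1 + 2 * y) * (1 + y) := by positivity
  have hM2 : y * (1 - y) * (1 + 2 * y) * (1 + y) ≤ 1.5 := by
    have m1 : y * (1 - y) ≤ 1 / 4 := by nlinarith [sq_nonneg (y - 1 / 2)]
    have m2 : (1 + 2 * y) * (1 + y) ≤ 6 := by nlinarith
    have m3 : 0 ≤ (1 + 2 * y) * (1 + y) := by positivity
    have m4 : y * (1 - y) * ((1 + 2 * y) * (1 + y)) ≤ 1 / 4 * ((1 + 2 * y) * (1 + y)) :=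
      mul_le_mul_of_nonneg_right m1 m3
    have m5 : y * (1 - y) * (1 + 2 * y) * (1 + y) = y * (1 - y) * ((1 + 2 * y) * (1 + y)) := by ring
    rw [m5]
    linarith
  have hN : a * (1 - y) * (1 + 2 * y) * (1 + y) + b * y * (1 + y) * (2 + y) - y * (2 + y) * (1 - y) * (1 + 2 * y) =
      (y - x) ^ 2 * (2 * y ^ 2 + p * y + r) := by
    linear_combination (-y ^ 3) * hp + (-y ^ 2) * c2 + (-y) * c1 + (-1 : ℝ) * hra
  have hF : a / y + b * (1 / (1 - y) + 1 / (1 + 2 * y)) - (1 + 1 / (1 + y)) =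
      ((y - x) ^ 2 * (2 * y ^ 2 + p * y + r)) / (y * (1 - y) * (1 + 2 * y) * (1 + y)) := by
    rw [← hN]
    field_simp
    ring
  have hG : (y - x) ^ 2 ≤ ((y - x) ^ 2 * (2 * y ^ 2 + p * y + r)) / (y * (1 - y) * (1 + 2 * y) * (1 + y)) := by
    rw [le_div_iff₀ hM]
    apply mul_le_mul_of_nonneg_left _ (sq_nonneg _)
    have h1 : 0 < p * y := by positivity
    have h2 : 0 ≤ y ^ 2 := sq_nonneg y
    linarith
  linarith

theorem cert_ab (s B : ℝ) (hs1 : 0.2477 < s) (hs2 : s < 0.2478) (hB1 : 1.4777 < B)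
    (hB2 : B < 1.4779) (hD : eqD s B) (hE : eqE s B) :
    ∃ a b : ℝ, 0 < a ∧ 0 < b ∧ a + b < 1 ∧ hh a b s = 1 - a - b ∧
      ∀ y : ℝ, 0 < y → y < 1 →
        1 + 1 / (1 + y) + (y - (B - 1)) ^ 2 ≤ a / y + b * (1 / (1 - y) + 1 / (1 + 2 * y)) := by
  obtain ⟨x, hx⟩ : ∃ x : ℝ, x = B - 1 := ⟨_, rfl⟩
  have hB : B = 1 + x := by linarith
  subst hB
  have x1 : 0.4777 < x := by linarith
  have x2 : x < 0.4779 := by linarith
  have x0 : 0 < x := by linarith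
  obtain ⟨⟨a1, a2⟩, b1, b2⟩ := CertAB_bounds x x1 x2
  obtain ⟨a, ha⟩ : ∃ a : ℝ, a = 2 * x ^ 3 * (x + 2) ^ 3 / ((1 + x) ^ 2 * (2 + 2 * x + 5 * x ^ 2)) := ⟨_, rfl⟩
  obtain ⟨b, hb⟩ : ∃ b : ℝ, b = (2 + 2 * x + x ^ 2) * (1 - x) ^ 2 * (1 + 2 * x) ^ 2 /
    ((1 + x) ^ 2 * (2 + 2 * x + 5 * x ^ 2)) := ⟨_, rfl⟩
  obtain ⟨r, hr⟩ : ∃ r : ℝ, r = 2 * x * (x + 2) ^ 3 / ((1 + x) ^ 2 * (2 + 2 * x + 5 * x ^ 2)) := ⟨_, rfl⟩
  obtain ⟨p, hp⟩ : ∃ p : ℝ, p = 3 - 2 * a + b + 4 * x := ⟨_, rfl⟩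
  obtain ⟨hra, c2, c1⟩ := CertAB_c x a b r p x0 ha hb hr hp
  rw [← ha] at a1 a2
  rw [← hb] at b1 b2
  refine ⟨a, b, by linarith, by linarith, by linarith,
    CertAB_id s x a b (by linarith) x0 (by linarith) ha hb hD hE, ?_⟩
  intro y hy0 hy1
  have ex : 1 + x - 1 = x := by ring
  rw [ex]
  refine CertAB_y x a b r p y hy0 hy1 ?_ (by rw [hp]; linarith) hra c2 c1 hp
  by_contra hcon
  rw [not_lt] at hcon
  have s2 : x ^ 2 < 0.2284 := by nlinarith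
  have s1 : 0 < x ^ 2 := by positivity
  nlinarith

end Wyk
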