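import Pool.Agent.Wyk.Defs

/-!
# Cluster points (module ClusM)

`Clus P f = {x | ∀ ε > 0, ∀ N, ∃ c > N, P c ∧ |f c - x| < ε}`.

* `clus_closed`: if `x` is in the closure and `ε > 0`, take `x' ∈ Clus` with `|x - x'| < ε/2` and apply
  the definition with `ε/2`.
* `clus_bw` (Bolzano-Weierstrass): choose a strictly increasing sequence `c_n` with `P (c_n)`,
  `f (c_n) ∈ [l, u]`; `[l,u]` is compact, so a subsequence of `f (c_n)` converges to some
  `x ∈ [l, u]` (`isCompact_Icc.tendsto_subseq`), and `x ∈ Clus P f`. (Or: filter version,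
  `MapClusterPt`, with `Filter.atTop ⊓ 𝓟 {c | P c ∧ ...}`.)
* `clus_bounds`: if `l ≤ f c ≤ u` for all `c > N0` with `P c`, then `Clus P f ⊆ [l, u]`
  (take `ε` = distance of `x` to `[l,u]`).
* `clus_conv`: suppose that it fails for some `ε`: then the predicate
  `P' c := P c ∧ |f c - x| ≥ ε` holds for arbitrarily large `c`, where `f c ∈ [l, u]`; by `clus_bw` for
  `P'` there is a cluster point `y` of `f` along `P'`, with `|y - x| ≥ ε` (closedness), and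
  `y ∈ Clus P f`: contradiction with `hx`.
* `clus_or`: `⊇` is clear. `⊆`: if `x` is in none of the two, there are `ε1, N1` with no `c > N1`,
  `Q c`, `|f c - x| < ε1`, and `ε2, N2` for `R`; then `min ε1 ε2`, `max N1 N2` show `x ∉ Clus P f`.
-/

namespace Wyk

theorem clus_closed (P : ℕ → Prop) (f : ℕ → ℝ) : IsClosed (Clus P f) := by
  rw [← closure_subset_iff_isClosed]
  intro x hx ε hε N
  rw [Metric.mem_closure_iff] at hx
  obtain ⟨y, hy, hxy⟩ := hx (ε / 2) (half_pos hε)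
  obtain ⟨c, hc, hPc, hfc⟩ := hy (ε / 2) (half_pos hε) N
  refine ⟨c, hc, hPc, ?_⟩
  rw [Real.dist_eq] at hxy
  have h1 := abs_sub_le (f c) y x
  rw [abs_sub_comm y x] at h1
  linarith

theorem clus_bw (P : ℕ → Prop) (f : ℕ → ℝ) (l u : ℝ)
    (hinf : ∀ N : ℕ, ∃ c, N < c ∧ P c ∧ l ≤ f c ∧ f c ≤ u) : ∃ x ∈ Clus P f, l ≤ x ∧ x ≤ u := by
  choose g hg using hinf
  have hmem : ∀ n, f (g n) ∈ Set.Icc l u := fun n => ⟨(hg n).2.2.1, (hg n).2.2.2⟩
  obtain ⟨a, ha, φ, hφ, hlim⟩ := isCompact_Icc.tendsto_subseq hmem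
  refine ⟨a, ?_, ha.1, ha.2⟩
  intro ε hε N
  rw [Metric.tendsto_atTop] at hlim
  obtain ⟨n0, hn0⟩ := hlim ε hε
  have h1 := hn0 (max n0 N) (le_max_left _ _)
  refine ⟨g (φ (max n0 N)), ?_, (hg _).2.1, ?_⟩
  · have h2 := (hg (φ (max n0 N))).1
    have h3 := hφ.id_le (max n0 N)
    simp only [id] at h3
    have h4 := le_max_right n0 N
    omega
  · rw [Real.dist_eq] at h1
    exact h1

theorem clus_bounds (P : ℕ → Prop) (f : ℕ → ℝ) (l u : ℝ) (N0 : ℕ)
    (hb : ∀ c, N0 < c → P c → l ≤ f c ∧ f c ≤ u) (x : ℝ) (hx : x ∈ Clus P f) :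
    l ≤ x ∧ x ≤ u := by
  constructor
  · by_contra h
    rw [not_le] at h
    obtain ⟨c, hc, hPc, hfc⟩ := hx (l - x) (sub_pos.2 h) N0
    have h1 := (hb c hc hPc).1
    have h2 := (abs_lt.1 hfc).2
    linarith
  · by_contra h
    rw [not_le] at h
    obtain ⟨c, hc, hPc, hfc⟩ := hx (x - u) (sub_pos.2 h) N0
    have h1 := (hb c hc hPc).2
    have h2 := (abs_lt.1 hfc).1
    linarith

theorem clus_conv (P : ℕ → Prop) (f : ℕ → ℝ) (l u : ℝ) (N0 : ℕ)
    (hb : ∀ c, N0 < c → P c → l ≤ f c ∧ f c ≤ u) (x : ℝ) (hx : ∀ y ∈ Clus P f, y = x) :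
    ∀ ε : ℝ, 0 < ε → ∃ N : ℕ, ∀ c, N < c → P c → |f c - x| < ε := by
  intro ε hε
  by_contra hcon
  push Not at hcon
  obtain ⟨y, hy, -, -⟩ := clus_bw (fun c => P c ∧ ε ≤ |f c - x|) f l u (by
    intro N
    obtain ⟨c, hc, hPc, hfc⟩ := hcon (max N N0)
    have h1 := le_max_left N N0
    have h2 := le_max_right N N0
    exact ⟨c, by omega, ⟨hPc, hfc⟩, hb c (by omega) hPc⟩)
  have hyP : y ∈ Clus P f := by
    intro δ hδ N
    obtain ⟨c, hc, hPc, hfc⟩ := hy δ hδ N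
    exact ⟨c, hc, hPc.1, hfc⟩
  have hyx := hx y hyP
  obtain ⟨c, -, hPc, hfc⟩ := hy ε hε 0
  rw [hyx] at hfc
  exact absurd hfc (not_lt.2 hPc.2)

theorem clus_or (P Q R : ℕ → Prop) (f : ℕ → ℝ) (hPQR : ∀ c, P c ↔ Q c ∨ R c) :
    Clus P f = Clus Q f ∪ Clus R f := by
  ext x
  constructor
  · intro hx
    by_contra hcon
    rw [Set.mem_union, not_or] at hcon
    obtain ⟨h1, h2⟩ := hcon
    have h1' : ∃ ε : ℝ, 0 < ε ∧ ∃ N : ℕ, ∀ c, N < c → Q c → ε ≤ |f c - x| := by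
      by_contra hh
      apply h1
      intro ε hε N
      by_contra hh2
      apply hh
      refine ⟨ε, hε, N, fun c hc hQ => ?_⟩
      by_contra hlt
      exact hh2 ⟨c, hc, hQ, not_le.1 hlt⟩
    have h2' : ∃ ε : ℝ, 0 < ε ∧ ∃ N : ℕ, ∀ c, N < c → R c → ε ≤ |f c - x| := by
      by_contra hh
      apply h2
      intro ε hε N
      by_contra hh2
      apply hh
      refine ⟨ε, hε, N, fun c hc hQ => ?_⟩
      by_contra hlt
      exact hh2 ⟨c, hc, hQ, not_le.1 hlt⟩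
    obtain ⟨ε1, he1, N1, hN1⟩ := h1'
    obtain ⟨ε2, he2, N2, hN2⟩ := h2'
    obtain ⟨c, hc, hPc, hfc⟩ := hx (min ε1 ε2) (lt_min he1 he2) (max N1 N2)
    have hm1 := le_max_left N1 N2
    have hm2 := le_max_right N1 N2
    rcases (hPQR c).1 hPc with hQ | hR
    · have h3 := hN1 c (by omega) hQ
      have h4 := min_le_left ε1 ε2
      linarith
    · have h3 := hN2 c (by omega) hR
      have h4 := min_le_right ε1 ε2
      linarith
  · intro hx ε hε N
    rcases hx with hx | hx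
    · obtain ⟨c, hc, hQ, hfc⟩ := hx ε hε N
      exact ⟨c, hc, (hPQR c).2 (Or.inl hQ), hfc⟩
    · obtain ⟨c, hc, hR, hfc⟩ := hx ε hε N
      exact ⟨c, hc, (hPQR c).2 (Or.inr hR), hfc⟩

end Wyk
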