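import Pool.Agent.Wyk.ML
import Pool.Agent.Wyk.CertAB

/-!
# `sup L ≥ 2 + s`, and `β ∈ L` in the extremal case (module D12)

Notation for an upper column `c`: `k = rk σ c` (`0 < k ≤ c`), `κ = k/c ∈ (0,1]`, `σ c = 2c + k`
(`up_eq`), so `σ c - c = c + k`, `2σ c - c = 3c + 2k`, and (field_simp)
`up_id`: `1/c + 1/σ c = a/(σ c - c) + b/(2σ c - c) + hh a b κ / k`.
For a lower column: `y = (σ c - c)/c ∈ (0,1)`, `1/c + 1/σ c = (1 + 1/(1+y))/c`,
`a/(σ c - c) = (a/y)/c`, `1/(2c - σ c) = (1/(1-y))/c`, `1/(2σ c - c) = (1/(1+2y))/c`.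

`d_sup`. Suppose that `rk σ c / c ≤ s - ε` for all upper `c > N`. Put `s' = max (s-ε) 0`, so
`0 ≤ s' < s`. Take `a, b` from `cert_ab`, `A = 1`, `ν = hh a b s'`. `hlo` of `ml`: the last property of
`cert_ab` divided by `c` (drop the square). `hup`: `up_id` and `hh a b κ ≤ hh a b s'` (`κ ≤ s - ε ≤ s'`,
`hh_incr`). So `1 ≤ a + b + hh a b s' ≤ a + b + hh a b s - (1-a-b)(s-s') = 1 - (1-a-b)(s-s') < 1`.

`d_beta`. Suppose that `|σ c / c - B| ≥ ε` for all lower `c > N`; put `t = ε²/2 > 0`,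
`p0 = s(1 + 1/(2+s)) < 0.36`, `η = t/(10(1+t))`, and let `κ < s + η` for all upper `c > N'`.
Apply `ml` with `A = 1 + t` and `max N N'`:
* lower: `y = σ c/c - 1`, `|y - (B-1)| ≥ ε`, so `(1+t)(1 + 1/(1+y)) ≤ 1 + 1/(1+y) + 2t
  ≤ 1 + 1/(1+y) + (y-(B-1))²≤ a/y + b(...)`; divide by `c`.
* upper: `(1+t)(1/c + 1/σ c) = a/(σ c - c) + b/(2σ c - c) + (hh a b κ + t κ(1+1/(2+κ)))/k`, and with
  `κ ≤ s + η`: `hh a b κ ≤ hh a b (s+η) ≤ hh a b s + (3/2) η`, and
  `κ(1+1/(2+κ)) = hh 0 0 κ ≤ p0 + (3/2) η`. So `ν = 1 - a - b + (3/2)η + t (p0 + (3/2) η)`.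
Conclusion: `1 + t ≤ 1 + (3/2) η (1+t) + t p0`, i.e. `t (1 - p0) ≤ (3/2) η (1 + t) = 0.15 t`, but
`1 - p0 > 0.64`: contradiction.
-/

namespace Wyk

variable {σ : ℕ → ℕ}

theorem up_id (h : WS σ) (a b : ℝ) {c : ℕ} (hc : Up σ c) :
    1 / (c : ℝ) + 1 / (σ c : ℝ) = a / ((σ c : ℝ) - c) + b / (2 * (σ c : ℝ) - c)
      + hh a b ((rk σ c : ℝ) / c) / (rk σ c : ℝ) := by
  have hcpos : (0 : ℝ) < c := by exact_mod_cast hc.pos h
  have hkpos : (0 : ℝ) < (rk σ c : ℝ) := by exact_mod_cast rk_pos h hc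
  have he : (σ c : ℝ) = 2 * c + (rk σ c : ℝ) := by
    have := up_eq h hc
    exact_mod_cast this
  rw [he]
  set C : ℝ := (c : ℝ) with hC
  set K : ℝ := (rk σ c : ℝ) with hK
  unfold hh
  have e1 : 2 * C + K - C = C + K := by ring
  have e2 : 2 * (2 * C + K) - C = 3 * C + 2 * K := by ring
  have e3 : 2 + K / C = (2 * C + K) / C := by field_simp
  have e4 : 1 + K / C = (C + K) / C := by field_simp
  have e5 : 3 + 2 * (K / C) = (3 * C + 2 * K) / C := by field_simp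
  rw [e1, e2, e3, e4, e5]
  have h1 : 2 * C + K ≠ 0 := by positivity
  have h2 : C + K ≠ 0 := by positivity
  have h3 : 3 * C + 2 * K ≠ 0 := by positivity
  have h4 : C ≠ 0 := hcpos.ne'
  have h5 : K ≠ 0 := hkpos.ne'
  field_simp
  ring

theorem lo_div (A a b g : ℝ) {c : ℕ} (hc : Lo σ c)
    (hy : A * (1 + 1 / (1 + ((σ c : ℝ) / c - 1))) + g ≤ a / ((σ c : ℝ) / c - 1)
      + b * (1 / (1 - ((σ c : ℝ) / c - 1)) + 1 / (1 + 2 * ((σ c : ℝ) / c - 1)))) :
    A * (1 / (c : ℝ) + 1 / (σ c : ℝ)) + g / c ≤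
      a / ((σ c : ℝ) - c) + b * (1 / (2 * (c : ℝ) - σ c) + 1 / (2 * (σ c : ℝ) - c)) := by
  have hcpos : (0 : ℝ) < c := by exact_mod_cast hc.pos
  have hl1 : (c : ℝ) < σ c := by exact_mod_cast hc.1
  have hl2 : (σ c : ℝ) < 2 * c := by exact_mod_cast hc.2
  set C : ℝ := (c : ℝ) with hC
  set S : ℝ := (σ c : ℝ) with hS
  have hSpos : 0 < S := by linarith
  have h4 : C ≠ 0 := hcpos.ne'
  have h5 : S ≠ 0 := hSpos.ne'
  have h6 : S - C ≠ 0 := by
    have : 0 < S - C := by linarith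
    exact this.ne'
  have h7 : 2 * C - S ≠ 0 := by
    have : 0 < 2 * C - S := by linarith
    exact this.ne'
  have h8 : 2 * S - C ≠ 0 := by
    have : 0 < 2 * S - C := by linarith
    exact this.ne'
  have e1 : 1 + (S / C - 1) = S / C := by ring
  have e2 : S / C - 1 = (S - C) / C := by field_simp
  have e3 : 1 - (S / C - 1) = (2 * C - S) / C := by field_simp; ring
  have e4 : 1 + 2 * (S / C - 1) = (2 * S - C) / C := by field_simp; ring
  rw [e1, e3, e4, e2] at hy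
  have key : (A * (1 + 1 / (S / C)) + g) / C ≤ (a / ((S - C) / C)
      + b * (1 / ((2 * C - S) / C) + 1 / ((2 * S - C) / C))) / C :=
    div_le_div_of_nonneg_right hy hcpos.le
  have l1 : (A * (1 + 1 / (S / C)) + g) / C = A * (1 / C + 1 / S) + g / C := by
    field_simp
  have l2 : (a / ((S - C) / C) + b * (1 / ((2 * C - S) / C) + 1 / ((2 * S - C) / C))) / C
      = a / (S - C) + b * (1 / (2 * C - S) + 1 / (2 * S - C)) := by
    rw [one_div_div, one_div_div, div_div_eq_mul_div]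
    field_simp
  rw [l1, l2] at key
  exact key

theorem d12_y {c : ℕ} (hc : Lo σ c) :
    0 < (σ c : ℝ) / c - 1 ∧ (σ c : ℝ) / c - 1 < 1 := by
  have hcpos : (0 : ℝ) < c := by exact_mod_cast hc.pos
  have hl1 : (c : ℝ) < σ c := by exact_mod_cast hc.1
  have hl2 : (σ c : ℝ) < 2 * c := by exact_mod_cast hc.2
  constructor
  · have : 1 < (σ c : ℝ) / c := by rw [lt_div_iff₀ hcpos]; linarith
    linarith
  · have : (σ c : ℝ) / c < 2 := by rw [div_lt_iff₀ hcpos]; linarith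
    linarith

theorem d_sup (h : WS σ) (s B : ℝ) (hs1 : 0.2477 < s) (hs2 : s < 0.2478) (hB1 : 1.4777 < B)
    (hB2 : B < 1.4779) (hD : eqD s B) (hE : eqE s B) (ε : ℝ) (hε : 0 < ε) (N : ℕ) :
    ∃ c, N < c ∧ Up σ c ∧ s - ε < (rk σ c : ℝ) / c := by
  obtain ⟨a, b, ha, hb, hab, hhs, hcert⟩ := cert_ab s B hs1 hs2 hB1 hB2 hD hE
  by_contra hcon
  push Not at hcon
  have hs0 : 0 < s := by linarith
  set s' : ℝ := max (s - ε) 0 with hs'
  have hs'0 : 0 ≤ s' := le_max_right _ _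
  have hs's : s' < s := max_lt (by linarith) hs0
  have hml := ml h 1 a b (hh a b s') zero_le_one ha.le hb.le N ?_ ?_
  · have := (hh_incr a b s' s ha.le hb.le hs'0 hs's.le).1
    nlinarith [mul_pos (sub_pos.2 hs's) (show 0 < 1 - a - b by linarith)]
  · intro c hNc hc
    obtain ⟨y0, y1⟩ := d12_y (σ := σ) hc
    have hy := hcert _ y0 y1
    have := lo_div 1 a b 0 hc (by nlinarith [sq_nonneg ((σ c : ℝ) / c - 1 - (B - 1))])
    simpa using this
  · intro c hNc hc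
    rw [one_mul, up_id h a b hc]
    have hcpos : (0 : ℝ) < c := by exact_mod_cast hc.pos h
    have hkpos : (0 : ℝ) < (rk σ c : ℝ) := by exact_mod_cast rk_pos h hc
    have hκ : (rk σ c : ℝ) / c ≤ s' := (hcon c hNc hc).trans (le_max_left _ _)
    have hκ0 : 0 ≤ (rk σ c : ℝ) / c := by positivity
    have h2 := (hh_incr a b _ s' ha.le hb.le hκ0 hκ).1
    have h3 : hh a b ((rk σ c : ℝ) / c) ≤ hh a b s' := by
      nlinarith [mul_nonneg (sub_nonneg.2 hκ) (show 0 ≤ 1 - a - b by linarith)]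
    have h4 : hh a b ((rk σ c : ℝ) / c) / (rk σ c : ℝ) ≤ hh a b s' / (rk σ c : ℝ) :=
      div_le_div_of_nonneg_right h3 hkpos.le
    linarith

theorem d_beta (h : WS σ) (s B : ℝ) (hs1 : 0.2477 < s) (hs2 : s < 0.2478) (hB1 : 1.4777 < B)
    (hB2 : B < 1.4779) (hD : eqD s B) (hE : eqE s B)
    (hlim : ∀ ε : ℝ, 0 < ε → ∃ N : ℕ, ∀ c, N < c → Up σ c → (rk σ c : ℝ) / c < s + ε)
    (ε : ℝ) (hε : 0 < ε) (N : ℕ) :
    ∃ c, N < c ∧ Lo σ c ∧ |(σ c : ℝ) / c - B| < ε := by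
  obtain ⟨a, b, ha, hb, hab, hhs, hcert⟩ := cert_ab s B hs1 hs2 hB1 hB2 hD hE
  by_contra hcon
  push Not at hcon
  have hs0 : 0 < s := by linarith
  set t : ℝ := ε ^ 2 / 2 with ht
  have htpos : 0 < t := by positivity
  set η : ℝ := t / (10 * (1 + t)) with hη
  have hηpos : 0 < η := by positivity
  obtain ⟨N', hN'⟩ := hlim η hηpos
  have hηt : η * (10 * (1 + t)) = t := by
    rw [hη]; field_simp
  have hp0 : hh 0 0 s < 0.36 := by
    unfold hh
    have h1 : (1 : ℝ) / (2 + s) ≤ 0.445 := by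
      rw [div_le_iff₀ (by linarith)]; linarith
    have h2 : s * (1 / (2 + s)) ≤ 0.2478 * 0.445 :=
      mul_le_mul hs2.le h1 (by positivity) (by norm_num)
    simp only [zero_div, sub_zero]
    linarith
  have hml := ml h (1 + t) a b (1 - a - b + 3 / 2 * η + t * (hh 0 0 s + 3 / 2 * η))
    (by positivity) ha.le hb.le (max N N') ?_ ?_
  · nlinarith [mul_pos htpos hηpos, mul_pos htpos (sub_pos.2 hp0)]
  · intro c hNc hc
    have hNc1 : N < c := lt_of_le_of_lt (le_max_left _ _) hNc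
    obtain ⟨y0, y1⟩ := d12_y (σ := σ) hc
    have hy := hcert _ y0 y1
    have hd := hcon c hNc1 hc
    have hsq : ε ^ 2 ≤ ((σ c : ℝ) / c - 1 - (B - 1)) ^ 2 := by
      have e : (σ c : ℝ) / c - 1 - (B - 1) = (σ c : ℝ) / c - B := by ring
      rw [e, ← sq_abs ((σ c : ℝ) / c - B)]
      exact pow_le_pow_left₀ hε.le hd 2
    have h1 : 1 / (1 + ((σ c : ℝ) / c - 1)) ≤ 1 := by
      rw [div_le_one (by linarith)]; linarith
    have := lo_div (1 + t) a b 0 hc (by nlinarith)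
    simpa using this
  · intro c hNc hc
    have hNc2 : N' < c := lt_of_le_of_lt (le_max_right _ _) hNc
    have hu := up_id h a b hc
    have hu0 := up_id h 0 0 hc
    have hcpos : (0 : ℝ) < c := by exact_mod_cast hc.pos h
    have hkpos : (0 : ℝ) < (rk σ c : ℝ) := by exact_mod_cast rk_pos h hc
    have hκ : (rk σ c : ℝ) / c ≤ s + η := (hN' c hNc2 hc).le
    have hκ0 : 0 ≤ (rk σ c : ℝ) / c := by positivity
    have g1 := (hh_incr a b _ (s + η) ha.le hb.le hκ0 hκ).1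
    have g2 := (hh_incr a b s (s + η) ha.le hb.le hs0.le (by linarith)).2
    have g3 := (hh_incr 0 0 _ (s + η) le_rfl le_rfl hκ0 hκ).1
    have g4 := (hh_incr 0 0 s (s + η) le_rfl le_rfl hs0.le (by linarith)).2
    have g5 : hh a b ((rk σ c : ℝ) / c) ≤ 1 - a - b + 3 / 2 * η := by
      nlinarith [mul_nonneg (sub_nonneg.2 hκ) (show 0 ≤ 1 - a - b by linarith)]
    have g6 : hh 0 0 ((rk σ c : ℝ) / c) ≤ hh 0 0 s + 3 / 2 * η := by
      nlinarith [sub_nonneg.2 hκ]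
    have g7 : (hh a b ((rk σ c : ℝ) / c) + t * hh 0 0 ((rk σ c : ℝ) / c)) / (rk σ c : ℝ) ≤
        (1 - a - b + 3 / 2 * η + t * (hh 0 0 s + 3 / 2 * η)) / (rk σ c : ℝ) :=
      div_le_div_of_nonneg_right (by nlinarith [mul_le_mul_of_nonneg_left g6 htpos.le]) hkpos.le
    rw [add_div, mul_div_assoc] at g7
    have e0 : (0 : ℝ) / ((σ c : ℝ) - c) + 0 / (2 * (σ c : ℝ) - c) = 0 := by simp
    rw [e0, zero_add] at hu0
    have e1 : (1 + t) * (1 / (c : ℝ) + 1 / (σ c : ℝ)) = (1 / (c : ℝ) + 1 / (σ c : ℝ))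
      + t * (1 / (c : ℝ) + 1 / (σ c : ℝ)) := by ring
    rw [e1]
    nth_rewrite 2 [hu0]
    rw [hu]
    linarith

end Wyk
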