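import Pool.Agent.Wyk.D12

/-!
# Rigidity in logarithmic density (module DDens)

Take `a, b` from `cert_ab`, `q = 1 - a - b > 0`, `δ = min (ε²) (q ε) > 0`,
`G c = δ/c` if `c` is bad (lower with `|σ c/c - B| ≥ ε`, or upper with `rk σ c/c ≤ s - ε`), and `G c = 0`
otherwise; `e0 = δ`. Put `ε' = η δ / 2` and let `N` be such that `rk σ c/c < s + ε'` for the upper
`c > N`. Apply `ml_win` with `A = 1`, `ν = q + (3/2) ε'`:
* `hlo`: `cert_ab` with `y = σ c/c - 1 ∈ (0,1)`, `(y - (B-1))² ≥ ε² ≥ δ` for bad `c`; use `lo_div` with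
  `A = 1` and `g = δ` (bad) resp. `g = 0`.
* `hup`: by `up_id` the claim is `hh a b κ / k + G c ≤ ν / k`. If `c` is not bad:
  `hh a b κ ≤ hh a b (s + ε') ≤ hh a b s + (3/2) ε' = ν` (`hh_incr`, `0 < κ ≤ s + ε'`). If `c` is bad,
  `κ ≤ s - ε`: `hh a b κ ≤ hh a b s - q (s - κ) ≤ q - q ε ≤ q - δ`, and `G c = δ/c ≤ δ/k` as `k ≤ c`.
Result: `log(T/T1) + δ ∑_{bad} 1/c ≤ (a + b + ν) log(T/T1) + C = (1 + (3/2) ε') log(T/T1) + C`, so
`∑_{bad} 1/c ≤ ((3/2) ε'/δ) log(T/T1) + C/δ ≤ η log(T/T1) + C/δ`.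
(`∑_{cols} G` splits by `sum_cols`; `Finset.sum_filter`.)
-/

open Finset

namespace Wyk

variable {σ : ℕ → ℕ}

open Classical in
theorem d_dens (h : WS σ) (s B : ℝ) (hs1 : 0.2477 < s) (hs2 : s < 0.2478) (hB1 : 1.4777 < B)
    (hB2 : B < 1.4779) (hD : eqD s B) (hE : eqE s B)
    (hlim : ∀ ε : ℝ, 0 < ε → ∃ N : ℕ, ∀ c, N < c → Up σ c → (rk σ c : ℝ) / c < s + ε)
    (ε η : ℝ) (hε : 0 < ε) (hη : 0 < η) :
    ∃ C : ℝ, ∀ T1 T : ℕ, 0 < T1 → T1 ≤ T →
      ∑ c ∈ (los σ T1 T).filter (fun c => ε ≤ |(σ c : ℝ) / c - B|), 1 / (c : ℝ)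
        + ∑ c ∈ (ups σ T1 T).filter (fun c => (rk σ c : ℝ) / c ≤ s - ε), 1 / (c : ℝ)
      ≤ η * Real.log ((T : ℝ) / T1) + C := by
  obtain ⟨a, b, ha, hb, hab, hhs, hcert⟩ := cert_ab s B hs1 hs2 hB1 hB2 hD hE
  have hq : 0 < 1 - a - b := by linarith
  obtain ⟨δ, hδd⟩ : ∃ δ, δ = min (ε ^ 2) ((1 - a - b) * ε) := ⟨_, rfl⟩
  have hδ : 0 < δ := by rw [hδd]; exact lt_min (by positivity) (by positivity)
  have hδ1 : δ ≤ ε ^ 2 := by rw [hδd]; exact min_le_left _ _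
  have hδ2 : δ ≤ (1 - a - b) * ε := by rw [hδd]; exact min_le_right _ _
  have he' : 0 < η * δ / 2 := by positivity
  obtain ⟨N, hN⟩ := hlim (η * δ / 2) he'
  let bad : ℕ → Prop := fun c => (Lo σ c ∧ ε ≤ |(σ c : ℝ) / c - B|) ∨
    (Up σ c ∧ (rk σ c : ℝ) / c ≤ s - ε)
  let G : ℕ → ℝ := fun c => if bad c then δ / c else 0
  have hG0 : ∀ c, 0 ≤ G c := by
    intro c
    simp only [G]
    split_ifs
    · positivity
    · exact le_rfl
  have hG : ∀ c, G c ≤ δ / (c : ℝ) := by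
    intro c
    simp only [G]
    split_ifs
    · exact le_rfl
    · positivity
  have hlo : ∀ c, N < c → Lo σ c → 1 * (1 / (c : ℝ) + 1 / (σ c : ℝ)) + G c ≤
      a / ((σ c : ℝ) - c) + b * (1 / (2 * (c : ℝ) - σ c) + 1 / (2 * (σ c : ℝ) - c)) := by
    intro c _ hc
    have hc0 : (0 : ℝ) < c := by exact_mod_cast hc.pos
    have h1 : (c : ℝ) < σ c := by exact_mod_cast hc.1
    have h2 : (σ c : ℝ) < 2 * c := by exact_mod_cast hc.2
    have hy0 : 0 < (σ c : ℝ) / c - 1 := by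
      rw [sub_pos, lt_div_iff₀ hc0]; linarith
    have hy1 : (σ c : ℝ) / c - 1 < 1 := by
      rw [sub_lt_iff_lt_add, div_lt_iff₀ hc0]; linarith
    have hce := hcert _ hy0 hy1
    have hGc : G c = (if ε ≤ |(σ c : ℝ) / c - B| then δ else 0) / c := by
      have hnu : ¬ Up σ c := by unfold Up; have := hc.2; omega
      simp only [G, bad]
      by_cases hb' : ε ≤ |(σ c : ℝ) / c - B|
      · rw [if_pos (Or.inl ⟨hc, hb'⟩), if_pos hb']
      · rw [if_neg, if_neg hb', zero_div]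
        rintro (⟨_, h3⟩ | ⟨h3, _⟩)
        · exact hb' h3
        · exact hnu h3
    rw [hGc]
    refine lo_div 1 a b _ hc ?_
    refine le_trans ?_ hce
    have hsq : (if ε ≤ |(σ c : ℝ) / c - B| then δ else 0) ≤
        ((σ c : ℝ) / c - 1 - (B - 1)) ^ 2 := by
      split_ifs with hb'
      · have : (σ c : ℝ) / c - 1 - (B - 1) = (σ c : ℝ) / c - B := by ring
        rw [this, ← sq_abs]
        refine hδ1.trans ?_
        exact pow_le_pow_left₀ hε.le hb' 2
      · positivity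
    linarith
  have hup : ∀ c, N < c → Up σ c → 1 * (1 / (c : ℝ) + 1 / (σ c : ℝ)) + G c ≤
      a / ((σ c : ℝ) - c) + b / (2 * (σ c : ℝ) - c)
        + (1 - a - b + 3 / 2 * (η * δ / 2)) / (rk σ c : ℝ) := by
    intro c hNc hc
    have hk0 : (0 : ℝ) < rk σ c := by exact_mod_cast rk_pos h hc
    have hkc : (rk σ c : ℝ) ≤ c := by exact_mod_cast rk_le σ c
    have hc0 : (0 : ℝ) < c := lt_of_lt_of_le hk0 hkc
    have hκ0 : 0 ≤ (rk σ c : ℝ) / c := by positivity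
    have hnl : ¬ Lo σ c := by unfold Lo; unfold Up at hc; omega
    rw [one_mul, up_id h a b hc]
    have key : hh a b ((rk σ c : ℝ) / c) / (rk σ c : ℝ) + G c ≤
        (1 - a - b + 3 / 2 * (η * δ / 2)) / (rk σ c : ℝ) := by
      by_cases hb' : (rk σ c : ℝ) / c ≤ s - ε
      · have hGc : G c = δ / c := by
          simp only [G, bad]
          rw [if_pos (Or.inr ⟨hc, hb'⟩)]
        have h3 := (hh_incr a b ((rk σ c : ℝ) / c) s ha.le hb.le hκ0 (by linarith)).1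
        have h4 : (1 - a - b) * ε ≤ (1 - a - b) * (s - (rk σ c : ℝ) / c) :=
          mul_le_mul_of_nonneg_left (by linarith) hq.le
        have h5 : hh a b ((rk σ c : ℝ) / c) ≤ 1 - a - b - δ := by linarith
        have h6 : δ / c ≤ δ / (rk σ c : ℝ) := div_le_div_of_nonneg_left hδ.le hk0 hkc
        have h7 : hh a b ((rk σ c : ℝ) / c) / (rk σ c : ℝ) ≤ (1 - a - b - δ) / (rk σ c : ℝ) :=
          div_le_div_of_nonneg_right h5 hk0.le
        have h8 : (1 - a - b) / (rk σ c : ℝ) ≤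
            (1 - a - b + 3 / 2 * (η * δ / 2)) / (rk σ c : ℝ) :=
          div_le_div_of_nonneg_right (by linarith) hk0.le
        rw [sub_div] at h7
        rw [hGc]
        linarith
      · have hGc : G c = 0 := by
          simp only [G, bad]
          rw [if_neg]
          rintro (⟨h3, _⟩ | ⟨_, h3⟩)
          · exact hnl h3
          · exact hb' h3
        have h3 := hN c hNc hc
        have h4 := (hh_incr a b ((rk σ c : ℝ) / c) (s + η * δ / 2) ha.le hb.le hκ0 h3.le).1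
        have h4' : 0 ≤ (1 - a - b) * (s + η * δ / 2 - (rk σ c : ℝ) / c) :=
          mul_nonneg hq.le (by linarith)
        have h5 := (hh_incr a b s (s + η * δ / 2) ha.le hb.le (by linarith) (by linarith)).2
        rw [hGc, add_zero]
        refine div_le_div_of_nonneg_right ?_ hk0.le
        linarith
    linarith
  obtain ⟨C, hC⟩ := ml_win h 1 a b (1 - a - b + 3 / 2 * (η * δ / 2)) δ zero_le_one ha.le hb.le
    hδ.le G hG0 hG N hlo hup
  refine ⟨C / δ, fun T1 T hT1 hT => ?_⟩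
  have h1 := hC T1 T hT1 hT
  rw [sum_cols h] at h1
  have hlosum : ∑ c ∈ los σ T1 T, G c =
      δ * ∑ c ∈ (los σ T1 T).filter (fun c => ε ≤ |(σ c : ℝ) / c - B|), 1 / (c : ℝ) := by
    rw [Finset.sum_filter, Finset.mul_sum]
    refine Finset.sum_congr rfl fun c hc => ?_
    have hc' := (mem_los.1 hc).2
    have hcl : Lo σ c := hc'
    have hnu : ¬ Up σ c := by unfold Up; omega
    simp only [G, bad]
    by_cases hb' : ε ≤ |(σ c : ℝ) / c - B|
    · rw [if_pos (Or.inl ⟨hcl, hb'⟩), if_pos hb']; ring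
    · rw [if_neg, if_neg hb', mul_zero]
      rintro (⟨_, h3⟩ | ⟨h3, _⟩)
      · exact hb' h3
      · exact hnu h3
  have hupsum : ∑ c ∈ ups σ T1 T, G c =
      δ * ∑ c ∈ (ups σ T1 T).filter (fun c => (rk σ c : ℝ) / c ≤ s - ε), 1 / (c : ℝ) := by
    rw [Finset.sum_filter, Finset.mul_sum]
    refine Finset.sum_congr rfl fun c hc => ?_
    have hc' := (mem_ups.1 hc).2
    have hcu : Up σ c := hc'
    have hnl : ¬ Lo σ c := by unfold Lo; omega
    simp only [G, bad]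
    by_cases hb' : (rk σ c : ℝ) / c ≤ s - ε
    · rw [if_pos (Or.inr ⟨hcu, hb'⟩), if_pos hb']; ring
    · rw [if_neg, if_neg hb', mul_zero]
      rintro (⟨h3, _⟩ | ⟨_, h3⟩)
      · exact hnl h3
      · exact hb' h3
  rw [hlosum, hupsum, ← mul_add] at h1
  have hT1' : (0 : ℝ) < T1 := by exact_mod_cast hT1
  have hlog : 0 ≤ Real.log ((T : ℝ) / T1) := by
    refine Real.log_nonneg ?_
    rw [le_div_iff₀ hT1', one_mul]
    exact_mod_cast hT
  set L := Real.log ((T : ℝ) / T1) with hL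
  set S := ∑ c ∈ (los σ T1 T).filter (fun c => ε ≤ |(σ c : ℝ) / c - B|), 1 / (c : ℝ)
        + ∑ c ∈ (ups σ T1 T).filter (fun c => (rk σ c : ℝ) / c ≤ s - ε), 1 / (c : ℝ) with hS
  have h2 : δ * S ≤ 3 / 2 * (η * δ / 2) * L + C := by linarith
  have h3 : S ≤ (3 / 2 * (η * δ / 2) * L + C) / δ := by
    rw [le_div_iff₀ hδ]; linarith
  have h4 : (3 / 2 * (η * δ / 2) * L + C) / δ = 3 / 4 * η * L + C / δ := by
    field_simp
    ring
  rw [h4] at h3
  have h5 : 3 / 4 * η * L ≤ η * L := by nlinarith [mul_nonneg hη.le hlog]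
  linarith

end Wyk
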