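import Mathlib

/-!
# Wythoff Nim with knight multiples: definitions

Positions are pairs of natural numbers.
-/

open Finset

namespace Wyk

/-- `Move p q`: there is a move from position `p` to position `q`. The five move types are
`(0,x), (x,0), (x,x), (x,2x), (2x,x)` with an integer `x ≥ 1`. -/
def Move (p q : ℕ × ℕ) : Prop :=
  ∃ x : ℕ, 0 < x ∧
    ((p.1 = q.1 ∧ p.2 = q.2 + x) ∨
     (p.1 = q.1 + x ∧ p.2 = q.2) ∨
     (p.1 = q.1 + x ∧ p.2 = q.2 + x) ∨
     (p.1 = q.1 + x ∧ p.2 = q.2 + 2 * x) ∨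
     (p.1 = q.1 + 2 * x ∧ p.2 = q.2 + x))

theorem move_lt {p q : ℕ × ℕ} (h : Move p q) : q.1 + q.2 < p.1 + p.2 := by
  obtain ⟨x, hx, h | h | h | h | h⟩ := h <;> omega

theorem move_wf : WellFounded (fun q p : ℕ × ℕ => Move p q) :=
  Subrelation.wf (r := fun a b : ℕ × ℕ => a.1 + a.2 < b.1 + b.2) (fun h => move_lt h)
    (measure (fun p : ℕ × ℕ => p.1 + p.2)).wf

/-- The P-positions, by recursion along moves: a position is a P-position if and only if no move
leads to a P-position (see `isP_iff`). -/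
noncomputable def IsP : ℕ × ℕ → Prop :=
  move_wf.fix (fun p ih => ∀ q (h : Move p q), ¬ ih q h)

theorem isP_iff (p : ℕ × ℕ) : IsP p ↔ ∀ q, Move p q → ¬ IsP q := by
  unfold IsP
  rw [WellFounded.fix_eq]

/-- The limit points (in `ℝ`) of `b / a` over the P-positions `(a, b)` with `0 < a < b`:
every neighbourhood of `x` contains the ratio of infinitely many of these positions. -/
def L : Set ℝ :=
  {x | ∀ ε : ℝ, 0 < ε →
    {p : ℕ × ℕ | IsP p ∧ 0 < p.1 ∧ p.1 < p.2 ∧ |(p.2 : ℝ) / p.1 - x| < ε}.Infinite}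

/-- The combinatorial properties of the map `σ` with `(a, σ a)` the P-positions which are used
in the proof. -/
structure WS (σ : ℕ → ℕ) : Prop where
  inv : ∀ n, σ (σ n) = n
  zero : σ 0 = 0
  ne : ∀ n, 0 < n → σ n ≠ n
  ne2 : ∀ n, 0 < n → σ n ≠ 2 * n
  dinj : ∀ m n : ℕ, (σ m : ℤ) - m = σ n - n → m = n
  einj : ∀ m n : ℕ, 2 * (m : ℤ) - σ m = 2 * n - σ n → m = n
  block : ∀ c y : ℕ, c < y → y < σ c → ∃ c', c' < c ∧
    (σ c' = y ∨ (σ c' : ℤ) - c' = y - c ∨ 2 * (c' : ℤ) - σ c' = 2 * c - y ∨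
      2 * (σ c' : ℤ) - c' = 2 * y - c)

/-- `c` is the smaller element of its pair `{c, σ c}`. -/
def Col (σ : ℕ → ℕ) (c : ℕ) : Prop := c < σ c

/-- upper columns -/
def Up (σ : ℕ → ℕ) (c : ℕ) : Prop := 2 * c < σ c

/-- lower columns -/
def Lo (σ : ℕ → ℕ) (c : ℕ) : Prop := c < σ c ∧ σ c < 2 * c

instance (σ : ℕ → ℕ) : DecidablePred (Col σ) := fun c => inferInstanceAs (Decidable (c < σ c))
instance (σ : ℕ → ℕ) : DecidablePred (Up σ) := fun c => inferInstanceAs (Decidable (2 * c < σ c))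
instance (σ : ℕ → ℕ) : DecidablePred (Lo σ) :=
  fun c => inferInstanceAs (Decidable (c < σ c ∧ σ c < 2 * c))

/-- the columns in the window `(a, b]` -/
def cols (σ : ℕ → ℕ) (a b : ℕ) : Finset ℕ := (Ioc a b).filter (Col σ)

/-- the upper columns in the window `(a, b]` -/
def ups (σ : ℕ → ℕ) (a b : ℕ) : Finset ℕ := (Ioc a b).filter (Up σ)

/-- the lower columns in the window `(a, b]` -/
def los (σ : ℕ → ℕ) (a b : ℕ) : Finset ℕ := (Ioc a b).filter (Lo σ)

/-- the number of upper columns `≤ c`; for an upper column this is its rank -/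
def rk (σ : ℕ → ℕ) (c : ℕ) : ℕ := (ups σ 0 c).card

/-- windowed harmonic sum -/
noncomputable def Hs (a b : ℕ) : ℝ := ∑ n ∈ Ioc a b, 1 / (n : ℝ)

/-- cluster points of `f c` over the infinitely many `c` with `P c` -/
def Clus (P : ℕ → Prop) (f : ℕ → ℝ) : Set ℝ :=
  {x | ∀ ε : ℝ, 0 < ε → ∀ N : ℕ, ∃ c, N < c ∧ P c ∧ |f c - x| < ε}

variable {σ : ℕ → ℕ}

theorem mem_cols {a b c : ℕ} : c ∈ cols σ a b ↔ (a < c ∧ c ≤ b) ∧ c < σ c := by
  simp [cols, Col]

theorem mem_ups {a b c : ℕ} : c ∈ ups σ a b ↔ (a < c ∧ c ≤ b) ∧ 2 * c < σ c := by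
  simp [ups, Up]

theorem mem_los {a b c : ℕ} : c ∈ los σ a b ↔ (a < c ∧ c ≤ b) ∧ (c < σ c ∧ σ c < 2 * c) := by
  simp [los, Lo]

theorem Up.col {c : ℕ} (h : Up σ c) : Col σ c := by
  unfold Up at h; unfold Col; omega

theorem Lo.col {c : ℕ} (h : Lo σ c) : Col σ c := h.1

theorem col_cases (h : WS σ) {c : ℕ} (hc : Col σ c) : Lo σ c ∨ Up σ c := by
  unfold Col at hc
  unfold Lo Up
  rcases Nat.eq_zero_or_pos c with h0 | h0
  · subst h0; rw [h.zero] at hc; omega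
  · have := h.ne2 c h0; omega

theorem Up.pos (h : WS σ) {c : ℕ} (hc : Up σ c) : 0 < c := by
  rcases Nat.eq_zero_or_pos c with h0 | h0
  · subst h0; unfold Up at hc; rw [h.zero] at hc; omega
  · exact h0

theorem Lo.pos {c : ℕ} (hc : Lo σ c) : 0 < c := by
  unfold Lo at hc; omega

theorem sum_cols (h : WS σ) (a b : ℕ) (f : ℕ → ℝ) :
    ∑ c ∈ cols σ a b, f c = ∑ c ∈ los σ a b, f c + ∑ c ∈ ups σ a b, f c := by
  have hd : Disjoint (los σ a b) (ups σ a b) := by
    rw [Finset.disjoint_left]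
    intro c h1 h2
    rw [mem_los] at h1; rw [mem_ups] at h2; omega
  have hu : cols σ a b = los σ a b ∪ ups σ a b := by
    ext c
    rw [Finset.mem_union, mem_cols, mem_los, mem_ups]
    constructor
    · rintro ⟨h1, h2⟩
      have := col_cases h (c := c) h2
      unfold Lo Up at this; tauto
    · rintro (⟨h1, h2, h3⟩ | ⟨h1, h2⟩)
      · exact ⟨h1, h2⟩
      · exact ⟨h1, by omega⟩
  rw [hu, Finset.sum_union hd]

end Wyk
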