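import Mathlib

/-!
# Numerical consequence (module ENum)

Lower bound: suppose `β ≤ 1.46`. For `0 ≤ s ≤ 0.27`, `(1+s)(2-2s-s²) = 2 - 3s² - s³` and
`(2-3s²-s³)/(2+s) ≥ 0.776` (it is decreasing in `s`; at `s = 0.27` it is `0.7760...`: in polynomial
form `2 - 3s² - s³ - 0.776 (2+s) ≥ 0`), while `β - 1/β ≤ 1.46 - 1/1.46 < 0.7751`. Contradiction with
`hD` divided by `β (2+s)`.
Upper bound: suppose `β ≥ 1.51`. `(3+2s)(2-2s-s²) = 6 - 2s - 7s² - 2s³` and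
`(6-2s-7s²-2s³)/((3+s)(2+s)) ≥ 0.661` (at `s = 0.27`: `0.66151`; decreasing in `s`), while
`(2-β)(2β-1)/β = 5 - 2(β + 1/β) ≤ 5 - 2(1.51 + 1/1.51) < 0.6556` for `β ≥ 1.51` (`β + 1/β` is
increasing). Contradiction with `hE` divided by `β(2+s)(3+s)`.
-/

namespace Wyk

theorem e_num (s β : ℝ) (hs : 0 ≤ s) (hs2 : s ≤ 27 / 100) (hβ1 : 1 ≤ β) (hβ2 : β < 2)
    (hD : β * (1 + s) * (2 - 2 * s - s ^ 2) ≤ (2 + s) * (β ^ 2 - 1))
    (hE : β * (3 + 2 * s) * (2 - 2 * s - s ^ 2) ≤ (2 + s) * (3 + s) * (2 - β) * (2 * β - 1)) :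
    1.46 < β ∧ β < 1.51 := by
  constructor
  · by_contra hcon
    have hb : β ≤ 1.46 := not_lt.mp hcon
    have h1 : 0.776 * (2 + s) ≤ (1 + s) * (2 - 2 * s - s ^ 2) := by
      nlinarith [mul_nonneg hs hs, mul_nonneg (mul_nonneg hs hs) hs,
        mul_nonneg hs (sub_nonneg.mpr hs2), mul_nonneg (mul_nonneg hs hs) (sub_nonneg.mpr hs2)]
    have h2 : β ^ 2 - 1 < 0.776 * β := by
      nlinarith [mul_nonneg (sub_nonneg.mpr hβ1) (sub_nonneg.mpr hb)]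
    have h3 : β * (0.776 * (2 + s)) ≤ β * ((1 + s) * (2 - 2 * s - s ^ 2)) :=
      mul_le_mul_of_nonneg_left h1 (by linarith)
    have h4 : (2 + s) * (β ^ 2 - 1) < (2 + s) * (0.776 * β) :=
      mul_lt_mul_of_pos_left h2 (by linarith)
    nlinarith
  · by_contra hcon
    have hb : 1.51 ≤ β := not_lt.mp hcon
    have h1 : 0.661 * ((2 + s) * (3 + s)) ≤ (3 + 2 * s) * (2 - 2 * s - s ^ 2) := by
      nlinarith [mul_nonneg hs hs, mul_nonneg (mul_nonneg hs hs) hs,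
        mul_nonneg hs (sub_nonneg.mpr hs2), mul_nonneg (mul_nonneg hs hs) (sub_nonneg.mpr hs2)]
    have h2 : (2 - β) * (2 * β - 1) < 0.661 * β := by
      nlinarith [mul_nonneg (sub_nonneg.mpr hb) (sub_nonneg.mpr hb)]
    have h3 : β * (0.661 * ((2 + s) * (3 + s))) ≤ β * ((3 + 2 * s) * (2 - 2 * s - s ^ 2)) :=
      mul_le_mul_of_nonneg_left h1 (by linarith)
    have h5 : 0 < (2 + s) * (3 + s) := by positivity
    have h4 : ((2 + s) * (3 + s)) * ((2 - β) * (2 * β - 1)) < ((2 + s) * (3 + s)) * (0.661 * β) :=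
      mul_lt_mul_of_pos_left h2 h5
    nlinarith

end Wyk
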