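import Pool.Agent.Wyk.BUp
import Pool.Agent.Wyk.ClusM

/-!
# The limit points of the upper beam form an interval (module LInt)

Let `κ c = rk σ c / c` and `K = Clus (Up σ) κ`.

`K ⊆ [2^{-100}, 1]`: for `c ≥ 2^100`, `κ c > 2^{-100}` by `up_density`, and `κ c ≤ 1` by `rk_le`
(`clus_bounds`). `K` is nonempty (`inf_up`, `clus_bw`) and closed (`clus_closed`), so compact; put
`s1 = sInf K ∈ K`, `s2 = sSup K ∈ K`. Claim: `K = Icc s1 s2`. Let `s1 < y < s2`, `ε > 0`, `N` given; let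
`N' ≥ N`, `N' ≥ 1`, `1/N' < ε`. As `s1 ∈ K` there is an upper `c1 > N'` with `κ c1 < y`; as `s2 ∈ K` there
is an upper `c2 > c1` with `κ c2 > y`. Let `n` be the least number `> c1` with `rk σ n / n ≥ y`
(`Nat.find`). Then `n - 1 ≥ c1` and `rk σ (n-1) / (n-1) < y` (minimality, or `n - 1 = c1`). By
`rk_succ`: if `n` were not upper then `rk σ n = rk σ (n-1)` and `rk σ n / n ≤ rk σ (n-1)/(n-1) < y`,
contradiction; so `n` is upper and
`y ≤ rk σ n / n = (rk σ (n-1) + 1)/n ≤ rk σ (n-1)/(n-1) + 1/n < y + 1/n < y + ε`. So `y ∈ K`.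
`s1 ≤ √3 - 1`: by `up_slope_le` and `clus_bw` (for `l = 0`, `u = √3 - 1 + ε`) there is a point of `K` in
`[0, √3 - 1 + ε]`, for every `ε > 0`.
-/

open Finset

namespace Wyk

variable {σ : ℕ → ℕ}

private theorem lint_bd (h : WS σ) (c : ℕ) (hc : 2 ^ 100 < c) :
    (1 : ℝ) / 2 ^ 100 ≤ (rk σ c : ℝ) / c ∧ (rk σ c : ℝ) / c ≤ 1 := by
  have hc0 : (0 : ℝ) < c := by
    have : 0 < c := lt_of_le_of_lt (Nat.zero_le _) hc
    exact_mod_cast this
  constructor
  · rw [div_le_div_iff₀ (by positivity) hc0]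
    have h1 := up_density h c hc.le
    have h2 : (c : ℝ) < 2 ^ 100 * (rk σ c : ℝ) := by exact_mod_cast h1
    nlinarith
  · rw [div_le_one hc0]
    exact_mod_cast rk_le σ c

/-- the crossing step -/
private theorem lint_cross (c1 c2 : ℕ) (h12 : c1 < c2) (hc1 : 0 < c1) (y : ℝ)
    (h1 : (rk σ c1 : ℝ) / c1 < y) (h2 : y < (rk σ c2 : ℝ) / c2) :
    ∃ n, c1 < n ∧ Up σ n ∧ y ≤ (rk σ n : ℝ) / n ∧ (rk σ n : ℝ) / n < y + 1 / (n : ℝ) := by
  classical
  have hex : ∃ n, c1 < n ∧ y ≤ (rk σ n : ℝ) / n := ⟨c2, h12, h2.le⟩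
  obtain ⟨hn1, hn2⟩ := Nat.find_spec hex
  have hmin := fun m => @Nat.find_min _ _ hex m
  set n := Nat.find hex with hn
  obtain ⟨m, hm⟩ : ∃ m, n = m + 1 := ⟨n - 1, by omega⟩
  have hmc : c1 ≤ m := by omega
  have hm0 : (0 : ℝ) < m := by
    have : 0 < m := by omega
    exact_mod_cast this
  have hm1 : (rk σ m : ℝ) / m < y := by
    rcases hmc.eq_or_lt with he | hl
    · rw [← he]; exact h1
    · have := hmin m (by omega)
      push Not at this
      exact this hl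
  have hy0 : (rk σ m : ℝ) < y * m := (div_lt_iff₀ hm0).mp hm1
  have hn0 : (0 : ℝ) < n := by
    have : 0 < n := by omega
    exact_mod_cast this
  have hcast : (n : ℝ) = m + 1 := by rw [hm]; push_cast; ring
  have hypos : 0 < y := by
    have h0 : (0 : ℝ) ≤ (rk σ m : ℝ) := Nat.cast_nonneg _
    by_contra hcon
    push Not at hcon
    nlinarith
  have hyn : y * n ≤ (rk σ n : ℝ) := (le_div_iff₀ hn0).mp hn2
  have hup : Up σ n := by
    by_contra hnu
    have hs := rk_succ σ m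
    rw [← hm, if_neg hnu] at hs
    rw [hs, hcast] at hyn
    nlinarith
  refine ⟨n, hn1, hup, hn2, ?_⟩
  have hs := rk_succ σ m
  rw [← hm, if_pos hup] at hs
  rw [div_lt_iff₀ hn0]
  have e1 : (y + 1 / (n : ℝ)) * n = y * n + 1 := by
    field_simp
  rw [e1, hs]
  push_cast
  rw [hcast]
  nlinarith

theorem up_interval (h : WS σ) : ∃ s1 s2 : ℝ, 1 / 2 ^ 100 ≤ s1 ∧ s1 ≤ Real.sqrt 3 - 1 ∧
    s1 ≤ s2 ∧ s2 ≤ 1 ∧ Clus (Up σ) (fun c => (rk σ c : ℝ) / c) = Set.Icc s1 s2 := by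
  set f : ℕ → ℝ := fun c => (rk σ c : ℝ) / c with hf
  set K := Clus (Up σ) f with hK
  have hb : ∀ x ∈ K, (1 : ℝ) / 2 ^ 100 ≤ x ∧ x ≤ 1 := fun x hx =>
    clus_bounds (Up σ) f (1 / 2 ^ 100) 1 (2 ^ 100) (fun c hc _ => lint_bd h c hc) x hx
  have hne : K.Nonempty := by
    obtain ⟨x, hx, _⟩ := clus_bw (Up σ) f (1 / 2 ^ 100) 1 (fun N => by
      obtain ⟨c, hc, hu⟩ := inf_up h (max N (2 ^ 100))
      have hc1 : N < c := lt_of_le_of_lt (le_max_left _ _) hc
      have hc2 : 2 ^ 100 < c := lt_of_le_of_lt (le_max_right _ _) hc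
      exact ⟨c, hc1, hu, (lint_bd h c hc2).1, (lint_bd h c hc2).2⟩)
    exact ⟨x, hx⟩
  have hcl : IsClosed K := clus_closed _ _
  have hbb : BddBelow K := ⟨1 / 2 ^ 100, fun x hx => (hb x hx).1⟩
  have hba : BddAbove K := ⟨1, fun x hx => (hb x hx).2⟩
  have hs1 : sInf K ∈ K := hcl.csInf_mem hne hbb
  have hs2 : sSup K ∈ K := hcl.csSup_mem hne hba
  refine ⟨sInf K, sSup K, (hb _ hs1).1, ?_, csInf_le hbb hs2, (hb _ hs2).2, ?_⟩
  · refine le_of_forall_pos_le_add fun ε hε => ?_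
    obtain ⟨x, hx, _, hx2⟩ := clus_bw (Up σ) f 0 (Real.sqrt 3 - 1 + ε) (fun N => by
      obtain ⟨c, hc, hu, hl⟩ := up_slope_le h ε hε N
      exact ⟨c, hc, hu, by simp only [hf]; positivity, hl.le⟩)
    exact (csInf_le hbb hx).trans hx2
  · refine Set.Subset.antisymm (fun x hx => ⟨csInf_le hbb hx, le_csSup hba hx⟩) ?_
    rintro y ⟨hy1, hy2⟩
    rcases hy1.eq_or_lt with he1 | hl1
    · rw [← he1]; exact hs1
    rcases hy2.eq_or_lt with he2 | hl2
    · rw [he2]; exact hs2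
    intro ε hε N
    obtain ⟨M, hM⟩ := exists_nat_gt (1 / ε)
    obtain ⟨c1, hc1, hu1, ha1⟩ := hs1 (y - sInf K) (by linarith) (max N M)
    have hc1N : N < c1 := lt_of_le_of_lt (le_max_left _ _) hc1
    have hc1M : M < c1 := lt_of_le_of_lt (le_max_right _ _) hc1
    obtain ⟨c2, hc2, hu2, ha2⟩ := hs2 (sSup K - y) (by linarith) c1
    have hb1 : f c1 < y := by
      have := (abs_lt.mp ha1).2
      linarith
    have hb2 : y < f c2 := by
      have := (abs_lt.mp ha2).1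
      linarith
    obtain ⟨n, hn1, hn2, hn3, hn4⟩ := lint_cross (σ := σ) c1 c2 hc2 (by omega) y hb1 hb2
    refine ⟨n, by omega, hn2, ?_⟩
    have hMn : (M : ℝ) < n := by
      have : M < n := by omega
      exact_mod_cast this
    have hn0 : (0 : ℝ) < n := lt_of_le_of_lt (Nat.cast_nonneg M) hMn
    have h1n : 1 / (n : ℝ) < ε := by
      rw [div_lt_iff₀ hn0]
      have : 1 / ε < n := hM.trans hMn
      rw [div_lt_iff₀ hε] at this
      linarith
    show |(rk σ n : ℝ) / n - y| < ε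
    rw [abs_lt]
    constructor <;> linarith

end Wyk
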