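import Pool.Agent.Wyk.ML
import Pool.Agent.Wyk.D12

/-!
# Two beams: inequalities for the slopes (module MLLim)

`ml_lim`. Let `x = β - 1 ∈ [0,1)`. By `h1` and continuity of the polynomial
`P(y) = a(1-y)(1+2y)(1+y) + b y(1+y)(2+y) - y(2+y)(1-y)(1+2y)` there is `η > 0` with `P(y) > 0` for
`|y - x| < η`; if moreover `0 < y < 1`, dividing by `y(1-y)(1+2y)(1+y) > 0` gives
`1 + 1/(1+y) < a/y + b(1/(1-y) + 1/(1+2y))`. By `hL`, for lower `c > N`, `y = σ c/c - 1 ∈ (0,1)`
satisfies this, so `hlo` of `ml` holds with `A = 1` (`lo_div` with `g = 0`).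
By `h2` and continuity of `κ ↦ hh a b κ` at `s ≥ 0`, `hh a b κ < ν` for `κ ≥ 0` near `s` (note
`s(1+1/(2+s)) - a s/(1+s) - b s/(3+2s) = hh a b s`), so `hup` of `ml` holds by `up_id` for upper
`c > N`. Conclusion `1 ≤ a + b + ν` from `ml`.

`two_beams`. Let `p = s(1+1/(2+s))`, so `1 - p = (2-2s-s²)/(2+s)`.
First inequality: `b = 0`, `a0 = x(2+x)/(1+x) = (β²-1)/β`. For every `a > a0`, `h1` holds with `b = 0`
(`x(2+x) < a(1+x)`, times `(1-x)(1+2x) > 0`), and for every `ν > p - a s/(1+s)` `h2` holds; so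
`1 ≤ a + p - a s/(1+s) = a/(1+s) + p` (let `ν` decrease), and letting `a` decrease to `a0`:
`(1-p)(1+s) ≤ a0`; multiply by `β(2+s)`.
Second inequality. If `x = 0`, i.e. `β = 1`, the first inequality says `(1+s)(2-2s-s²) ≤ 0`, so
`2-2s-s² ≤ 0`, and the second one holds (left `≤ 0 ≤` right). If `x > 0`: `a = 0`,
`b0 = (1-x)(1+2x)/(1+x) = (2-β)(2β-1)/β`; for every `b > b0` `h1` holds with `a = 0`, so
`1 ≤ b + p - b s/(3+2s) = b(3+s)/(3+2s) + p`, hence `(1-p)(3+2s) ≤ b0 (3+s)`; multiply by `β(2+s)`.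
-/

namespace Wyk

variable {σ : ℕ → ℕ}

private theorem mlLim_frac (y a b : ℝ) (hy0 : 0 < y) (hy1 : y < 1)
    (h : 0 < a * (1 - y) * (1 + 2 * y) * (1 + y) + b * y * (1 + y) * (2 + y)
      - y * (2 + y) * (1 - y) * (1 + 2 * y)) :
    1 + 1 / (1 + y) ≤ a / y + b * (1 / (1 - y) + 1 / (1 + 2 * y)) := by
  have h1 : 0 < 1 - y := sub_pos.2 hy1
  have h2 : 0 < 1 + y := by positivity
  have h3 : 0 < 1 + 2 * y := by positivity
  have e : a / y + b * (1 / (1 - y) + 1 / (1 + 2 * y)) - (1 + 1 / (1 + y)) =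
      (a * (1 - y) * (1 + 2 * y) * (1 + y) + b * y * (1 + y) * (2 + y)
      - y * (2 + y) * (1 - y) * (1 + 2 * y)) / (y * (1 - y) * (1 + 2 * y) * (1 + y)) := by
    field_simp
    ring
  have : 0 ≤ a / y + b * (1 / (1 - y) + 1 / (1 + 2 * y)) - (1 + 1 / (1 + y)) := by
    rw [e]; positivity
  linarith

theorem ml_lim (h : WS σ) (s β : ℝ) (hs : 0 ≤ s) (hβ1 : 1 ≤ β) (hβ2 : β < 2)
    (hU : ∀ ε : ℝ, 0 < ε → ∃ N : ℕ, ∀ c, N < c → Up σ c → |(rk σ c : ℝ) / c - s| < ε)
    (hL : ∀ ε : ℝ, 0 < ε → ∃ N : ℕ, ∀ c, N < c → Lo σ c → |(σ c : ℝ) / c - β| < ε)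
    (a b ν : ℝ) (ha : 0 ≤ a) (hb : 0 ≤ b)
    (h1 : (β - 1) * (2 + (β - 1)) * (1 - (β - 1)) * (1 + 2 * (β - 1)) <
      a * (1 - (β - 1)) * (1 + 2 * (β - 1)) * (1 + (β - 1))
        + b * (β - 1) * (1 + (β - 1)) * (2 + (β - 1)))
    (h2 : s * (1 + 1 / (2 + s)) < a * (s / (1 + s)) + b * (s / (3 + 2 * s)) + ν) :
    1 ≤ a + b + ν := by
  set P : ℝ → ℝ := fun y => a * (1 - y) * (1 + 2 * y) * (1 + y) + b * y * (1 + y) * (2 + y)
      - y * (2 + y) * (1 - y) * (1 + 2 * y) with hP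
  have hPc : Continuous P := by
    rw [hP]; fun_prop
  have hP0 : 0 < P (β - 1) := by
    simp only [hP]; linarith
  have hev : ∀ᶠ y in nhds (β - 1), 0 < P y :=
    (hPc.tendsto (β - 1)).eventually (lt_mem_nhds hP0)
  obtain ⟨η, hη, hball⟩ := Metric.eventually_nhds_iff.1 hev
  obtain ⟨N1, hN1⟩ := hL η hη
  -- the upper part
  have hsden : (0 : ℝ) < 2 + s := by positivity
  have hhs : hh a b s < ν := by
    have e : hh a b s = s * (1 + 1 / (2 + s)) - a * (s / (1 + s)) - b * (s / (3 + 2 * s)) := by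
      unfold hh
      ring
    rw [e]; linarith
  have hKpos : 0 < 3 / 2 + a + b := by positivity
  obtain ⟨N2, hN2⟩ := hU ((ν - hh a b s) / (3 / 2 + a + b)) (div_pos (by linarith) hKpos)
  have hup0 : ∀ κ : ℝ, 0 ≤ κ → |κ - s| < (ν - hh a b s) / (3 / 2 + a + b) → hh a b κ < ν := by
    intro κ hκ hlt
    rw [lt_div_iff₀ hKpos] at hlt
    rcases le_total κ s with hle | hle
    · have := (hh_incr a b κ s ha hb hκ hle).1
      have e : |κ - s| = s - κ := by rw [abs_of_nonpos (by linarith)]; ring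
      rw [e] at hlt
      nlinarith
    · have := (hh_incr a b s κ ha hb hs hle).2
      have e : |κ - s| = κ - s := abs_of_nonneg (by linarith)
      rw [e] at hlt
      nlinarith
  refine ml h 1 a b ν zero_le_one ha hb (max N1 N2) ?_ ?_
  · intro c hc hl
    have hc1 : N1 < c := (le_max_left _ _).trans_lt hc
    have hcpos : 0 < c := Nat.zero_lt_of_lt hc1
    have hcr : (0 : ℝ) < c := by exact_mod_cast hcpos
    have hl' := hl
    obtain ⟨l1, l2⟩ := hl'
    have e1 : (c : ℝ) < σ c := by exact_mod_cast l1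
    have e2 : (σ c : ℝ) < 2 * c := by exact_mod_cast l2
    have y0 : 0 < (σ c : ℝ) / c - 1 := by
      rw [sub_pos, lt_div_iff₀ hcr]; linarith
    have y1 : (σ c : ℝ) / c - 1 < 1 := by
      rw [sub_lt_iff_lt_add, div_lt_iff₀ hcr]; linarith
    have hd : dist ((σ c : ℝ) / c - 1) (β - 1) < η := by
      rw [Real.dist_eq]
      have : (σ c : ℝ) / c - 1 - (β - 1) = (σ c : ℝ) / c - β := by ring
      rw [this]
      exact hN1 c hc1 hl
    have hpos := hball hd
    have hf := mlLim_frac _ a b y0 y1 hpos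
    have := lo_div (σ := σ) 1 a b 0 hl (by linarith)
    simpa using this
  · intro c hc hu
    have hc2 : N2 < c := (le_max_right _ _).trans_lt hc
    have hcpos : 0 < c := Nat.zero_lt_of_lt hc2
    have hcr : (0 : ℝ) < c := by exact_mod_cast hcpos
    have hk : (0 : ℝ) < rk σ c := by exact_mod_cast rk_pos h hu
    have hlt := hup0 ((rk σ c : ℝ) / c) (by positivity) (hN2 c hc2 hu)
    have hid := up_id h a b hu
    have : hh a b ((rk σ c : ℝ) / c) / (rk σ c : ℝ) ≤ ν / (rk σ c : ℝ) :=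
      div_le_div_of_nonneg_right hlt.le hk.le
    rw [one_mul, hid]
    linarith

theorem two_beams (h : WS σ) (s β : ℝ) (hs : 0 ≤ s) (hβ1 : 1 ≤ β) (hβ2 : β < 2)
    (hU : ∀ ε : ℝ, 0 < ε → ∃ N : ℕ, ∀ c, N < c → Up σ c → |(rk σ c : ℝ) / c - s| < ε)
    (hL : ∀ ε : ℝ, 0 < ε → ∃ N : ℕ, ∀ c, N < c → Lo σ c → |(σ c : ℝ) / c - β| < ε) :
    β * (1 + s) * (2 - 2 * s - s ^ 2) ≤ (2 + s) * (β ^ 2 - 1) ∧
    β * (3 + 2 * s) * (2 - 2 * s - s ^ 2) ≤ (2 + s) * (3 + s) * (2 - β) * (2 * β - 1) := by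
  have hs2 : (0 : ℝ) < 2 + s := by positivity
  have hs1 : (0 : ℝ) < 1 + s := by positivity
  have hs3 : (0 : ℝ) < 3 + 2 * s := by positivity
  have hs4 : (0 : ℝ) < 3 + s := by positivity
  have hβ0 : 0 < β := by linarith
  have hβm : 0 < 2 - β := by linarith
  have hβp : 0 < 2 * β - 1 := by linarith
  have hp : 1 - s * (1 + 1 / (2 + s)) = (2 - 2 * s - s ^ 2) / (2 + s) := by
    field_simp
    ring
  -- first inequality
  have hA : ∀ a : ℝ, (β ^ 2 - 1) / β < a →
      (2 - 2 * s - s ^ 2) / (2 + s) * (1 + s) ≤ a := by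
    intro a ha
    have ha' : β ^ 2 - 1 < a * β := (div_lt_iff₀ hβ0).1 ha
    have ha0 : 0 ≤ a := by
      by_contra hcon
      push Not at hcon
      have : a * β < 0 := mul_neg_of_neg_of_pos hcon hβ0
      nlinarith
    have key : ∀ ν : ℝ, s * (1 + 1 / (2 + s)) - a * (s / (1 + s)) < ν → 1 - a ≤ ν := by
      intro ν hν
      have := ml_lim h s β hs hβ1 hβ2 hU hL a 0 ν ha0 le_rfl ?_ ?_
      · linarith
      · have h12 : 0 < (2 - β) * (2 * β - 1) := mul_pos hβm hβp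
        nlinarith [mul_pos h12 (sub_pos.2 ha')]
      · linarith
    have key2 : 1 - a ≤ s * (1 + 1 / (2 + s)) - a * (s / (1 + s)) :=
      le_of_forall_gt_imp_ge_of_dense key
    have e : a * (s / (1 + s)) = a - a / (1 + s) := by
      field_simp
      ring
    rw [e] at key2
    have key3 : (2 - 2 * s - s ^ 2) / (2 + s) ≤ a / (1 + s) := by
      rw [← hp]; linarith
    rwa [le_div_iff₀ hs1] at key3
  have hA2 : (2 - 2 * s - s ^ 2) / (2 + s) * (1 + s) ≤ (β ^ 2 - 1) / β :=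
    le_of_forall_gt_imp_ge_of_dense hA
  have first : β * (1 + s) * (2 - 2 * s - s ^ 2) ≤ (2 + s) * (β ^ 2 - 1) := by
    rw [le_div_iff₀ hβ0] at hA2
    have e : (2 - 2 * s - s ^ 2) / (2 + s) * (1 + s) * β =
        (β * (1 + s) * (2 - 2 * s - s ^ 2)) / (2 + s) := by
      field_simp
    rw [e, div_le_iff₀ hs2] at hA2
    linarith
  refine ⟨first, ?_⟩
  rcases hβ1.eq_or_lt with hβe | hβlt
  · subst hβe
    have hq : 2 - 2 * s - s ^ 2 ≤ 0 := by
      by_contra hcon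
      push Not at hcon
      have := mul_pos hs1 hcon
      nlinarith
    have : (1 : ℝ) * (3 + 2 * s) * (2 - 2 * s - s ^ 2) ≤ 0 := by
      rw [one_mul]
      exact mul_nonpos_of_nonneg_of_nonpos hs3.le hq
    refine this.trans ?_
    have : 0 ≤ (2 + s) * (3 + s) * (2 - 1) * (2 * 1 - 1) := by
      norm_num
      positivity
    exact this
  · have hx : 0 < β - 1 := by linarith
    have hB : ∀ b : ℝ, (2 - β) * (2 * β - 1) / β < b →
        (2 - 2 * s - s ^ 2) / (2 + s) * (3 + 2 * s) ≤ b * (3 + s) := by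
      intro b hb
      have hb' : (2 - β) * (2 * β - 1) < b * β := (div_lt_iff₀ hβ0).1 hb
      have hb0 : 0 ≤ b := by
        by_contra hcon
        push Not at hcon
        have h1 : b * β < 0 := mul_neg_of_neg_of_pos hcon hβ0
        have h2 := mul_pos hβm hβp
        linarith
      have key : ∀ ν : ℝ, s * (1 + 1 / (2 + s)) - b * (s / (3 + 2 * s)) < ν → 1 - b ≤ ν := by
        intro ν hν
        have := ml_lim h s β hs hβ1 hβ2 hU hL 0 b ν le_rfl hb0 ?_ ?_
        · linarith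
        · have h12 : 0 < (β - 1) * (2 + (β - 1)) := by positivity
          nlinarith [mul_pos h12 (sub_pos.2 hb')]
        · linarith
      have key2 : 1 - b ≤ s * (1 + 1 / (2 + s)) - b * (s / (3 + 2 * s)) :=
        le_of_forall_gt_imp_ge_of_dense key
      have e : b * (s / (3 + 2 * s)) = b - b * (3 + s) / (3 + 2 * s) := by
        field_simp
        ring
      rw [e] at key2
      have key3 : (2 - 2 * s - s ^ 2) / (2 + s) ≤ b * (3 + s) / (3 + 2 * s) := by
        rw [← hp]; linarith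
      rwa [le_div_iff₀ hs3] at key3
    have hB2 : (2 - 2 * s - s ^ 2) / (2 + s) * (3 + 2 * s) / (3 + s) ≤
        (2 - β) * (2 * β - 1) / β := by
      apply le_of_forall_gt_imp_ge_of_dense
      intro b hb
      rw [div_le_iff₀ hs4]
      exact hB b hb
    rw [div_le_div_iff₀ hs4 hβ0] at hB2
    have e : (2 - 2 * s - s ^ 2) / (2 + s) * (3 + 2 * s) * β =
        (β * (3 + 2 * s) * (2 - 2 * s - s ^ 2)) / (2 + s) := by
      field_simp
    rw [e, div_le_iff₀ hs2] at hB2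
    linarith

end Wyk
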