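import Mathlib

/-!
# Pointwise inequalities for the third certificate (module KPt)

`b = 13/25`, `e = 15/4`, `ν = 46/100`.
`kpt_lo`: `y ∈ (4/5, 1)`; clear denominators: multiply by `(1-y)(1+2y)(1+y) > 0` (polynomial
inequality of degree 3 on `(4/5,1)`).
`kpt_up`: `κ ∈ [0,1]`: multiply by `(2+κ)(3+2κ)`: a cubic inequality on `[0,1]`.
-/

namespace Wyk

theorem kpt_lo (y : ℝ) (hy : 4 / 5 < y) (hy1 : y < 1) :
    1 + 1 / (1 + y) ≤ (13 / 25) * (1 / (1 - y) + 1 / (1 + 2 * y))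
      + (15 / 4) * (1 - (1 + 1 / 1000) / (1 + y) - (2 + 2 / 1000) / (1 + 2 * y)) := by
  have h1 : (0 : ℝ) < 1 - y := by linarith
  have h2 : (0 : ℝ) < 1 + y := by linarith
  have h3 : (0 : ℝ) < 1 + 2 * y := by linarith
  rw [← sub_nonneg]
  have key : (13 / 25 : ℝ) * (1 / (1 - y) + 1 / (1 + 2 * y))
      + (15 / 4) * (1 - (1 + 1 / 1000) / (1 + y) - (2 + 2 / 1000) / (1 + 2 * y))
      - (1 + 1 / (1 + y)) =
      (-(847125 / 100000) + 230625 / 100000 * y + 14785 / 1000 * y ^ 2 - 55 / 10 * y ^ 3)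
        / ((1 - y) * (1 + 2 * y) * (1 + y)) := by
    field_simp
    ring
  rw [key]
  refine div_nonneg ?_ (by positivity)
  nlinarith [mul_pos (sub_pos.2 hy) (sub_pos.2 hy1),
    mul_pos (sub_pos.2 hy) (mul_pos (sub_pos.2 hy1) h2), mul_pos (sub_pos.2 hy) h2]

theorem kpt_up (κ : ℝ) (hκ : 0 ≤ κ) (hκ1 : κ ≤ 1) :
    κ * (1 + 1 / (2 + κ)) ≤ (13 / 25) * (κ / (3 + 2 * κ))
      + (15 / 4) * (κ * (1 - (1 + 1 / 1000) / (2 + κ) - (2 + 2 / 1000) / (3 + 2 * κ)))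
      + 46 / 100 := by
  have h2 : (0 : ℝ) < 2 + κ := by linarith
  have h3 : (0 : ℝ) < 3 + 2 * κ := by linarith
  rw [← sub_nonneg]
  have key : (13 / 25) * (κ / (3 + 2 * κ))
      + (15 / 4) * (κ * (1 - (1 + 1 / 1000) / (2 + κ) - (2 + 2 / 1000) / (3 + 2 * κ)))
      + 46 / 100 - κ * (1 + 1 / (2 + κ)) =
      (276 / 100 - 851625 / 100000 * κ + 3675 / 1000 * κ ^ 2 + 55 / 10 * κ ^ 3)
        / ((2 + κ) * (3 + 2 * κ)) := by
    field_simp
    ring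
  rw [key]
  refine div_nonneg ?_ (by positivity)
  nlinarith [mul_nonneg hκ (sq_nonneg (κ - 53 / 100)), sq_nonneg (κ - 53 / 100)]

end Wyk
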