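import Pool.Agent.Wyk.Pk2
import Pool.Agent.Wyk.C1

/-!
# An unused small difference (module Unused)

Suppose that `σ c > (9/5) c` for all lower `c > N0`. Claim: for `R` large there is
`m ∈ [1, R⁴]` which is not a difference `σ c - c` of a column `c ≤ R⁵`.

Suppose that every `m ∈ [1, R⁴]` is such a difference. The map `m ↦ c` is injective, so
`Hs 0 (R⁴) ≤ ∑_{c ∈ cols σ 0 (R⁵)} 1/(σ c - c)`.
* Upper columns: `σ c - c = c + k ≥ 2k` with `k = rk σ c ≤ c`, so `∑ ≤ (1/2) ∑_{ups} 1/rk σ c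
  ≤ (1/2) Hs 0 (R⁵)` (`rank_sum`, `rk_le`, `Hs_mono`).
* Lower columns `c ≤ N0`: at most `N0` terms `≤ 1`.
* Lower columns `c > N0`: `σ c - c > (4/5)c`, so `1/(σ c - c) ≤ (5/4)/c`, and with
  `j = 2c - σ c < c/5`, `1/c ≤ (1/5)/j`; so `1/(σ c - c) ≤ (1/4)/j`. The numbers `j` are distinct
  (`einj`), `1 ≤ j ≤ R⁵`, so `∑ ≤ (1/4) Hs 0 (R⁵)` (`sum_inj_le`).
Hence `log (R⁴) ≤ Hs 0 (R⁴) ≤ N0 + (3/4)(1 + log R⁵)`, i.e. `4 log R ≤ N0 + 3/4 + (15/4) log R`, i.e.
`log R ≤ 4 N0 + 3`: false for `R` large (e.g. `R ≥ exp(4 N0 + 4)`).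
-/

open Finset

namespace Wyk

variable {σ : ℕ → ℕ}

theorem exists_unused (h : WS σ) (N0 : ℕ) (hlow : ∀ c, N0 < c → Lo σ c → 9 * c < 5 * σ c) :
    ∃ R0 : ℕ, ∀ R, R0 ≤ R → ∃ m, 0 < m ∧ m ≤ R ^ 4 ∧
      ∀ c, c ≤ R ^ 5 → Col σ c → σ c ≠ c + m := by
  refine ⟨⌈Real.exp (4 * N0 + 4)⌉₊, fun R hR => ?_⟩
  by_contra hcon
  push Not at hcon
  have hRe : Real.exp (4 * N0 + 4) ≤ (R : ℝ) := le_trans (Nat.le_ceil _) (by exact_mod_cast hR)
  have hRpos : (0 : ℝ) < R := lt_of_lt_of_le (Real.exp_pos _) hRe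
  have hRn : 0 < R := by exact_mod_cast hRpos
  have hlog : (4 * N0 + 4 : ℝ) ≤ Real.log R := by
    rw [Real.le_log_iff_exp_le hRpos]; exact hRe
  -- step 1
  have h1 : Hs 0 (R ^ 4) ≤ ∑ c ∈ cols σ 0 (R ^ 5), 1 / ((σ c - c : ℕ) : ℝ) := by
    have hinj : Set.InjOn (fun c => σ c - c) (cols σ 0 (R ^ 5) : Set ℕ) := by
      intro x hx y hy hxy
      rw [Finset.mem_coe, mem_cols] at hx hy
      apply h.dinj
      simp only at hxy
      omega
    rw [← Finset.sum_image (f := fun n : ℕ => 1 / (n : ℝ)) hinj]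
    unfold Hs
    apply Finset.sum_le_sum_of_subset_of_nonneg
    · intro m hm
      rw [Finset.mem_Ioc] at hm
      obtain ⟨c, hc1, hc2, hc3⟩ := hcon m hm.1 hm.2
      rw [Finset.mem_image]
      refine ⟨c, ?_, by omega⟩
      rw [mem_cols]
      refine ⟨⟨?_, hc1⟩, hc2⟩
      rcases Nat.eq_zero_or_pos c with h0 | h0
      · subst h0
        unfold Col at hc2
        rw [h.zero] at hc2
        omega
      · exact h0
    · intro i _ _
      positivity
  rw [sum_cols h] at h1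
  -- upper columns
  have h2 : ∑ c ∈ ups σ 0 (R ^ 5), 1 / ((σ c - c : ℕ) : ℝ) ≤ (1 / 2) * Hs 0 (R ^ 5) := by
    calc ∑ c ∈ ups σ 0 (R ^ 5), 1 / ((σ c - c : ℕ) : ℝ)
        ≤ ∑ c ∈ ups σ 0 (R ^ 5), (1 / 2) * (1 / (rk σ c : ℝ)) := by
          apply Finset.sum_le_sum
          intro c hc
          rw [mem_ups] at hc
          have hu : Up σ c := hc.2
          have he := up_eq h hu
          have hk := rk_pos h hu
          have hk2 := rk_le σ c
          have h3 : 2 * rk σ c ≤ σ c - c := by omega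
          have h4 : (0 : ℝ) < rk σ c := by exact_mod_cast hk
          have h5 : (2 * (rk σ c : ℝ)) ≤ ((σ c - c : ℕ) : ℝ) := by exact_mod_cast h3
          calc 1 / ((σ c - c : ℕ) : ℝ) ≤ 1 / (2 * (rk σ c : ℝ)) :=
                one_div_le_one_div_of_le (by positivity) h5
            _ = (1 / 2) * (1 / (rk σ c : ℝ)) := by
                field_simp
      _ = (1 / 2) * ∑ c ∈ ups σ 0 (R ^ 5), 1 / (rk σ c : ℝ) := by rw [Finset.mul_sum]
      _ = (1 / 2) * Hs (rk σ 0) (rk σ (R ^ 5)) := by rw [rank_sum σ 0 (R ^ 5) (Nat.zero_le _)]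
      _ ≤ (1 / 2) * Hs 0 (R ^ 5) := by
          have h0 : rk σ 0 = 0 := Nat.le_zero.mp (rk_le σ 0)
          rw [h0]
          have := Hs_mono 0 (rk σ (R ^ 5)) (R ^ 5) (rk_le σ _)
          linarith
  -- lower columns
  have h3 : ∑ c ∈ los σ 0 (R ^ 5), 1 / ((σ c - c : ℕ) : ℝ) ≤ N0 + (1 / 4) * Hs 0 (R ^ 5) := by
    rw [← Finset.sum_filter_add_sum_filter_not (los σ 0 (R ^ 5)) (fun c => c ≤ N0)]
    apply add_le_add
    · have hle : ∑ c ∈ (los σ 0 (R ^ 5)).filter (fun c => c ≤ N0), 1 / ((σ c - c : ℕ) : ℝ)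
          ≤ ∑ c ∈ (los σ 0 (R ^ 5)).filter (fun c => c ≤ N0), (1 : ℝ) := by
        apply Finset.sum_le_sum
        intro c hc
        rw [Finset.mem_filter, mem_los] at hc
        have h4 : 1 ≤ σ c - c := by omega
        have h5 : (1 : ℝ) ≤ ((σ c - c : ℕ) : ℝ) := by exact_mod_cast h4
        rw [div_le_one (by linarith)]
        exact h5
      have hcard : ((los σ 0 (R ^ 5)).filter (fun c => c ≤ N0)).card ≤ N0 := by
        have hsub : (los σ 0 (R ^ 5)).filter (fun c => c ≤ N0) ⊆ Finset.Ioc 0 N0 := by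
          intro c hc
          rw [Finset.mem_filter, mem_los] at hc
          rw [Finset.mem_Ioc]
          omega
        have := Finset.card_le_card hsub
        simpa using this
      have hcard' : (((los σ 0 (R ^ 5)).filter (fun c => c ≤ N0)).card : ℝ) ≤ N0 := by
        exact_mod_cast hcard
      simp only [Finset.sum_const, nsmul_eq_mul, mul_one] at hle
      linarith
    · have hj : ∑ c ∈ (los σ 0 (R ^ 5)).filter (fun c => ¬ c ≤ N0), 1 / ((2 * c - σ c : ℕ) : ℝ)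
          ≤ Hs 0 (R ^ 5) := by
        apply sum_inj_le _ (fun c => 2 * c - σ c)
        · intro x hx y hy hxy
          rw [Finset.mem_coe, Finset.mem_filter, mem_los] at hx hy
          apply h.einj
          simp only at hxy
          omega
        · intro c hc
          rw [Finset.mem_filter, mem_los] at hc
          omega
      calc ∑ c ∈ (los σ 0 (R ^ 5)).filter (fun c => ¬ c ≤ N0), 1 / ((σ c - c : ℕ) : ℝ)
          ≤ ∑ c ∈ (los σ 0 (R ^ 5)).filter (fun c => ¬ c ≤ N0),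
              (1 / 4) * (1 / ((2 * c - σ c : ℕ) : ℝ)) := by
            apply Finset.sum_le_sum
            intro c hc
            rw [Finset.mem_filter, mem_los] at hc
            have hl := hlow c (by omega) hc.1.2
            have h4 : 4 * (2 * c - σ c) ≤ σ c - c := by omega
            have h6 : 0 < 2 * c - σ c := by omega
            have h7 : (0 : ℝ) < ((2 * c - σ c : ℕ) : ℝ) := by exact_mod_cast h6
            have h5 : (4 * ((2 * c - σ c : ℕ) : ℝ)) ≤ ((σ c - c : ℕ) : ℝ) := by exact_mod_cast h4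
            calc 1 / ((σ c - c : ℕ) : ℝ) ≤ 1 / (4 * ((2 * c - σ c : ℕ) : ℝ)) :=
                  one_div_le_one_div_of_le (by positivity) h5
              _ = (1 / 4) * (1 / ((2 * c - σ c : ℕ) : ℝ)) := by
                  rw [one_div_mul_one_div]
        _ = (1 / 4) * ∑ c ∈ (los σ 0 (R ^ 5)).filter (fun c => ¬ c ≤ N0),
              1 / ((2 * c - σ c : ℕ) : ℝ) := by rw [Finset.mul_sum]
        _ ≤ (1 / 4) * Hs 0 (R ^ 5) := by linarith
  have h4 : Real.log ((R : ℝ) ^ 4) ≤ Hs 0 (R ^ 4) := by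
    refine le_trans ?_ (Hs_ge 0 (R ^ 4) (Nat.zero_le _))
    apply Real.log_le_log (by positivity)
    push_cast
    simp
  have h5 : Hs 0 (R ^ 5) ≤ 1 + Real.log ((R : ℝ) ^ 5) := by
    have := Hs_le0 (R ^ 5) (by positivity)
    push_cast at this
    exact this
  rw [Real.log_pow] at h4 h5
  push_cast at h4 h5
  linarith

end Wyk
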