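import Pool.Agent.Wyk.ThmB
import Pool.Agent.Wyk.Blk
import Pool.Agent.Wyk.Unused
import Pool.Agent.Wyk.KPt

/-!
# There are lower positions of slope `≤ 9/5` (module ThmC)

Suppose that `σ c / c > 9/5` for all lower `c > N0` (`hlow : 9c < 5σ c`). For `R` large take `m` from
`exists_unused`, `T = R⁵`, `T1 = 1000 R⁴` (so `1000 m ≤ T1`, `2 N0 ≤ T1 ≤ T`, `N0 ≤ T1`). Put
`K c = 1/c - (1+1/1000)/σ c - (2+2/1000)/(2σ c - c)` and apply `win` with `A = 1`, `a = 0`,
`b = 13/25`, `e0 = 12`, `E c = (15/4) K c` for lower `c`, `E c = (15/4) K c + (46/100)/rk σ c` for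
upper `c`.
* `hE`: for lower `c`: `1/σ c ≤ 1/c`, `1/(2σ c - c) ≤ 1/c`, so `K c ≥ (1 - 1.001 - 2.002)/c ≥ -3/c`... and
  `(15/4) K c ≥ -12/c`.
* `hlo`: `kpt_lo` with `y = (σ c - c)/c > 4/5` (`c > T1 ≥ N0`), divided by `c`.
* `hup`: `kpt_up` with `κ = k/c`, `k = rk σ c`, `σ c = 2c + k`, divided by `k`: note
  `κ(1+1/(2+κ))/k = 1/c + 1/σ c`, `κ/(3+2κ)/k = 1/(2σ c - c)`, `κ(1 - ...)/k = K c`.
Result: `Hs T1 T ≤ (13/25) Hs T1 (5T) + (15/4) * 3 + (46/100) ∑_{ups σ T1 T} 1/rk σ c + 5 + 24`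
(`k_ineq`). By `rank_sum` the last sum is `Hs (rk σ T1) (rk σ T) ≤ log (rk σ T / rk σ T1)
≤ log (2^100 T / T1)` (`Hs_le`, `rk σ T ≤ T`, `T1 ≤ 2^100 rk σ T1` by `up_density`, for
`T1 ≥ 2^100`). With `l = log(T/T1)`: `Hs T1 T ≥ log((T+1)/(T1+1)) ≥ l - log 2`,
`Hs T1 (5T) ≤ l + log 5`. So `l (1 - 13/25 - 46/100) ≤ C`, i.e. `l/50 ≤ C` with an absolute constant
`C`; but `l = log (R/1000) → ∞`. Contradiction.
-/

open Finset

namespace Wyk

variable {σ : ℕ → ℕ}

private noncomputable def ThmC_K (σ : ℕ → ℕ) (c : ℕ) : ℝ :=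
  1 / (c : ℝ) - (1 + 1 / 1000) / (σ c : ℝ) - (2 + 2 / 1000) / (2 * (σ c : ℝ) - c)

private theorem ThmC_K_ge {c s : ℝ} (hc : 0 < c) (hs : c < s) :
    -(3 / c) ≤ 1 / c - (1 + 1 / 1000) / s - (2 + 2 / 1000) / (2 * s - c) := by
  have i1 : 1 / s ≤ 1 / c := one_div_le_one_div_of_le hc hs.le
  have i2 : 1 / (2 * s - c) ≤ 1 / c := one_div_le_one_div_of_le hc (by linarith)
  have i0 : 0 < 1 / c := by positivity
  have e1 : (1 + 1 / 1000) / s = (1 + 1 / 1000) * (1 / s) := by ring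
  have e2 : (2 + 2 / 1000) / (2 * s - c) = (2 + 2 / 1000) * (1 / (2 * s - c)) := by ring
  have e3 : 3 / c = 3 * (1 / c) := by ring
  rw [e1, e2, e3]
  nlinarith

private theorem ThmC_lo {c s : ℝ} (hc : 0 < c) (h1 : 9 * c < 5 * s) (h2 : s < 2 * c) :
    1 / c + 1 / s ≤ (13 / 25) * (1 / (2 * c - s) + 1 / (2 * s - c))
      + (15 / 4) * (1 / c - (1 + 1 / 1000) / s - (2 + 2 / 1000) / (2 * s - c)) := by
  have hs : 0 < s := by linarith
  have hk := kpt_lo ((s - c) / c) (by rw [lt_div_iff₀ hc]; linarith)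
    (by rw [div_lt_one hc]; linarith)
  have e1 : 1 + (s - c) / c = s / c := by field_simp; ring
  have e2 : 1 - (s - c) / c = (2 * c - s) / c := by field_simp; ring
  have e3 : 1 + 2 * ((s - c) / c) = (2 * s - c) / c := by field_simp; ring
  rw [e1, e2, e3] at hk
  have hk2 := mul_le_mul_of_nonneg_right hk (by positivity : (0:ℝ) ≤ 1 / c)
  have hcs : 2 * c - s ≠ 0 := by linarith
  have hsc : 2 * s - c ≠ 0 := by linarith
  have f1 : (1 + 1 / (s / c)) * (1 / c) = 1 / c + 1 / s := by field_simp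
  have f2 : ((13 / 25) * (1 / ((2 * c - s) / c) + 1 / ((2 * s - c) / c))
      + (15 / 4) * (1 - (1 + 1 / 1000) / (s / c) - (2 + 2 / 1000) / ((2 * s - c) / c))) * (1 / c)
      = (13 / 25) * (1 / (2 * c - s) + 1 / (2 * s - c))
      + (15 / 4) * (1 / c - (1 + 1 / 1000) / s - (2 + 2 / 1000) / (2 * s - c)) := by
    have g1 : 1 / ((2 * c - s) / c) = c / (2 * c - s) := by rw [one_div_div]
    have g2 : 1 / ((2 * s - c) / c) = c / (2 * s - c) := by rw [one_div_div]
    have g3 : (1 + 1 / 1000) / (s / c) = (1 + 1 / 1000) * (c / s) := by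
      rw [div_div_eq_mul_div]; ring
    have g4 : (2 + 2 / 1000) / ((2 * s - c) / c) = (2 + 2 / 1000) * (c / (2 * s - c)) := by
      rw [div_div_eq_mul_div]; ring
    have g5 : c / (2 * c - s) * (1 / c) = 1 / (2 * c - s) := by field_simp
    have g6 : c / (2 * s - c) * (1 / c) = 1 / (2 * s - c) := by field_simp
    have g7 : c / s * (1 / c) = 1 / s := by field_simp
    rw [g1, g2, g3, g4]
    calc ((13 / 25) * (c / (2 * c - s) + c / (2 * s - c))
      + (15 / 4) * (1 - (1 + 1 / 1000) * (c / s) - (2 + 2 / 1000) * (c / (2 * s - c)))) * (1 / c)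
        = (13 / 25) * (c / (2 * c - s) * (1 / c) + c / (2 * s - c) * (1 / c))
      + (15 / 4) * (1 / c - (1 + 1 / 1000) * (c / s * (1 / c))
        - (2 + 2 / 1000) * (c / (2 * s - c) * (1 / c))) := by ring
      _ = _ := by rw [g5, g6, g7]; ring
  rw [f1, f2] at hk2
  exact hk2

private theorem ThmC_up {c k : ℝ} (hc : 0 < c) (hk : 0 < k) (hkc : k ≤ c) :
    1 / c + 1 / (2 * c + k) ≤ (13 / 25) / (2 * (2 * c + k) - c)
      + ((15 / 4) * (1 / c - (1 + 1 / 1000) / (2 * c + k) - (2 + 2 / 1000) / (2 * (2 * c + k) - c))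
        + (46 / 100) / k) := by
  have h0 := kpt_up (k / c) (by positivity) (by rw [div_le_one hc]; exact hkc)
  have h1 := mul_le_mul_of_nonneg_right h0 (by positivity : (0:ℝ) ≤ 1 / k)
  have e1 : 2 + k / c = (2 * c + k) / c := by field_simp
  have e2 : 3 + 2 * (k / c) = (2 * (2 * c + k) - c) / c := by field_simp; ring
  have hp1 : 0 < 2 * c + k := by positivity
  have hp2 : 0 < 2 * (2 * c + k) - c := by linarith
  rw [e1, e2] at h1
  have g0 : k / c * (1 / k) = 1 / c := by field_simp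
  have g1 : 1 / ((2 * c + k) / c) = c / (2 * c + k) := by rw [one_div_div]
  have g3 : (1 + 1 / 1000) / ((2 * c + k) / c) = (1 + 1 / 1000) * (c / (2 * c + k)) := by
    rw [div_div_eq_mul_div]; ring
  have g4 : (2 + 2 / 1000) / ((2 * (2 * c + k) - c) / c)
      = (2 + 2 / 1000) * (c / (2 * (2 * c + k) - c)) := by
    rw [div_div_eq_mul_div]; ring
  have g5 : k / c / ((2 * (2 * c + k) - c) / c) = k / (2 * (2 * c + k) - c) := by
    field_simp
  have g6 : 1 / c * (c / (2 * c + k)) = 1 / (2 * c + k) := by field_simp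
  have g7 : 1 / c * (c / (2 * (2 * c + k) - c)) = 1 / (2 * (2 * c + k) - c) := by field_simp
  have g8 : k / (2 * (2 * c + k) - c) * (1 / k) = 1 / (2 * (2 * c + k) - c) := by field_simp
  rw [g1, g3, g4, g5] at h1
  have f1 : k / c * (1 + c / (2 * c + k)) * (1 / k) = 1 / c + 1 / (2 * c + k) := by
    calc k / c * (1 + c / (2 * c + k)) * (1 / k)
        = (k / c * (1 / k)) + (k / c * (1 / k)) * (c / (2 * c + k)) := by ring
      _ = _ := by rw [g0, g6]
  have f2 : ((13 / 25) * (k / (2 * (2 * c + k) - c))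
      + (15 / 4) * (k / c * (1 - (1 + 1 / 1000) * (c / (2 * c + k))
        - (2 + 2 / 1000) * (c / (2 * (2 * c + k) - c)))) + 46 / 100) * (1 / k)
      = (13 / 25) / (2 * (2 * c + k) - c)
      + ((15 / 4) * (1 / c - (1 + 1 / 1000) / (2 * c + k) - (2 + 2 / 1000) / (2 * (2 * c + k) - c))
        + (46 / 100) / k) := by
    calc ((13 / 25) * (k / (2 * (2 * c + k) - c))
      + (15 / 4) * (k / c * (1 - (1 + 1 / 1000) * (c / (2 * c + k))
        - (2 + 2 / 1000) * (c / (2 * (2 * c + k) - c)))) + 46 / 100) * (1 / k)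
        = (13 / 25) * (k / (2 * (2 * c + k) - c) * (1 / k))
      + (15 / 4) * ((k / c * (1 / k)) - (1 + 1 / 1000) * ((k / c * (1 / k)) * (c / (2 * c + k)))
        - (2 + 2 / 1000) * ((k / c * (1 / k)) * (c / (2 * (2 * c + k) - c))))
        + (46 / 100) * (1 / k) := by ring
      _ = _ := by rw [g0, g6, g7, g8]; ring
  rw [f1, f2] at h1
  exact h1

theorem thmC (h : WS σ) (N : ℕ) : ∃ c, N < c ∧ Lo σ c ∧ (σ c : ℝ) / c ≤ 9 / 5 := by
  by_contra hcon
  push Not at hcon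
  have hlow : ∀ c, N < c → Lo σ c → 9 * c < 5 * σ c := by
    intro c hc hlo
    have h1 := hcon c hc hlo
    have hc0 : (0 : ℝ) < c := by exact_mod_cast (lt_of_le_of_lt (Nat.zero_le _) hc)
    rw [lt_div_iff₀ hc0] at h1
    have h2 : (9 : ℝ) * c < 5 * σ c := by linarith
    exact_mod_cast h2
  obtain ⟨R0, hR0⟩ := exists_unused h N hlow
  obtain ⟨Q, hQ⟩ := exists_nat_ge (1000 * Real.exp 3800)
  obtain ⟨R, hR⟩ : ∃ R : ℕ, R = R0 + N + 2 ^ 100 + Q := ⟨_, rfl⟩
  have hRR0 : R0 ≤ R := by omega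
  have hRN : N ≤ R := by omega
  have hR100 : 2 ^ 100 ≤ R := by omega
  have hRQ : Q ≤ R := by omega
  have hRQr : 1000 * Real.exp 3800 ≤ R := hQ.trans (by exact_mod_cast hRQ)
  have h1000 : 1000 ≤ R := le_trans (by norm_num) hR100
  have hR1 : 1 ≤ R := le_trans (by norm_num) h1000
  obtain ⟨m, hm0, hm1, hm2⟩ := hR0 R hRR0
  obtain ⟨T, hT⟩ : ∃ T : ℕ, T = R ^ 5 := ⟨_, rfl⟩
  obtain ⟨T1, hT1⟩ : ∃ T1 : ℕ, T1 = 1000 * R ^ 4 := ⟨_, rfl⟩
  rw [← hT] at hm2
  have hR4 : R ≤ R ^ 4 := by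
    calc R = R ^ 1 := (pow_one R).symm
      _ ≤ R ^ 4 := Nat.pow_le_pow_right hR1 (by norm_num)
  have hT1m : 1000 * m ≤ T1 := by rw [hT1]; exact Nat.mul_le_mul_left _ hm1
  have hT1N : 2 * N ≤ T1 := by rw [hT1]; omega
  have hNT1 : N ≤ T1 := by omega
  have hT1T : T1 ≤ T := by
    rw [hT1, hT]
    calc 1000 * R ^ 4 ≤ R * R ^ 4 := Nat.mul_le_mul_right _ h1000
      _ = R ^ 5 := by ring
  have hT1100 : 2 ^ 100 ≤ T1 := by rw [hT1]; omega
  have hT1pos : 0 < T1 := lt_of_lt_of_le (by positivity) hT1100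
  have hTpos : 0 < T := lt_of_lt_of_le hT1pos hT1T
  have hT1r : (0 : ℝ) < T1 := by exact_mod_cast hT1pos
  have hTr : (0 : ℝ) < T := by exact_mod_cast hTpos
  have hk := k_ineq h N m T1 T hm0 hT1m hT1N hlow hm2
  have hwin := win h T1 T 1 0 (13 / 25) 12 zero_le_one le_rfl (by norm_num) (by norm_num)
    (fun c => (15 / 4) * ThmC_K σ c + if Up σ c then (46 / 100) / (rk σ c : ℝ) else 0)
    (by
      intro c hc
      rw [mem_los] at hc
      obtain ⟨⟨hc1, hc2⟩, hc3, hc4⟩ := hc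
      have hnu : ¬ Up σ c := by unfold Up; omega
      have hc0 : (0 : ℝ) < c := by exact_mod_cast (lt_of_le_of_lt (Nat.zero_le _) hc1)
      have hc3r : (c : ℝ) < σ c := by exact_mod_cast hc3
      rw [if_neg hnu]
      have := ThmC_K_ge hc0 hc3r
      have e : 12 / (c : ℝ) = 4 * (3 / c) := by ring
      have p : 0 < 3 / (c : ℝ) := by positivity
      unfold ThmC_K
      rw [e]
      linarith)
    (by
      intro c hc
      rw [mem_los] at hc
      obtain ⟨⟨hc1, hc2⟩, hc3, hc4⟩ := hc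
      have hnu : ¬ Up σ c := by unfold Up; omega
      have hc0 : (0 : ℝ) < c := by exact_mod_cast (lt_of_le_of_lt (Nat.zero_le _) hc1)
      have h9 := hlow c (by omega) ⟨hc3, hc4⟩
      have h9r : 9 * (c : ℝ) < 5 * σ c := by exact_mod_cast h9
      have hc4r : (σ c : ℝ) < 2 * c := by exact_mod_cast hc4
      rw [if_neg hnu]
      have := ThmC_lo hc0 h9r hc4r
      unfold ThmC_K
      rw [zero_div]
      linarith)
    (by
      intro c hc
      rw [mem_ups] at hc
      obtain ⟨⟨hc1, hc2⟩, hc3⟩ := hc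
      have hup : Up σ c := hc3
      have hc0 : (0 : ℝ) < c := by exact_mod_cast (lt_of_le_of_lt (Nat.zero_le _) hc1)
      have hkpos : (0 : ℝ) < rk σ c := by exact_mod_cast rk_pos h hup
      have hkle : (rk σ c : ℝ) ≤ c := by exact_mod_cast rk_le σ c
      have hs : (σ c : ℝ) = 2 * c + rk σ c := by
        have := up_eq h hup
        exact_mod_cast this
      rw [if_pos hup]
      have := ThmC_up hc0 hkpos hkle
      unfold ThmC_K
      rw [zero_div, hs]
      linarith)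
  -- the error sum
  have hsum : ∑ c ∈ cols σ T1 T,
      ((15 / 4) * ThmC_K σ c + if Up σ c then (46 / 100) / (rk σ c : ℝ) else 0)
      ≤ (15 / 4) * 3 + (46 / 100) * Hs (rk σ T1) (rk σ T) := by
    rw [Finset.sum_add_distrib, ← Finset.mul_sum]
    have e1 : ∑ c ∈ cols σ T1 T, (if Up σ c then (46 / 100) / (rk σ c : ℝ) else 0)
        = (46 / 100) * Hs (rk σ T1) (rk σ T) := by
      rw [sum_cols h]
      have e2 : ∑ c ∈ los σ T1 T, (if Up σ c then (46 / 100) / (rk σ c : ℝ) else 0) = 0 := by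
        apply Finset.sum_eq_zero
        intro c hc
        rw [mem_los] at hc
        rw [if_neg]
        unfold Up
        omega
      rw [e2, zero_add, ← rank_sum σ T1 T hT1T, Finset.mul_sum]
      apply Finset.sum_congr rfl
      intro c hc
      rw [mem_ups] at hc
      have hup : Up σ c := hc.2
      rw [if_pos hup]
      ring
    rw [e1]
    have e3 : ∑ c ∈ cols σ T1 T, ThmC_K σ c ≤ 3 := hk
    linarith
  -- logarithms
  obtain ⟨l, hl⟩ : ∃ l : ℝ, l = Real.log ((T : ℝ) / T1) := ⟨_, rfl⟩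
  have hRr : (0 : ℝ) < R := by exact_mod_cast hR1
  have hTT1 : (T : ℝ) / T1 = R / 1000 := by
    rw [hT, hT1]
    push_cast
    field_simp
  have hl3800 : 3800 ≤ l := by
    rw [hl, hTT1, Real.le_log_iff_exp_le (by positivity), le_div_iff₀ (by norm_num)]
    linarith
  have hl2 : Real.log 2 < 0.6931471808 := Real.log_two_lt_d9
  have hl20 : 0 < Real.log 2 := Real.log_pos (by norm_num)
  have b1 : l - Real.log 2 ≤ Hs T1 T := by
    refine le_trans ?_ (Hs_ge T1 T hT1T)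
    rw [hl, ← Real.log_div (by positivity) (by norm_num)]
    apply Real.log_le_log (by positivity)
    rw [div_div, div_le_div_iff₀ (by positivity) (by positivity)]
    have : (1 : ℝ) ≤ T1 := by exact_mod_cast hT1pos
    nlinarith
  have b2 : Hs T1 (5 * T) ≤ l + 3 * Real.log 2 := by
    refine le_trans (Hs_le T1 (5 * T) hT1pos (by omega)) ?_
    have e : 3 * Real.log 2 = Real.log 8 := by
      have : (8 : ℝ) = 2 ^ 3 := by norm_num
      rw [this, Real.log_pow]; norm_num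
    rw [hl, e, ← Real.log_mul (by positivity) (by norm_num)]
    apply Real.log_le_log
    · push_cast; positivity
    · push_cast
      rw [div_mul_eq_mul_div]
      apply div_le_div_of_nonneg_right _ hT1r.le
      linarith
  have hrk1 : T1 < 2 ^ 100 * rk σ T1 := up_density h T1 hT1100
  have hrkpos : 0 < rk σ T1 := by
    rcases Nat.eq_zero_or_pos (rk σ T1) with h0 | h0
    · rw [h0] at hrk1; omega
    · exact h0
  have hrkr : (0 : ℝ) < rk σ T1 := by exact_mod_cast hrkpos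
  have b3 : Hs (rk σ T1) (rk σ T) ≤ l + 100 * Real.log 2 := by
    refine le_trans (Hs_le _ _ hrkpos (rk_mono σ hT1T)) ?_
    have e : 100 * Real.log 2 = Real.log (2 ^ 100) := by
      rw [Real.log_pow]; norm_num
    rw [hl, e, ← Real.log_mul (by positivity) (by positivity)]
    have hle1 : (rk σ T : ℝ) ≤ T := by exact_mod_cast rk_le σ T
    have hrkT : (0 : ℝ) < rk σ T := lt_of_lt_of_le hrkr (by exact_mod_cast rk_mono σ hT1T)
    have hle2 : (T1 : ℝ) ≤ 2 ^ 100 * rk σ T1 := by exact_mod_cast hrk1.le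
    apply Real.log_le_log (by positivity)
    rw [div_mul_eq_mul_div, div_le_div_iff₀ hrkr hT1r]
    calc (rk σ T : ℝ) * T1 ≤ T * (2 ^ 100 * rk σ T1) := by
          apply mul_le_mul hle1 hle2 hT1r.le hTr.le
      _ = T * 2 ^ 100 * rk σ T1 := by ring
  simp only [one_mul, mul_one, zero_mul, zero_add] at hwin
  linarith

end Wyk
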