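import Pool.Agent.Wyk.C1
import Pool.Agent.Wyk.ClusM

/-!
# The set `L` in terms of `σ` (module Trans)

`L_eq_clus`. If `IsP (a,b) ↔ b = σ a`, the set in the definition of `L` is
`{(c, σ c) | 0 < c, c < σ c, |σ c/c - x| < ε}`, the image of `{c | ...}` under the injective map
`c ↦ (c, σ c)`; it is infinite iff the set of these `c` is infinite iff it is unbounded
(`Set.infinite_iff_exists_gt` / `Set.infinite_of_not_bddAbove`, `Nat.frequently_atTop_iff_infinite`).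

`L_gt`. For `x > 2`: `L = Clus (Lo σ) r ∪ Clus (Up σ) r` with `r c = σ c/c` (`clus_or`, `col_cases`).
For lower `c`, `r c ∈ [1,2]`, so `Clus (Lo σ) r ⊆ [1,2]` (`clus_bounds`); for upper `c`,
`r c = 2 + rk σ c/c` (`up_eq`), so `x ∈ Clus (Up σ) r ↔ x - 2 ∈ Clus (Up σ) (rk/c)`.
`L_lt`. For `x < 2`: `Clus (Up σ) r ⊆ [2,3]`, so `x ∈ L ↔ x ∈ Clus (Lo σ) r`.
`L_bounds`: `Clus (Col σ) r ⊆ [1,3]` by `sig_le`.
-/

namespace Wyk

variable {σ : ℕ → ℕ}

theorem L_eq_clus (hP : ∀ a b, IsP (a, b) ↔ b = σ a) :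
    L = Clus (Col σ) (fun c => (σ c : ℝ) / c) := by
  ext x
  have key : ∀ ε : ℝ,
      {p : ℕ × ℕ | IsP p ∧ 0 < p.1 ∧ p.1 < p.2 ∧ |(p.2 : ℝ) / p.1 - x| < ε}.Infinite ↔
        ∀ N : ℕ, ∃ c, N < c ∧ Col σ c ∧ |(σ c : ℝ) / c - x| < ε := by
    intro ε
    have himg : {p : ℕ × ℕ | IsP p ∧ 0 < p.1 ∧ p.1 < p.2 ∧ |(p.2 : ℝ) / p.1 - x| < ε} =
        (fun c : ℕ => (c, σ c)) '' {c : ℕ | 0 < c ∧ Col σ c ∧ |(σ c : ℝ) / c - x| < ε} := by
      ext ⟨a, b⟩
      simp only [Set.mem_ofPred_eq, Set.mem_image, Prod.mk.injEq]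
      constructor
      · rintro ⟨h1, h2, h3, h4⟩
        have hb := (hP a b).1 h1
        subst hb
        exact ⟨a, ⟨h2, h3, h4⟩, rfl, rfl⟩
      · rintro ⟨c, ⟨h2, h3, h4⟩, rfl, rfl⟩
        exact ⟨(hP c (σ c)).2 rfl, h2, h3, h4⟩
    have hinj : Set.InjOn (fun c : ℕ => (c, σ c))
        {c : ℕ | 0 < c ∧ Col σ c ∧ |(σ c : ℝ) / c - x| < ε} := by
      intro a _ b _ hab
      exact (Prod.mk.inj hab).1
    rw [himg, Set.infinite_image_iff hinj]
    constructor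
    · intro hinf N
      obtain ⟨c, hc, hN⟩ := hinf.exists_gt N
      exact ⟨c, hN, hc.2.1, hc.2.2⟩
    · intro hall
      apply Set.infinite_of_not_bddAbove
      rintro ⟨N, hN⟩
      obtain ⟨c, hc, h1, h2⟩ := hall N
      have := hN (show c ∈ {c : ℕ | 0 < c ∧ Col σ c ∧ |(σ c : ℝ) / c - x| < ε} from
        ⟨by omega, h1, h2⟩)
      omega
  constructor
  · intro hx ε hε
    exact (key ε).1 (hx ε hε)
  · intro hx ε hε
    exact (key ε).2 (hx ε hε)

private theorem lo_bounds {c : ℕ} (hc : Lo σ c) :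
    (1 : ℝ) ≤ (σ c : ℝ) / c ∧ (σ c : ℝ) / c ≤ 2 := by
  have hpos : (0 : ℝ) < c := by exact_mod_cast hc.pos
  obtain ⟨h1, h2⟩ := hc
  constructor
  · rw [le_div_iff₀ hpos, one_mul]
    exact_mod_cast h1.le
  · rw [div_le_iff₀ hpos]
    exact_mod_cast h2.le

private theorem up_val (h : WS σ) {c : ℕ} (hc : Up σ c) :
    (σ c : ℝ) / c = 2 + (rk σ c : ℝ) / c := by
  have hpos : (0 : ℝ) < c := by exact_mod_cast hc.pos h
  rw [up_eq h hc]
  push_cast
  field_simp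

private theorem clus_split (h : WS σ) (hP : ∀ a b, IsP (a, b) ↔ b = σ a) :
    L = Clus (Lo σ) (fun c => (σ c : ℝ) / c) ∪ Clus (Up σ) (fun c => (σ c : ℝ) / c) := by
  rw [L_eq_clus hP]
  apply clus_or
  intro c
  constructor
  · intro hc
    exact col_cases h hc
  · rintro (hc | hc)
    · exact hc.col
    · exact hc.col

private theorem up_clus (h : WS σ) (x : ℝ) :
    x ∈ Clus (Up σ) (fun c => (σ c : ℝ) / c) ↔
      x - 2 ∈ Clus (Up σ) (fun c => (rk σ c : ℝ) / c) := by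
  have key : ∀ c, Up σ c → (σ c : ℝ) / c - x = (rk σ c : ℝ) / c - (x - 2) := by
    intro c hc
    rw [up_val h hc]; ring
  constructor
  · intro hx ε hε N
    obtain ⟨c, h1, h2, h3⟩ := hx ε hε N
    refine ⟨c, h1, h2, ?_⟩
    have := key c h2
    simp only at h3 ⊢
    rw [← this]; exact h3
  · intro hx ε hε N
    obtain ⟨c, h1, h2, h3⟩ := hx ε hε N
    refine ⟨c, h1, h2, ?_⟩
    have := key c h2
    simp only at h3 ⊢
    rw [this]; exact h3

private theorem up_bounds (h : WS σ) {c : ℕ} (hc : Up σ c) :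
    (2 : ℝ) ≤ (σ c : ℝ) / c ∧ (σ c : ℝ) / c ≤ 3 := by
  have hpos : (0 : ℝ) < c := by exact_mod_cast hc.pos h
  have h1 := sig_le h hc.col
  have h2 : 2 * c < σ c := hc
  constructor
  · rw [le_div_iff₀ hpos]
    exact_mod_cast h2.le
  · rw [div_le_iff₀ hpos]
    exact_mod_cast h1

theorem L_gt (h : WS σ) (hP : ∀ a b, IsP (a, b) ↔ b = σ a) (x : ℝ) (hx : 2 < x) :
    x ∈ L ↔ x - 2 ∈ Clus (Up σ) (fun c => (rk σ c : ℝ) / c) := by
  rw [clus_split h hP, ← up_clus h x]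
  constructor
  · rintro (h1 | h1)
    · have := clus_bounds (Lo σ) (fun c => (σ c : ℝ) / c) 1 2 0
        (fun c _ hc => lo_bounds hc) x h1
      linarith [this.2]
    · exact h1
  · intro h1
    exact Or.inr h1

theorem L_lt (h : WS σ) (hP : ∀ a b, IsP (a, b) ↔ b = σ a) (x : ℝ) (hx : x < 2) :
    x ∈ L ↔ x ∈ Clus (Lo σ) (fun c => (σ c : ℝ) / c) := by
  rw [clus_split h hP]
  constructor
  · rintro (h1 | h1)
    · exact h1
    · have := clus_bounds (Up σ) (fun c => (σ c : ℝ) / c) 2 3 0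
        (fun c _ hc => up_bounds h hc) x h1
      linarith [this.1]
  · intro h1
    exact Or.inl h1

theorem L_lo (h : WS σ) (hP : ∀ a b, IsP (a, b) ↔ b = σ a) (x : ℝ)
    (hx : x ∈ Clus (Lo σ) (fun c => (σ c : ℝ) / c)) : x ∈ L ∧ x ≤ 2 := by
  refine ⟨?_, ?_⟩
  · rw [clus_split h hP]
    exact Or.inl hx
  · exact (clus_bounds (Lo σ) (fun c => (σ c : ℝ) / c) 1 2 0
      (fun c _ hc => lo_bounds hc) x hx).2

theorem L_up (h : WS σ) (hP : ∀ a b, IsP (a, b) ↔ b = σ a) (x : ℝ)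
    (hx : x ∈ Clus (Up σ) (fun c => (rk σ c : ℝ) / c)) : x + 2 ∈ L := by
  rw [clus_split h hP]
  refine Or.inr ((up_clus h (x + 2)).2 ?_)
  have : x + 2 - 2 = x := by ring
  rw [this]; exact hx

theorem L_bounds (h : WS σ) (hP : ∀ a b, IsP (a, b) ↔ b = σ a) (x : ℝ) (hx : x ∈ L) :
    1 ≤ x ∧ x ≤ 3 := by
  rw [clus_split h hP] at hx
  rcases hx with h1 | h1
  · have := clus_bounds (Lo σ) (fun c => (σ c : ℝ) / c) 1 2 0
      (fun c _ hc => lo_bounds hc) x h1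
    exact ⟨this.1, by linarith [this.2]⟩
  · have := clus_bounds (Up σ) (fun c => (σ c : ℝ) / c) 2 3 0
      (fun c _ hc => up_bounds h hc) x h1
    exact ⟨by linarith [this.1], this.2⟩

end Wyk
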