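import Pool.Agent.Wyk.ThmB
import Pool.Agent.Wyk.C1

/-!
# Enumeration of the upper columns (module UEnum)

By `up_density`, `rk σ` is unbounded, so by `exists_rk` for every `k` there is an upper column `u k`
with `rk σ (u k) = k + 1` (choice). If `k < l` then `u k < u l` (otherwise `rk_mono` gives
`l + 1 ≤ k + 1`). If `c` is upper, then `rk σ c ≥ 1` (`rk_pos`), and `u (rk σ c - 1) = c`, because two
upper columns of the same rank are equal (`rk_lt`).
-/

namespace Wyk

variable {σ : ℕ → ℕ}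

theorem up_enum (h : WS σ) : ∃ u : ℕ → ℕ, StrictMono u ∧
    (∀ k, Up σ (u k) ∧ rk σ (u k) = k + 1) ∧ ∀ c, Up σ c → ∃ k, u k = c := by
  have hex : ∀ k : ℕ, ∃ c, Up σ c ∧ rk σ c = k + 1 := by
    intro k
    have h1 : 2 ^ 100 ≤ 2 ^ 100 * (k + 1) := Nat.le_mul_of_pos_right _ (Nat.succ_pos k)
    have h2 := up_density h (2 ^ 100 * (k + 1)) h1
    have h3 : k + 1 < rk σ (2 ^ 100 * (k + 1)) :=
      lt_of_mul_lt_mul_left h2 (Nat.zero_le _)
    obtain ⟨c', _, hc2, hc3⟩ := exists_rk (σ := σ) (c := 2 ^ 100 * (k + 1)) (i := k + 1)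
      (Nat.succ_pos k) h3.le
    exact ⟨c', hc2, hc3⟩
  choose u hu using hex
  refine ⟨u, ?_, hu, ?_⟩
  · intro k l hkl
    by_contra hcon
    push Not at hcon
    have h1 := rk_mono σ hcon
    rw [(hu k).2, (hu l).2] at h1
    omega
  · intro c hc
    refine ⟨rk σ c - 1, ?_⟩
    have hp := rk_pos h hc
    have h1 : rk σ (u (rk σ c - 1)) = rk σ c := by
      rw [(hu _).2]; omega
    rcases lt_trichotomy (u (rk σ c - 1)) c with hlt | heq | hgt
    · have := rk_lt hlt hc
      omega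
    · exact heq
    · have := rk_lt hgt (hu (rk σ c - 1)).1
      omega

end Wyk
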