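import Mathlib

/-!
# Pointwise inequalities with `a = b = 0.3711` (module PtU)

`ptU_lo`: with `y = d/c ∈ (0,1)` and denominators cleared the claim is
`0.3711 - 0.5156 y - 2.2578 y² + 2.6289 y³ + 2 y⁴ ≥ 0` on `(0,1)`; the minimum is about `0.0003` at
`y ≈ 0.4778`. Hint: subtract `(y - 0.4778)² (2y² + p y + r)` with `p = 4.5401`, `r = 1.6237` or similar
rational numbers chosen such that the remainder is a small positive function, e.g. `r = 1.624`,
`p = 2.6289 + 4 * 0.4778`; or first reduce to a polynomial in one variable and use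
`nlinarith [sq_nonneg (y - 0.4778), ...]`.
`ptU_up`: `v(κ) = 1 + 1/(2+κ) - a/(1+κ) - b/(3+2κ)` is increasing on `[0,1]`,
`v(1) = 4/3 - 0.7 * 0.3711 = 1.07356... ≤ 1.0736`. (Clear denominators; polynomial inequality of
degree 3 in `κ ∈ (0,1]`, with equality margin `4e-5` at `κ = 1`.)
-/

namespace Wyk

private theorem ptU_poly (y : ℝ) (h0 : 0 < y) (h1 : y < 1) :
    0 < 0.3711 - 0.5156 * y - 2.2578 * y ^ 2 + 2.6289 * y ^ 3 + 2 * y ^ 4 := by
  have h : 0 ≤ (y - 0.4778) ^ 2 * (2 * y ^ 2 + 4.5401 * y + 1.62413) := by positivity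
  nlinarith [h, h0, h1, mul_pos h0 (sub_pos.2 h1)]

theorem ptU_lo (c d : ℝ) (hd : 0 < d) (hdc : d < c) :
    1 / c + 1 / (c + d) ≤ 0.3711 / d + 0.3711 * (1 / (c - d) + 1 / (c + 2 * d)) := by
  have hc : 0 < c := hd.trans hdc
  have hy0 : 0 < d / c := div_pos hd hc
  have hy1 : d / c < 1 := (div_lt_one hc).2 hdc
  have hp := ptU_poly (d / c) hy0 hy1
  have hcd : 0 < c - d := sub_pos.2 hdc
  have h2 : 0 < c + d := by positivity
  have h3 : 0 < c + 2 * d := by positivity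
  have key : 0 < 0.3711 * c ^ 4 - 0.5156 * d * c ^ 3 - 2.2578 * d ^ 2 * c ^ 2
      + 2.6289 * d ^ 3 * c + 2 * d ^ 4 := by
    have : 0.3711 * c ^ 4 - 0.5156 * d * c ^ 3 - 2.2578 * d ^ 2 * c ^ 2
      + 2.6289 * d ^ 3 * c + 2 * d ^ 4 = c ^ 4 * (0.3711 - 0.5156 * (d / c) - 2.2578 * (d / c) ^ 2
        + 2.6289 * (d / c) ^ 3 + 2 * (d / c) ^ 4) := by
      field_simp
    rw [this]; positivity
  have e : 0.3711 / d + 0.3711 * (1 / (c - d) + 1 / (c + 2 * d)) - (1 / c + 1 / (c + d)) =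
      (0.3711 * c ^ 4 - 0.5156 * d * c ^ 3 - 2.2578 * d ^ 2 * c ^ 2
      + 2.6289 * d ^ 3 * c + 2 * d ^ 4) / (d * (c - d) * (c + 2 * d) * c * (c + d)) := by
    field_simp
    ring
  have : 0 ≤ 0.3711 / d + 0.3711 * (1 / (c - d) + 1 / (c + 2 * d)) - (1 / c + 1 / (c + d)) := by
    rw [e]; positivity
  linarith

/-- `c` the column, `k` its rank -/
theorem ptU_up (c k : ℝ) (hk : 0 < k) (hkc : k ≤ c) :
    1 / c + 1 / (2 * c + k) ≤ 0.3711 / (c + k) + 0.3711 / (3 * c + 2 * k) + 1.0736 / c := by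
  have hc : 0 < c := hk.trans_le hkc
  obtain ⟨t, rfl⟩ : ∃ t, c = k + t := ⟨c - k, by ring⟩
  have ht : 0 ≤ t := by linarith
  have e : 0.3711 / (k + t + k) + 0.3711 / (3 * (k + t) + 2 * k) + 1.0736 / (k + t)
      - (1 / (k + t) + 1 / (2 * (k + t) + k)) =
      (0.3711 * (3 * (k + t) + 2 * k) * (k + t) * (2 * (k + t) + k)
        + 0.3711 * (k + t + k) * (k + t) * (2 * (k + t) + k)
        + 0.0736 * (k + t + k) * (3 * (k + t) + 2 * k) * (2 * (k + t) + k)
        - (k + t) * (k + t + k) * (3 * (k + t) + 2 * k))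
        / ((k + t + k) * (3 * (k + t) + 2 * k) * (k + t) * (2 * (k + t) + k)) := by
    field_simp
    ring
  have key : 0 ≤ 0.3711 * (3 * (k + t) + 2 * k) * (k + t) * (2 * (k + t) + k)
        + 0.3711 * (k + t + k) * (k + t) * (2 * (k + t) + k)
        + 0.0736 * (k + t + k) * (3 * (k + t) + 2 * k) * (2 * (k + t) + k)
        - (k + t) * (k + t + k) * (3 * (k + t) + 2 * k) := by
    have h1 : 0 ≤ k ^ 3 := by positivity
    have h2 : 0 ≤ k ^ 2 * t := by positivity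
    have h3 : 0 ≤ k * t ^ 2 := by positivity
    have h4 : 0 ≤ t ^ 3 := by positivity
    nlinarith [h1, h2, h3, h4]
  have : 0 ≤ 0.3711 / (k + t + k) + 0.3711 / (3 * (k + t) + 2 * k) + 1.0736 / (k + t)
      - (1 / (k + t) + 1 / (2 * (k + t) + k)) := by
    rw [e]; positivity
  linarith

end Wyk
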