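import Pool.Agent.Wyk.Win
import Pool.Agent.Wyk.PtU

/-!
# The upper columns have lower logarithmic density at least 0.24 (module UpDens)

Apply `win` with `A = 1`, `a = b = 0.3711`, `e0 = 0`, `E c = if Up σ c then 1.0736 / c else 0`
(`ptU_lo` with `d = σ c - c`, `c - d = 2c - σ c`, `c + 2d = 2σ c - c`; `ptU_up` with `k = rk σ c`,
`σ c = 2c + k`). It gives
`Hs T1 T ≤ 0.3711 (Hs T1 (2T) + Hs T1 (5T)) + 1.0736 ∑_{ups σ T1 T} 1/c + 5`. With
`l = log(T/T1) ≥ 0`: `Hs T1 T ≥ log((T+1)/(T1+1)) ≥ l - log 2` (`T1 + 1 ≤ 2 T1`),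
`Hs T1 (2T) ≤ l + log 2`, `Hs T1 (5T) ≤ l + log 5`. So `1.0736 ∑ ≥ (1 - 0.7422) l - C'` and
`0.2578/1.0736 > 0.24`. (`C' = log 2 + 0.3711 log 10 + 5`; `C = C'/1.0736`, or simply `C = 8`.)
-/

open Finset

namespace Wyk

variable {σ : ℕ → ℕ}

theorem up_logdens (h : WS σ) : ∃ C : ℝ, ∀ T1 T : ℕ, 0 < T1 → T1 ≤ T →
    (24 / 100) * Real.log ((T : ℝ) / T1) - C ≤ ∑ c ∈ ups σ T1 T, 1 / (c : ℝ) := by
  refine ⟨8, fun T1 T h1 h2 => ?_⟩
  have hw := win h T1 T 1 0.3711 0.3711 0 (by norm_num) (by norm_num) (by norm_num) le_rfl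
    (fun c => if Up σ c then 1.0736 / (c : ℝ) else 0)
    (by
      intro c hc
      rw [mem_los] at hc
      have hn : ¬ Up σ c := by unfold Up; omega
      simp [hn])
    (by
      intro c hc
      rw [mem_los] at hc
      obtain ⟨_, hc1, hc2⟩ := hc
      have hn : ¬ Up σ c := by unfold Up; omega
      have e1 : (c : ℝ) < σ c := by exact_mod_cast hc1
      have e2 : (σ c : ℝ) < 2 * c := by exact_mod_cast hc2
      have := ptU_lo (c : ℝ) ((σ c : ℝ) - c) (by linarith) (by linarith)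
      have a1 : (c : ℝ) + ((σ c : ℝ) - c) = σ c := by ring
      have a2 : (c : ℝ) - ((σ c : ℝ) - c) = 2 * c - σ c := by ring
      have a3 : (c : ℝ) + 2 * ((σ c : ℝ) - c) = 2 * σ c - c := by ring
      rw [a1, a2, a3] at this
      simp only [hn, if_false, add_zero, one_mul]
      exact this)
    (by
      intro c hc
      rw [mem_ups] at hc
      have hu : Up σ c := hc.2
      have hk : 0 < rk σ c := rk_pos h hu
      have hkc : rk σ c ≤ c := rk_le σ c
      have e0 : (σ c : ℝ) = 2 * c + rk σ c := by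
        have := up_eq h hu
        rw [this]; push_cast; ring
      have := ptU_up (c : ℝ) (rk σ c : ℝ) (by exact_mod_cast hk) (by exact_mod_cast hkc)
      have a1 : (σ c : ℝ) - c = c + rk σ c := by rw [e0]; ring
      have a2 : 2 * (σ c : ℝ) - c = 3 * c + 2 * rk σ c := by rw [e0]; ring
      simp only [hu, if_true, one_mul]
      rw [a1, a2, e0]
      exact this)
  rw [sum_cols h] at hw
  have z1 : ∑ c ∈ los σ T1 T, (if Up σ c then 1.0736 / (c : ℝ) else 0) = 0 := by
    apply Finset.sum_eq_zero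
    intro c hc
    rw [mem_los] at hc
    have hn : ¬ Up σ c := by unfold Up; omega
    simp [hn]
  have z2 : ∑ c ∈ ups σ T1 T, (if Up σ c then 1.0736 / (c : ℝ) else 0) =
      1.0736 * ∑ c ∈ ups σ T1 T, 1 / (c : ℝ) := by
    rw [Finset.mul_sum]
    apply Finset.sum_congr rfl
    intro c hc
    rw [mem_ups] at hc
    have hu : Up σ c := hc.2
    simp only [hu, if_true]
    ring
  rw [z1, z2] at hw
  have hT1 : (0 : ℝ) < T1 := by exact_mod_cast h1
  have hT1' : (1 : ℝ) ≤ T1 := by exact_mod_cast h1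
  have hTT : (T1 : ℝ) ≤ T := by exact_mod_cast h2
  have hT : (0 : ℝ) < T := hT1.trans_le hTT
  have l0 : 0 ≤ Real.log ((T : ℝ) / T1) := Real.log_nonneg ((one_le_div hT1).2 hTT)
  have b1 : Real.log ((T : ℝ) / T1) - Real.log 2 ≤ Hs T1 T := by
    refine le_trans ?_ (Hs_ge T1 T h2)
    rw [← Real.log_div (by positivity) (by norm_num)]
    apply Real.log_le_log (by positivity)
    rw [div_div, div_le_div_iff₀ (by positivity) (by positivity)]
    nlinarith
  have b2 : Hs T1 (2 * T) ≤ Real.log ((T : ℝ) / T1) + Real.log 2 := by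
    refine (Hs_le T1 (2 * T) h1 (by omega)).trans ?_
    rw [← Real.log_mul (by positivity) (by norm_num)]
    apply le_of_eq
    congr 1
    push_cast; ring
  have b3 : Hs T1 (5 * T) ≤ Real.log ((T : ℝ) / T1) + Real.log 5 := by
    refine (Hs_le T1 (5 * T) h1 (by omega)).trans ?_
    rw [← Real.log_mul (by positivity) (by norm_num)]
    apply le_of_eq
    congr 1
    push_cast; ring
  have c1 : Real.log 2 ≤ 0.6932 := by
    have := Real.log_two_lt_d9; linarith
  have c2 : Real.log 5 ≤ 3 * Real.log 2 := by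
    have : Real.log 8 = 3 * Real.log 2 := by
      rw [show (8 : ℝ) = 2 ^ (3 : ℕ) by norm_num, Real.log_pow]; norm_num
    rw [← this]
    exact Real.log_le_log (by norm_num) (by norm_num)
  nlinarith [hw, b1, b2, b3, c1, c2, l0]

end Wyk
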