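import Pool.Agent.Wyk.Game2
import Pool.Agent.Wyk.Trans
import Pool.Agent.Wyk.LInt
import Pool.Agent.Wyk.ThmC
import Pool.Agent.Wyk.MLLim
import Pool.Agent.Wyk.ENum
import Pool.Agent.Wyk.UEnum
import Pool.Agent.Wyk.DDens
import Pool.Agent.Wyk.UpDens

open Set

namespace Wyk

variable {σ : ℕ → ℕ}

/-- points of `L` above 2 -/
theorem fin_gt (h : WS σ) (hP : ∀ a b, IsP (a, b) ↔ b = σ a) {s1 s2 : ℝ} (h1 : 0 < s1)
    (hK : Clus (Up σ) (fun c => (rk σ c : ℝ) / c) = Set.Icc s1 s2) :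
    L ∩ Set.Ioi 2 = Set.Icc (2 + s1) (2 + s2) := by
  ext x
  simp only [Set.mem_inter_iff, Set.mem_Ioi, Set.mem_Icc]
  constructor
  · rintro ⟨hx, hx2⟩
    have := (L_gt h hP x hx2).1 hx
    rw [hK] at this
    exact ⟨by linarith [this.1], by linarith [this.2]⟩
  · rintro ⟨hx1, hx2⟩
    have hx : 2 < x := by linarith
    refine ⟨(L_gt h hP x hx).2 ?_, hx⟩
    rw [hK]
    exact ⟨by linarith, by linarith⟩

/-- the slopes of the upper columns are eventually at most `s2 + ε` -/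
theorem fin_lim (h : WS σ) {s1 s2 : ℝ}
    (hK : Clus (Up σ) (fun c => (rk σ c : ℝ) / c) = Set.Icc s1 s2) (ε : ℝ) (hε : 0 < ε) :
    ∃ N : ℕ, ∀ c, N < c → Up σ c → (rk σ c : ℝ) / c < s2 + ε := by
  by_contra hcon
  push Not at hcon
  have hb : ∀ N : ℕ, ∃ c, N < c ∧ Up σ c ∧ s2 + ε ≤ (rk σ c : ℝ) / c ∧ (rk σ c : ℝ) / c ≤ 1 := by
    intro N
    obtain ⟨c, hc, hu, hk⟩ := hcon N
    refine ⟨c, hc, hu, hk, ?_⟩
    have hc0 : (0 : ℝ) < c := by exact_mod_cast Up.pos h hu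
    rw [div_le_one hc0]
    exact_mod_cast rk_le σ c
  obtain ⟨x, hx, hx1, -⟩ := clus_bw (Up σ) (fun c => (rk σ c : ℝ) / c) (s2 + ε) 1 hb
  rw [hK] at hx
  linarith [hx.2]

theorem fin_ge (h : WS σ) {s1 s2 s B : ℝ} (hs1 : 0.2477 < s) (hs2 : s < 0.2478)
    (hB1 : 1.4777 < B) (hB2 : B < 1.4779) (hD : eqD s B) (hE : eqE s B)
    (hK : Clus (Up σ) (fun c => (rk σ c : ℝ) / c) = Set.Icc s1 s2) : s ≤ s2 := by
  by_contra hcon
  push Not at hcon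
  obtain ⟨N, hN⟩ := fin_lim h hK ((s - s2) / 2) (by linarith)
  obtain ⟨c, hc, hu, hk⟩ := d_sup h s B hs1 hs2 hB1 hB2 hD hE ((s - s2) / 2) (by linarith) N
  have := hN c hc hu
  linarith

/-- eventually bounds for the lower columns -/
theorem lo_ratio {c : ℕ} (hc : Lo σ c) : 1 ≤ (σ c : ℝ) / c ∧ (σ c : ℝ) / c ≤ 2 := by
  have hc0 : (0 : ℝ) < c := by exact_mod_cast Lo.pos hc
  obtain ⟨h1, h2⟩ := hc
  constructor
  · rw [le_div_iff₀ hc0, one_mul]; exact_mod_cast h1.le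
  · rw [div_le_iff₀ hc0]; exact_mod_cast h2.le

theorem up_ratio (h : WS σ) {c : ℕ} (hc : Up σ c) :
    0 ≤ (rk σ c : ℝ) / c ∧ (rk σ c : ℝ) / c ≤ 1 := by
  have hc0 : (0 : ℝ) < c := by exact_mod_cast Up.pos h hc
  constructor
  · positivity
  · rw [div_le_one hc0]; exact_mod_cast rk_le σ c

theorem exists_low (h : WS σ) (hP : ∀ a b, IsP (a, b) ↔ b = σ a) : ∃ x ∈ L, 1 ≤ x ∧ x ≤ 9 / 5 := by
  obtain ⟨x, hx, hx1, hx2⟩ := clus_bw (Lo σ) (fun c => (σ c : ℝ) / c) 1 (9 / 5) (by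
    intro N
    obtain ⟨c, hc, hl, hk⟩ := thmC h N
    exact ⟨c, hc, hl, (lo_ratio hl).1, hk⟩)
  exact ⟨x, (L_lo h hP x hx).1, hx1, hx2⟩

/-- the two-beam case -/
theorem fin_two (h : WS σ) (hP : ∀ a b, IsP (a, b) ↔ b = σ a) {s1 s2 s B : ℝ} (h1 : 0 < s1)
    (h13 : s1 ≤ Real.sqrt 3 - 1) (h12 : s1 ≤ s2)
    (hs1 : 0.2477 < s) (hs2 : s < 0.2478) (hB1 : 1.4777 < B) (hB2 : B < 1.4779)
    (hD : eqD s B) (hE : eqE s B) (hs : s ≤ s2)
    (hK : Clus (Up σ) (fun c => (rk σ c : ℝ) / c) = Set.Icc s1 s2)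
    (α β : ℝ) (hαβ : β < α) (hL : L = {α, β}) :
    2 + s ≤ α ∧ (α = 2 + s → β = B) ∧ α ≤ 1 + Real.sqrt 3 ∧ 1 ≤ β ∧ β ≤ 9 / 5 ∧
      β * (1 + (α - 2)) * (2 - 2 * (α - 2) - (α - 2) ^ 2) ≤ (2 + (α - 2)) * (β ^ 2 - 1) ∧
      β * (3 + 2 * (α - 2)) * (2 - 2 * (α - 2) - (α - 2) ^ 2) ≤
        (2 + (α - 2)) * (3 + (α - 2)) * (2 - β) * (2 * β - 1) := by
  have hgt := fin_gt h hP h1 hK
  -- `2 + s1` and `2 + s2` are in `L`
  have hm1 : 2 + s1 ∈ L := by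
    have : 2 + s1 ∈ L ∩ Set.Ioi 2 := by rw [hgt]; exact ⟨le_refl _, by linarith⟩
    exact this.1
  have hm2 : 2 + s2 ∈ L := by
    have : 2 + s2 ∈ L ∩ Set.Ioi 2 := by rw [hgt]; exact ⟨by linarith, le_refl _⟩
    exact this.1
  obtain ⟨x, hx, hx1, hx2⟩ := exists_low h hP
  rw [hL] at hx hm1 hm2
  simp only [Set.mem_insert_iff, Set.mem_singleton_iff] at hx hm1 hm2
  -- β ≤ 9/5
  have hβ : β = x := by
    rcases hx with hx | hx
    · exfalso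
      rcases hm1 with hm | hm
      · linarith
      · linarith
    · exact hx.symm
  have hβ1 : 1 ≤ β := by linarith
  have hβ2 : β ≤ 9 / 5 := by linarith
  have hα1 : α = 2 + s1 := by
    rcases hm1 with hm | hm
    · exact hm.symm
    · exfalso; linarith
  have hα2 : α = 2 + s2 := by
    rcases hm2 with hm | hm
    · exact hm.symm
    · exfalso; linarith
  have hs12 : s1 = s2 := by linarith
  -- limits
  have hU : ∀ ε : ℝ, 0 < ε → ∃ N : ℕ, ∀ c, N < c → Up σ c → |(rk σ c : ℝ) / c - s2| < ε := by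
    apply clus_conv (Up σ) (fun c => (rk σ c : ℝ) / c) 0 1 0
    · intro c _ hc; exact up_ratio h hc
    · intro y hy
      rw [hK] at hy
      obtain ⟨hy1, hy2⟩ := hy
      linarith
  have hLo : ∀ ε : ℝ, 0 < ε → ∃ N : ℕ, ∀ c, N < c → Lo σ c → |(σ c : ℝ) / c - β| < ε := by
    apply clus_conv (Lo σ) (fun c => (σ c : ℝ) / c) 1 2 0
    · intro c _ hc; exact lo_ratio hc
    · intro y hy
      have hy' := L_lo h hP y hy
      have hy1 := hy'.1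
      rw [hL] at hy1
      simp only [Set.mem_insert_iff, Set.mem_singleton_iff] at hy1
      rcases hy1 with hy1 | hy1
      · exfalso; linarith [hy'.2]
      · exact hy1
  have htwo := two_beams h s2 β (by linarith) hβ1 (by linarith) hU hLo
  have hα' : α - 2 = s2 := by linarith
  rw [hα']
  refine ⟨by linarith, ?_, by linarith, hβ1, hβ2, htwo.1, htwo.2⟩
  intro hαs
  have hs2s : s2 = s := by linarith
  have hBm : B ∈ Clus (Lo σ) (fun c => (σ c : ℝ) / c) := by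
    intro ε hε N
    refine d_beta h s B hs1 hs2 hB1 hB2 hD hE ?_ ε hε N
    intro ε' hε'
    obtain ⟨N', hN'⟩ := fin_lim h hK ε' hε'
    exact ⟨N', fun c hc hu => by have := hN' c hc hu; rw [← hs2s]; exact this⟩
  have hBL := L_lo h hP B hBm
  have := hBL.1
  rw [hL] at this
  simp only [Set.mem_insert_iff, Set.mem_singleton_iff] at this
  rcases this with h' | h'
  · exfalso; linarith [hBL.2]
  · exact h'.symm

open Classical in
/-- lower logarithmic density of the upper positions -/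
theorem fin_dens (h : WS σ) (hP : ∀ a b, IsP (a, b) ↔ b = σ a) :
    ∃ C : ℝ, ∀ T₁ T : ℕ, 0 < T₁ → T₁ ≤ T →
      (24 / 100) * Real.log ((T : ℝ) / T₁) - C ≤
        ∑ a ∈ (Finset.Ioc T₁ T).filter (fun a => ∃ b, IsP (a, b) ∧ 2 * a < b), 1 / (a : ℝ) := by
  obtain ⟨C, hC⟩ := up_logdens h
  refine ⟨C, fun T₁ T h1 h2 => ?_⟩
  have hs : (Finset.Ioc T₁ T).filter (fun a => ∃ b, IsP (a, b) ∧ 2 * a < b) = ups σ T₁ T := by
    ext a
    rw [mem_ups, Finset.mem_filter, Finset.mem_Ioc]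
    constructor
    · rintro ⟨h3, b, hb, hab⟩
      rw [hP] at hb
      subst hb
      exact ⟨h3, hab⟩
    · rintro ⟨h3, h4⟩
      exact ⟨h3, σ a, (hP a _).2 rfl, h4⟩
  rw [hs]
  exact hC T₁ T h1 h2

open Classical in
/-- rigidity in logarithmic density -/
theorem fin_rigid (h : WS σ) (hP : ∀ a b, IsP (a, b) ↔ b = σ a) (s B : ℝ) (hs1 : 0.2477 < s)
    (hs2 : s < 0.2478) (hB1 : 1.4777 < B) (hB2 : B < 1.4779) (hD : eqD s B) (hE : eqE s B)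
    (hlim : ∀ ε : ℝ, 0 < ε → ∃ N : ℕ, ∀ c, N < c → Up σ c → (rk σ c : ℝ) / c < s + ε)
    (ε η : ℝ) (hε : 0 < ε) (hη : 0 < η) :
    ∃ C : ℝ, ∀ T₁ T : ℕ, 0 < T₁ → T₁ ≤ T →
      ∑ a ∈ (Finset.Ioc T₁ T).filter (fun a => ∃ b, IsP (a, b) ∧ a < b ∧
          ε ≤ |(b : ℝ) / a - (2 + s)| ∧ ε ≤ |(b : ℝ) / a - B|), 1 / (a : ℝ)
        ≤ η * Real.log ((T : ℝ) / T₁) + C := by
  obtain ⟨N, hN⟩ := hlim ε hε
  obtain ⟨C, hC⟩ := d_dens h s B hs1 hs2 hB1 hB2 hD hE hlim ε η hε hη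
  refine ⟨C + N, fun T₁ T h1 h2 => ?_⟩
  have hsub : (Finset.Ioc T₁ T).filter (fun a => ∃ b, IsP (a, b) ∧ a < b ∧
      ε ≤ |(b : ℝ) / a - (2 + s)| ∧ ε ≤ |(b : ℝ) / a - B|) ⊆
      ((los σ T₁ T).filter (fun c => ε ≤ |(σ c : ℝ) / c - B|) ∪
        (ups σ T₁ T).filter (fun c => (rk σ c : ℝ) / c ≤ s - ε)) ∪ Finset.Icc 1 N := by
    intro a ha
    rw [Finset.mem_filter, Finset.mem_Ioc] at ha
    obtain ⟨⟨h3, h4⟩, b, hb, hab, he1, he2⟩ := ha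
    rw [hP] at hb
    subst hb
    simp only [Finset.mem_union, Finset.mem_filter, Finset.mem_Icc]
    by_cases haN : a ≤ N
    · right; omega
    · left
      rcases col_cases h (c := a) hab with hl | hu
      · left
        refine ⟨?_, he2⟩
        rw [mem_los]; exact ⟨⟨h3, h4⟩, hl⟩
      · right
        refine ⟨?_, ?_⟩
        · rw [mem_ups]; exact ⟨⟨h3, h4⟩, hu⟩
        · have ha0 : (0 : ℝ) < a := by exact_mod_cast Up.pos h hu
          have hlt := hN a (by omega) hu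
          have heq : (σ a : ℝ) / a = 2 + (rk σ a : ℝ) / a := by
            rw [up_eq h hu]; push_cast; field_simp
          rw [heq] at he1
          rcases abs_cases (2 + (rk σ a : ℝ) / a - (2 + s)) with h' | h' <;> linarith [h'.1, h'.2]
  have hnn : ∀ a : ℕ, (0 : ℝ) ≤ 1 / (a : ℝ) := fun a => by positivity
  have hun : ∀ (A₁ A₂ : Finset ℕ), ∑ a ∈ A₁ ∪ A₂, 1 / (a : ℝ) ≤
      ∑ a ∈ A₁, 1 / (a : ℝ) + ∑ a ∈ A₂, 1 / (a : ℝ) := by
    intro A₁ A₂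
    have := Finset.sum_union_inter (s₁ := A₁) (s₂ := A₂) (f := fun a : ℕ => 1 / (a : ℝ))
    have h5 : 0 ≤ ∑ a ∈ A₁ ∩ A₂, 1 / (a : ℝ) := Finset.sum_nonneg (fun a _ => hnn a)
    linarith
  have h6 := Finset.sum_le_sum_of_subset_of_nonneg hsub (f := fun a : ℕ => 1 / (a : ℝ))
    (fun a _ _ => hnn a)
  have h7 := hun ((los σ T₁ T).filter (fun c => ε ≤ |(σ c : ℝ) / c - B|) ∪
        (ups σ T₁ T).filter (fun c => (rk σ c : ℝ) / c ≤ s - ε)) (Finset.Icc 1 N)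
  have h8 := hun ((los σ T₁ T).filter (fun c => ε ≤ |(σ c : ℝ) / c - B|))
        ((ups σ T₁ T).filter (fun c => (rk σ c : ℝ) / c ≤ s - ε))
  have h9 : ∑ a ∈ Finset.Icc 1 N, 1 / (a : ℝ) ≤ N := by
    calc ∑ a ∈ Finset.Icc 1 N, 1 / (a : ℝ) ≤ ∑ a ∈ Finset.Icc 1 N, (1 : ℝ) := by
          apply Finset.sum_le_sum
          intro a ha
          rw [Finset.mem_Icc] at ha
          have : (1 : ℝ) ≤ a := by exact_mod_cast ha.1
          rw [div_le_one (by linarith)]; exact this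
      _ = N := by simp
  have h10 := hC T₁ T h1 h2
  linarith

open Classical in
theorem main :
    (∀ a : ℕ, ∃! b : ℕ, IsP (a, b)) ∧
    (∀ a b : ℕ, IsP (a, b) → a < b → b ≤ 3 * a) ∧
    (∃ u : ℕ → ℕ, StrictMono u ∧
      ∀ a b : ℕ, (IsP (a, b) ∧ 2 * a < b) ↔ ∃ k, a = u k ∧ b = 2 * u k + (k + 1)) ∧
    (∃ C : ℝ, ∀ T₁ T : ℕ, 0 < T₁ → T₁ ≤ T →
      (24 / 100) * Real.log ((T : ℝ) / T₁) - C ≤
        ∑ a ∈ (Finset.Ioc T₁ T).filter (fun a => ∃ b, IsP (a, b) ∧ 2 * a < b), 1 / (a : ℝ)) ∧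
    (∃ x ∈ L, 1 ≤ x ∧ x ≤ 9 / 5) ∧
    ∃ A B : ℝ, (2.24772558 < A ∧ A < 2.24772559) ∧ (1.4777997 < B ∧ B < 1.4777998) ∧
      B * (A - 1) * (2 + 2 * A - A ^ 2) = A * (B ^ 2 - 1) ∧
      B * (2 * A - 1) * (2 + 2 * A - A ^ 2) = A * (A + 1) * (2 - B) * (2 * B - 1) ∧
      (∀ A' B' : ℝ, 2 < A' → A' < 3 → 1 < B' → B' < 2 →
        B' * (A' - 1) * (2 + 2 * A' - A' ^ 2) = A' * (B' ^ 2 - 1) →
        B' * (2 * A' - 1) * (2 + 2 * A' - A' ^ 2) = A' * (A' + 1) * (2 - B') * (2 * B' - 1) →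
        A' = A ∧ B' = B) ∧
      (∃ l u : ℝ, 2 + 1 / 2 ^ 100 ≤ l ∧ l ≤ 1 + Real.sqrt 3 ∧ l ≤ u ∧ A ≤ u ∧ u ≤ 3 ∧
        L ∩ Set.Ioi 2 = Set.Icc l u ∧
        (u = A → B ∈ L ∧ ∀ ε η : ℝ, 0 < ε → 0 < η → ∃ C : ℝ, ∀ T₁ T : ℕ, 0 < T₁ → T₁ ≤ T →
          ∑ a ∈ (Finset.Ioc T₁ T).filter (fun a => ∃ b, IsP (a, b) ∧ a < b ∧
            ε ≤ |(b : ℝ) / a - A| ∧ ε ≤ |(b : ℝ) / a - B|), 1 / (a : ℝ)
          ≤ η * Real.log ((T : ℝ) / T₁) + C)) ∧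
      (∀ α β : ℝ, β < α → L = {α, β} →
        A ≤ α ∧ (α = A → β = B) ∧ α ≤ 1 + Real.sqrt 3 ∧ 1 ≤ β ∧ β ≤ 9 / 5 ∧
        β * (α - 1) * (2 + 2 * α - α ^ 2) ≤ α * (β ^ 2 - 1) ∧
        β * (2 * α - 1) * (2 + 2 * α - α ^ 2) ≤ α * (α + 1) * (2 - β) * (2 * β - 1) ∧
        (α ≤ 2.27 → 1.46 < β ∧ β < 1.51)) := by
  obtain ⟨σ, h, hP⟩ := exists_ws
  obtain ⟨s, B, hs, hB, hD, hE⟩ := cert_exists
  obtain ⟨s1, s2, h1, h13, h12, h21, hK⟩ := up_interval h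
  have hs1 : (0.2477 : ℝ) < s := by linarith [hs.1]
  have hs2 : s < (0.2478 : ℝ) := by linarith [hs.2]
  have hB1 : (1.4777 : ℝ) < B := by linarith [hB.1]
  have hB2 : B < (1.4779 : ℝ) := by linarith [hB.2]
  have h1' : 0 < s1 := lt_of_lt_of_le (by positivity) h1
  have hge : s ≤ s2 := fin_ge h hs1 hs2 hB1 hB2 hD hE hK
  refine ⟨?_, ?_, ?_, fin_dens h hP, exists_low h hP, ?_⟩
  · intro a
    exact ⟨σ a, (hP a _).2 rfl, fun b hb => (hP a b).1 hb⟩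
  · intro a b hab hlt
    rw [hP] at hab
    subst hab
    exact sig_le h hlt
  · obtain ⟨u, hu, hu1, hu2⟩ := up_enum h
    refine ⟨u, hu, ?_⟩
    intro a b
    constructor
    · rintro ⟨hab, hlt⟩
      rw [hP] at hab
      subst hab
      obtain ⟨k, hk⟩ := hu2 a hlt
      refine ⟨k, hk.symm, ?_⟩
      have := up_eq h (hu1 k).1
      rw [(hu1 k).2] at this
      rw [← hk]; exact this
    · rintro ⟨k, rfl, rfl⟩
      have := up_eq h (hu1 k).1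
      rw [(hu1 k).2] at this
      refine ⟨(hP _ _).2 this.symm, by omega⟩
  · refine ⟨2 + s, B, ⟨by linarith [hs.1], by linarith [hs.2]⟩, hB, ?_, ?_, ?_, ?_, ?_⟩
    · unfold eqD at hD; nlinarith [hD]
    · unfold eqE at hE; nlinarith [hE]
    · intro A' B' hA2 hA3 hB1' hB2' e1 e2
      have := cert_unique (A' - 2) B' s B (by linarith) (by linarith) hB1' hB2'
        (by linarith [hs.1]) (by linarith [hs.2]) (by linarith [hB.1]) (by linarith [hB.2])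
        (by unfold eqD; nlinarith [e1]) (by unfold eqE; nlinarith [e2]) hD hE
      exact ⟨by linarith [this.1], this.2⟩
    · refine ⟨2 + s1, 2 + s2, by linarith, by linarith, by linarith, by linarith, by linarith,
        fin_gt h hP h1' hK, ?_⟩
      intro hu
      have hs2s : s2 = s := by linarith
      have hlim : ∀ ε : ℝ, 0 < ε → ∃ N : ℕ, ∀ c, N < c → Up σ c →
          (rk σ c : ℝ) / c < s + ε := by
        intro ε' hε'
        obtain ⟨N', hN'⟩ := fin_lim h hK ε' hε'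
        exact ⟨N', fun c hc hu => by have := hN' c hc hu; rw [← hs2s]; exact this⟩
      have hBm : B ∈ Clus (Lo σ) (fun c => (σ c : ℝ) / c) := fun ε hε N =>
        d_beta h s B hs1 hs2 hB1 hB2 hD hE hlim ε hε N
      exact ⟨(L_lo h hP B hBm).1, fun ε η hε hη =>
        fin_rigid h hP s B hs1 hs2 hB1 hB2 hD hE hlim ε η hε hη⟩
    · intro α β hαβ hL
      obtain ⟨g1, g2, g3, g4, g5, g6, g7⟩ :=
        fin_two h hP h1' h13 h12 hs1 hs2 hB1 hB2 hD hE hge hK α β hαβ hL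
      refine ⟨g1, g2, g3, g4, g5, by nlinarith [g6], by nlinarith [g7], ?_⟩
      intro hα
      exact e_num (α - 2) β (by linarith) (by linarith) g4 (by linarith) g6 g7

end Wyk
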