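import Pool.Agent.Wyk.Defs

/-!
# The game: one P-position in each column (module Game1)

Proofs.
* `move_swap`: `Move (a,b) (c,d) ↔ Move (b,a) (d,c)`: the list of moves is symmetric.
* `isP_swap`: strong induction on `a + b` (or `move_wf.induction`) with `isP_iff` and `move_swap`.
* `isP_zero`: there is no move from `(0,0)` (`move_lt`).
* `isP_uniq`: if `IsP (a,b)`, `IsP (a,b')` and `b < b'`, then `(a,b') → (a,b)` is a move
  (`x = b' - b`), contradiction with `isP_iff`; symmetric for `b' < b`.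
* `isP_exists`: suppose that no `(a,b)` is a P-position. For every `b`, by `isP_iff`, some move leads
  from `(a,b)` to a P-position `q`; it is not a move `(0,x)` (then `q = (a, ·)`). So with
  `c = q.1 < a` and `d = q.2`: `b = d` or `b = d + (a-c)` or `b = d + 2(a-c)` or
  (`a - c = 2x`, `b = d + x`), in each case `b ≤ d + 2a`. For every `c < a` there is at most one `d`
  with `IsP (c,d)` (`isP_uniq`); let `D c` be it if it exists, `0` otherwise (classical choice), and
  `B` = an upper bound of `D c` over `c < a` (e.g. `∑ c ∈ range a, D c`). Then every `b` is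
  `≤ B + 2a`: contradiction for `b = B + 2a + 1`.
-/

namespace Wyk

private theorem game1_swap_imp (a b c d : ℕ) (h : Move (a, b) (c, d)) : Move (b, a) (d, c) := by
  obtain ⟨x, hx, h⟩ := h
  refine ⟨x, hx, ?_⟩
  simp only at h ⊢
  rcases h with ⟨h1, h2⟩ | ⟨h1, h2⟩ | ⟨h1, h2⟩ | ⟨h1, h2⟩ | ⟨h1, h2⟩
  · exact Or.inr (Or.inl ⟨h2, h1⟩)
  · exact Or.inl ⟨h2, h1⟩
  · exact Or.inr (Or.inr (Or.inl ⟨h2, h1⟩))
  · exact Or.inr (Or.inr (Or.inr (Or.inr ⟨h2, h1⟩)))
  · exact Or.inr (Or.inr (Or.inr (Or.inl ⟨h2, h1⟩)))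

theorem move_swap (a b c d : ℕ) : Move (a, b) (c, d) ↔ Move (b, a) (d, c) :=
  ⟨game1_swap_imp a b c d, game1_swap_imp b a d c⟩

theorem isP_swap (a b : ℕ) : IsP (a, b) ↔ IsP (b, a) := by
  have key : ∀ p : ℕ × ℕ, IsP p ↔ IsP (p.2, p.1) := by
    intro p
    induction p using move_wf.induction with
    | _ p ih =>
      rw [isP_iff p, isP_iff (p.2, p.1)]
      constructor
      · intro h q hq hqP
        have hm : Move p (q.2, q.1) := (move_swap p.2 p.1 q.1 q.2).1 hq
        exact h (q.2, q.1) hm ((ih (q.2, q.1) hm).2 hqP)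
      · intro h q hq hqP
        have hm : Move (p.2, p.1) (q.2, q.1) := (move_swap p.1 p.2 q.1 q.2).1 hq
        exact h (q.2, q.1) hm ((ih q hq).1 hqP)
  exact key (a, b)

theorem isP_zero : IsP (0, 0) := by
  rw [isP_iff]
  intro q hq
  have := move_lt hq
  simp at this

theorem isP_uniq (a b b' : ℕ) (h : IsP (a, b)) (h' : IsP (a, b')) : b = b' := by
  rcases lt_trichotomy b b' with hlt | heq | hlt
  · exact absurd h ((isP_iff _).1 h' (a, b) ⟨b' - b, by omega, Or.inl ⟨rfl, by simp only; omega⟩⟩)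
  · exact heq
  · exact absurd h' ((isP_iff _).1 h (a, b') ⟨b - b', by omega, Or.inl ⟨rfl, by simp only; omega⟩⟩)

theorem isP_exists (a : ℕ) : ∃ b, IsP (a, b) := by
  classical
  by_contra hno
  push Not at hno
  have hmove : ∀ b, ∃ q : ℕ × ℕ, Move (a, b) q ∧ IsP q := by
    intro b
    have h1 := hno b
    rw [isP_iff] at h1
    push Not at h1
    exact h1
  let D : ℕ → ℕ := fun c => if h : ∃ d, IsP (c, d) then Classical.choose h else 0
  have hD : ∀ c d, IsP (c, d) → D c = d := by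
    intro c d h
    have hex : ∃ d, IsP (c, d) := ⟨d, h⟩
    have h2 : D c = Classical.choose hex := by
      simp only [D]
      rw [dif_pos hex]
    rw [h2]
    exact isP_uniq c _ _ (Classical.choose_spec hex) h
  obtain ⟨q, hq, hP⟩ := hmove ((∑ c ∈ Finset.range a, D c) + 2 * a + 1)
  obtain ⟨c, d⟩ := q
  have hle : ∀ c < a, D c ≤ ∑ c ∈ Finset.range a, D c := fun c hc =>
    Finset.single_le_sum (f := D) (fun _ _ => Nat.zero_le _) (Finset.mem_range.2 hc)
  have hDc := hD c d hP
  obtain ⟨x, hx, h⟩ := hq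
  simp only at h
  rcases h with ⟨h1, h2⟩ | ⟨h1, h2⟩ | ⟨h1, h2⟩ | ⟨h1, h2⟩ | ⟨h1, h2⟩
  · rw [← h1] at hP
    exact hno d hP
  all_goals
    have := hle c (by omega)
    omega

end Wyk
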