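import Pool.Agent.Wyk.Game1

/-!
# The map `σ` (module Game2)

`σ a` := the unique `b` with `IsP (a,b)` (`isP_exists`, `isP_uniq`, choice). Fields of `WS σ`:
* `inv`: `isP_swap`; `zero`: `isP_zero`.
* `ne`: `(n,n) → (0,0)` is a move (`x = n`); `ne2`: `(n,2n) → (0,0)` is a move (`x = n`).
* `dinj`: let `σ m - m = σ n - n` and `m < n` (wlog). Then `(n, σ n) → (m, σ m)` is a move of type
  `(x,x)`, `x = n - m`; both are P-positions: contradiction with `isP_iff`.
* `einj`: let `2m - σ m = 2n - σ n` and `m < n`. Then `σ n = σ m + 2(n-m)`, so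
  `(n, σ n) → (m, σ m)` is a move `(x,2x)`: contradiction.
* `block`: let `c < y < σ c`. `(c,y)` is not a P-position (`y ≠ σ c`), so there is a move to a
  P-position `q = (q.1, σ q.1)`:
  - `(0,x)`: `q = (c, y-x)`, so `y - x = σ c`, impossible;
  - `(x,0)`: `q = (c-x, y)`: `c' = c - x < c`, `σ c' = y`;
  - `(x,x)`: `c' = c - x`, `σ c' = y - x`: `σ c' - c' = y - c`;
  - `(x,2x)`: `c' = c - x`, `σ c' = y - 2x`: `2c' - σ c' = 2c - y`;
  - `(2x,x)`: `c' = c - 2x`, `σ c' = y - x`: `2 σ c' - c' = 2y - c`.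
-/

namespace Wyk

theorem exists_ws : ∃ σ : ℕ → ℕ, WS σ ∧ ∀ a b, IsP (a, b) ↔ b = σ a := by
  classical
  have hex : ∀ a, ∃ b, IsP (a, b) := isP_exists
  choose σ hσ using hex
  have hiff : ∀ a b, IsP (a, b) ↔ b = σ a := by
    intro a b
    constructor
    · intro h
      exact isP_uniq a b (σ a) h (hσ a)
    · rintro rfl
      exact hσ a
  have hno : ∀ p q : ℕ × ℕ, IsP p → IsP q → ¬ Move p q := by
    intro p q hp hq hm
    exact (isP_iff p).1 hp q hm hq
  have hzero : σ 0 = 0 := ((hiff 0 0).1 isP_zero).symm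
  have hinv : ∀ n, σ (σ n) = n := by
    intro n
    exact ((hiff (σ n) n).1 ((isP_swap n (σ n)).1 (hσ n))).symm
  refine ⟨σ, ⟨hinv, hzero, ?_, ?_, ?_, ?_, ?_⟩, hiff⟩
  · intro n hn h
    have h1 := hσ n
    rw [h] at h1
    exact hno (n, n) (0, 0) h1 isP_zero ⟨n, hn, by simp⟩
  · intro n hn h
    have h1 := hσ n
    rw [h] at h1
    exact hno (n, 2 * n) (0, 0) h1 isP_zero ⟨n, hn, by simp⟩
  · have key : ∀ m n : ℕ, m < n → (σ m : ℤ) - m = σ n - n → False := by
      intro m n hmn h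
      refine hno (n, σ n) (m, σ m) (hσ n) (hσ m) ⟨n - m, by omega, Or.inr (Or.inr (Or.inl ⟨?_, ?_⟩))⟩
      · show n = m + (n - m); omega
      · show σ n = σ m + (n - m); omega
    intro m n h
    rcases lt_trichotomy m n with h1 | h1 | h1
    · exact absurd h (fun h => key m n h1 h)
    · exact h1
    · exact absurd h.symm (fun h => key n m h1 h)
  · have key : ∀ m n : ℕ, m < n → 2 * (m : ℤ) - σ m = 2 * n - σ n → False := by
      intro m n hmn h
      refine hno (n, σ n) (m, σ m) (hσ n) (hσ m)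
        ⟨n - m, by omega, Or.inr (Or.inr (Or.inr (Or.inl ⟨?_, ?_⟩)))⟩
      · show n = m + (n - m); omega
      · show σ n = σ m + 2 * (n - m); omega
    intro m n h
    rcases lt_trichotomy m n with h1 | h1 | h1
    · exact absurd h (fun h => key m n h1 h)
    · exact h1
    · exact absurd h.symm (fun h => key n m h1 h)
  · intro c y hcy hy
    have h1 : ¬ IsP (c, y) := by
      rw [hiff]; omega
    rw [isP_iff] at h1
    push Not at h1
    obtain ⟨⟨q1, q2⟩, ⟨x, hx, hm⟩, hq⟩ := h1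
    have hq2 : q2 = σ q1 := (hiff q1 q2).1 hq
    simp only at hm
    rcases hm with ⟨e1, e2⟩ | ⟨e1, e2⟩ | ⟨e1, e2⟩ | ⟨e1, e2⟩ | ⟨e1, e2⟩
    · subst e1
      omega
    · exact ⟨q1, by omega, Or.inl (by omega)⟩
    · exact ⟨q1, by omega, Or.inr (Or.inl (by omega))⟩
    · exact ⟨q1, by omega, Or.inr (Or.inr (Or.inl (by omega)))⟩
    · exact ⟨q1, by omega, Or.inr (Or.inr (Or.inr (by omega)))⟩

end Wyk
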