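import Pool.Agent.Wyk.Defs

/-!
# Harmonic sums (module HsB)

Proofs.
* `Hs_ge`: `1/n ≥ log((n+1)/n)` (from `log(1+1/n) ≤ 1/n`), telescoping from `a+1` to `b`
  (induction on `b`).
* `Hs_le`: `1/n ≤ log(n/(n-1))` for `n ≥ 2` (from `log(1-1/n) ≤ -1/n`), telescoping from `a+1 ≥ 2`.
* `Hs_le0`: `Hs 0 b = 1 + Hs 1 b ≤ 1 + log b` for `b ≥ 1`.
* `Hs_add`: `Ioc a c` is the disjoint union of `Ioc a b` and `Ioc b c`
  (`Finset.sum_Ioc_consecutive`).
* `Hs_mono`: terms are nonnegative.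
* `sum_inj_le`: `∑_{i∈s} 1/f i = ∑_{n ∈ s.image f} 1/n ≤ ∑_{n ∈ Ioc a b} 1/n`
  (`Finset.sum_image`, `Finset.sum_le_sum_of_subset_of_nonneg`).
* `card_inj_le`: `s.image f ⊆ Ioc 0 b`, so `s.card ≤ b`.
-/

open Finset

namespace Wyk

theorem Hs_nonneg (a b : ℕ) : 0 ≤ Hs a b := by
  unfold Hs
  exact Finset.sum_nonneg (fun n _ => by positivity)

private theorem HsB_succ (a b : ℕ) (h : a ≤ b) : Hs a (b + 1) = Hs a b + 1 / ((b : ℝ) + 1) := by
  unfold Hs
  rw [Finset.sum_Ioc_succ_top h]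
  push_cast
  rfl

private theorem HsB_self (a : ℕ) : Hs a a = 0 := by
  unfold Hs; simp

theorem Hs_ge (a b : ℕ) (h : a ≤ b) : Real.log (((b : ℝ) + 1) / ((a : ℝ) + 1)) ≤ Hs a b := by
  induction b, h using Nat.le_induction with
  | base =>
    rw [HsB_self, div_self (by positivity)]
    simp
  | succ b hab ih =>
    rw [HsB_succ a b hab]
    have ha : (0 : ℝ) < (a : ℝ) + 1 := by positivity
    have hb : (0 : ℝ) < (b : ℝ) + 1 := by positivity
    have h1 : ((((b + 1 : ℕ) : ℝ)) + 1) / ((a : ℝ) + 1) =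
        (((b : ℝ) + 1) / ((a : ℝ) + 1)) * (1 + 1 / ((b : ℝ) + 1)) := by
      push_cast
      field_simp
    rw [h1, Real.log_mul (by positivity) (by positivity)]
    have h2 : Real.log (1 + 1 / ((b : ℝ) + 1)) ≤ 1 / ((b : ℝ) + 1) := by
      have := Real.log_le_sub_one_of_pos (x := 1 + 1 / ((b : ℝ) + 1)) (by positivity)
      linarith
    linarith

theorem Hs_le (a b : ℕ) (ha : 0 < a) (h : a ≤ b) : Hs a b ≤ Real.log ((b : ℝ) / (a : ℝ)) := by
  induction b, h using Nat.le_induction with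
  | base =>
    rw [HsB_self, div_self (by positivity)]
    simp
  | succ b hab ih =>
    rw [HsB_succ a b hab]
    have ha' : (0 : ℝ) < (a : ℝ) := by exact_mod_cast ha
    have hb : (0 : ℝ) < (b : ℝ) := by exact_mod_cast (lt_of_lt_of_le ha hab)
    have h1 : (((b + 1 : ℕ) : ℝ)) / (a : ℝ) =
        ((b : ℝ) / (a : ℝ)) * ((((b : ℝ) + 1)) / (b : ℝ)) := by
      push_cast
      field_simp
    rw [h1, Real.log_mul (by positivity) (by positivity)]
    have h2 : 1 / ((b : ℝ) + 1) ≤ Real.log (((b : ℝ) + 1) / (b : ℝ)) := by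
      have h3 := Real.log_le_sub_one_of_pos (x := (b : ℝ) / ((b : ℝ) + 1)) (by positivity)
      have h4 : Real.log (((b : ℝ) + 1) / (b : ℝ)) = - Real.log ((b : ℝ) / ((b : ℝ) + 1)) := by
        rw [← Real.log_inv, inv_div]
      rw [h4]
      have h5 : (b : ℝ) / ((b : ℝ) + 1) - 1 = - (1 / ((b : ℝ) + 1)) := by
        field_simp
        ring
      linarith
    linarith

theorem Hs_add (a b c : ℕ) (h1 : a ≤ b) (h2 : b ≤ c) : Hs a b + Hs b c = Hs a c := by
  unfold Hs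
  exact Finset.sum_Ioc_consecutive _ h1 h2

theorem Hs_le0 (b : ℕ) (hb : 0 < b) : Hs 0 b ≤ 1 + Real.log b := by
  have h1 : Hs 0 1 + Hs 1 b = Hs 0 b := Hs_add 0 1 b (by omega) hb
  have h2 : Hs 0 1 = 1 := by unfold Hs; simp
  have h3 := Hs_le 1 b (by omega) hb
  rw [Nat.cast_one, div_one] at h3
  linarith

theorem Hs_mono (a b c : ℕ) (h : b ≤ c) : Hs a b ≤ Hs a c := by
  unfold Hs
  apply Finset.sum_le_sum_of_subset_of_nonneg
  · exact Finset.Ioc_subset_Ioc_right h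
  · intro n _ _
    positivity

theorem sum_inj_le {ι : Type*} (s : Finset ι) (f : ι → ℕ) (a b : ℕ)
    (hf : Set.InjOn f (s : Set ι)) (hr : ∀ i ∈ s, a < f i ∧ f i ≤ b) :
    ∑ i ∈ s, 1 / (f i : ℝ) ≤ Hs a b := by
  classical
  unfold Hs
  rw [← Finset.sum_image (f := fun n : ℕ => 1 / (n : ℝ)) hf]
  apply Finset.sum_le_sum_of_subset_of_nonneg
  · intro n hn
    rw [Finset.mem_image] at hn
    obtain ⟨i, hi, rfl⟩ := hn
    rw [Finset.mem_Ioc]
    exact hr i hi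
  · intro n _ _
    positivity

theorem card_inj_le {ι : Type*} (s : Finset ι) (f : ι → ℕ) (b : ℕ)
    (hf : Set.InjOn f (s : Set ι)) (hr : ∀ i ∈ s, 0 < f i ∧ f i ≤ b) : s.card ≤ b := by
  classical
  rw [← Finset.card_image_of_injOn hf]
  have h1 : s.image f ⊆ Finset.Ioc 0 b := by
    intro n hn
    rw [Finset.mem_image] at hn
    obtain ⟨i, hi, rfl⟩ := hn
    rw [Finset.mem_Ioc]
    exact hr i hi
  have h2 := Finset.card_le_card h1
  rw [Nat.card_Ioc] at h2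
  omega

end Wyk
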