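import Pool.Agent.Wyk.MLw

/-!
# The master inequality (module ML)

`ml_win` with `G = 0`, `e0 = 0`, `T1 = 1`: `A log T ≤ (a+b+ν) log T + C` for all `T ≥ 1`; if
`A > a+b+ν` this fails for large `T` (`log T → ∞`).
-/

open Finset

namespace Wyk

variable {σ : ℕ → ℕ}

theorem ml (h : WS σ) (A a b ν : ℝ) (hA : 0 ≤ A) (ha : 0 ≤ a) (hb : 0 ≤ b) (N : ℕ)
    (hlo : ∀ c, N < c → Lo σ c → A * (1 / (c : ℝ) + 1 / (σ c : ℝ)) ≤
      a / ((σ c : ℝ) - c) + b * (1 / (2 * (c : ℝ) - σ c) + 1 / (2 * (σ c : ℝ) - c)))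
    (hup : ∀ c, N < c → Up σ c → A * (1 / (c : ℝ) + 1 / (σ c : ℝ)) ≤
      a / ((σ c : ℝ) - c) + b / (2 * (σ c : ℝ) - c) + ν / (rk σ c : ℝ)) :
    A ≤ a + b + ν := by
  obtain ⟨C, hC⟩ := ml_win h A a b ν 0 hA ha hb le_rfl (fun _ => 0) (fun _ => le_rfl)
    (fun c => by simp) N (fun c hc hl => by simpa using hlo c hc hl)
    (fun c hc hu => by simpa using hup c hc hu)
  by_contra hcon
  push Not at hcon
  have hpos : 0 < A - (a + b + ν) := by linarith
  have htend : Filter.Tendsto (fun n : ℕ => Real.log (n : ℝ)) Filter.atTop Filter.atTop :=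
    Real.tendsto_log_atTop.comp tendsto_natCast_atTop_atTop
  obtain ⟨T, hT1, hT⟩ := ((Filter.eventually_ge_atTop 1).and
    (htend.eventually_gt_atTop (C / (A - (a + b + ν))))).exists
  have h1 := hC 1 T one_pos hT1
  simp only [Nat.cast_one, div_one, Finset.sum_const_zero, add_zero] at h1
  rw [div_lt_iff₀ hpos] at hT
  nlinarith [h1, hT]

end Wyk
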