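import Pool.Agent.Wyk.ThmB

/-!
# The windowed master inequality (module MLw)

`rank_harm`. By `rank_sum` the sum is `Hs (rk σ T1) (rk σ T)`.
Upper bound: if `T1 ≥ 2^100` then `rk σ T1 > T1/2^100 > 0` (`up_density`) and by `Hs_le` it is
`≤ log (rk σ T / rk σ T1) ≤ log (2^100 T / T1)` (`rk_le`). If `T1 < 2^100` it is `≤ Hs 0 T ≤ 1 + log T
≤ 1 + log (T/T1) + log 2^100`.
Lower bound: if `T ≥ 2^100`: `Hs_ge` gives `≥ log ((rk σ T + 1)/(rk σ T1 + 1))
≥ log ((T/2^100) / (2 T1))` (`rk σ T1 + 1 ≤ T1 + 1 ≤ 2 T1`). If `T < 2^100`: `≥ 0 ≥ log(T/T1) - log 2^100`.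

`ml_win`. Apply `win` to the window `(T1, T]` and the function
`E c = 2A` for `c ≤ N`; for `c > N`: `E c = -G c` if `c` is lower, `E c = ν / rk σ c - G c` if `c` is upper
(e.g. `E c = if c ≤ N then 2 * A else if Up σ c then ν / rk σ c - G c else -G c`).
* `hE`: `-(e0/c) ≤ -G c` for lower `c > N`, and `2A ≥ 0`.
* `hlo`, `hup`: for `c > N` the hypotheses; for `c ≤ N`: `c ≥ 1`, `1/c + 1/σ c ≤ 2` and the other terms
  are `≥ 0` (`σ c - c > 0`, `2c - σ c > 0`, `2σ c - c > 0`).
Result: `A Hs T1 T ≤ a Hs T1 (2T) + b Hs T1 (5T) + ∑_{cols} E c + 5A + 2 e0`, and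
`∑_{cols σ T1 T} E c + ∑_{cols σ T1 T} G c ≤ 2 A N + N e0 + ∑_{c ∈ ups σ T1 T, c > N} ν / rk σ c
≤ 2AN + N e0 + ν ∑_{ups σ T1 T} 1/rk σ c + |ν| N` (at most `N` of the `c` are `≤ N`; `G c ≤ e0/c ≤ e0`).
Finally `Hs T1 T ≥ log((T+1)/(T1+1)) ≥ log(T/T1) - log 2`, `Hs T1 (2T) ≤ log(T/T1) + log 2`,
`Hs T1 (5T) ≤ log(T/T1) + log 5` and `rank_harm`. So
`C = A log 2 + a log 2 + b log 5 + 2AN + N e0 + |ν| N + |ν| (1 + log 2^101) + 5A + 2e0` works.
-/

open Finset

namespace Wyk

variable {σ : ℕ → ℕ}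

theorem rank_harm (h : WS σ) (T1 T : ℕ) (h1 : 0 < T1) (h2 : T1 ≤ T) :
    |∑ c ∈ ups σ T1 T, 1 / (rk σ c : ℝ) - Real.log ((T : ℝ) / T1)| ≤ 1 + Real.log (2 ^ 101) := by
  rw [rank_sum σ T1 T h2]
  have hT1 : (0 : ℝ) < T1 := by exact_mod_cast h1
  have hT1' : (1 : ℝ) ≤ T1 := by exact_mod_cast h1
  have hT : (0 : ℝ) < T := lt_of_lt_of_le hT1 (by exact_mod_cast h2)
  have hTT : (T1 : ℝ) ≤ T := by exact_mod_cast h2
  have hl : Real.log ((T : ℝ) / T1) = Real.log T - Real.log T1 := Real.log_div hT.ne' hT1.ne'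
  have hlog1 : 0 ≤ Real.log (T1 : ℝ) := Real.log_nonneg hT1'
  have h101 : Real.log (2 ^ 101) = Real.log (2 ^ 100) + Real.log 2 := by
    rw [← Real.log_mul (by positivity) (by norm_num)]; congr 1
  have hl2 : 0 < Real.log 2 := Real.log_pos (by norm_num)
  have hl100 : 0 < Real.log ((2 : ℝ) ^ 100) := Real.log_pos (by norm_num)
  have hmono : rk σ T1 ≤ rk σ T := rk_mono σ h2
  have hrT : ((rk σ T : ℕ) : ℝ) ≤ T := by exact_mod_cast rk_le σ T
  have hrT1 : ((rk σ T1 : ℕ) : ℝ) ≤ T1 := by exact_mod_cast rk_le σ T1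
  rw [abs_le]
  constructor
  · -- lower bound
    by_cases hc : 2 ^ 100 ≤ T
    · have hd := up_density h T hc
      have hd' : (T : ℝ) < 2 ^ 100 * (rk σ T : ℝ) := by exact_mod_cast hd
      have hg := Hs_ge (rk σ T1) (rk σ T) hmono
      have hle : Real.log ((T : ℝ) / (2 ^ 101 * T1)) ≤
          Real.log ((((rk σ T : ℕ) : ℝ) + 1) / (((rk σ T1 : ℕ) : ℝ) + 1)) := by
        apply Real.log_le_log (by positivity)
        rw [div_le_div_iff₀ (by positivity) (by positivity)]
        have e1 : ((rk σ T1 : ℕ) : ℝ) + 1 ≤ 2 * T1 := by linarith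
        have e2 : (0 : ℝ) ≤ (rk σ T : ℕ) := by positivity
        calc (T : ℝ) * (((rk σ T1 : ℕ) : ℝ) + 1) ≤ (2 ^ 100 * (rk σ T : ℝ)) * (2 * T1) := by
              apply mul_le_mul hd'.le e1 (by positivity) (by positivity)
          _ ≤ (((rk σ T : ℕ) : ℝ) + 1) * (2 ^ 101 * T1) := by
              have : (2 : ℝ) ^ 101 = 2 ^ 100 * 2 := by norm_num
              rw [this]
              nlinarith [mul_nonneg e2 hT1.le]
      rw [Real.log_div hT.ne' (by positivity), Real.log_mul (by positivity) hT1.ne'] at hle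
      rw [hl]
      clear hd hd' hc
      generalize Real.log ((2 : ℝ) ^ 101) = x101 at *
      linarith
    · push Not at hc
      have hlt : Real.log (T : ℝ) ≤ Real.log (2 ^ 100) := by
        apply Real.log_le_log hT
        exact_mod_cast hc.le
      have hn := Hs_nonneg (rk σ T1) (rk σ T)
      rw [hl]
      linarith
  · -- upper bound
    by_cases hc : 2 ^ 100 ≤ T1
    · have hd := up_density h T1 hc
      have hd' : (T1 : ℝ) < 2 ^ 100 * (rk σ T1 : ℝ) := by exact_mod_cast hd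
      have hpos : 0 < rk σ T1 := by
        rcases Nat.eq_zero_or_pos (rk σ T1) with h0 | h0
        · rw [h0] at hd; omega
        · exact h0
      have hpos' : (0 : ℝ) < (rk σ T1 : ℕ) := by exact_mod_cast hpos
      have hposT : (0 : ℝ) < (rk σ T : ℕ) := by exact_mod_cast lt_of_lt_of_le hpos hmono
      have hg := Hs_le (rk σ T1) (rk σ T) hpos hmono
      have hle : Real.log (((rk σ T : ℕ) : ℝ) / ((rk σ T1 : ℕ) : ℝ)) ≤
          Real.log (2 ^ 100 * T / T1) := by
        apply Real.log_le_log (by positivity)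
        rw [div_le_div_iff₀ hpos' hT1]
        calc ((rk σ T : ℕ) : ℝ) * T1 ≤ (T : ℝ) * (2 ^ 100 * (rk σ T1 : ℝ)) := by
              apply mul_le_mul hrT hd'.le hT1.le hT.le
          _ = 2 ^ 100 * T * ((rk σ T1 : ℕ) : ℝ) := by ring
      rw [Real.log_div (by positivity) hT1.ne', Real.log_mul (by positivity) hT.ne'] at hle
      rw [hl]
      clear hd hd' hc
      generalize Real.log ((2 : ℝ) ^ 101) = x101 at *
      generalize Real.log ((2 : ℝ) ^ 100) = x100 at *
      linarith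
    · push Not at hc
      have hlt : Real.log (T1 : ℝ) ≤ Real.log (2 ^ 100) := by
        apply Real.log_le_log hT1
        exact_mod_cast hc.le
      have hadd := Hs_add 0 (rk σ T1) (rk σ T) (Nat.zero_le _) hmono
      have hn := Hs_nonneg 0 (rk σ T1)
      have hm := Hs_mono 0 (rk σ T) T (rk_le σ T)
      have h0 := Hs_le0 T (lt_of_lt_of_le h1 h2)
      rw [hl]
      linarith

theorem ml_win (h : WS σ) (A a b ν e0 : ℝ) (hA : 0 ≤ A) (ha : 0 ≤ a) (hb : 0 ≤ b) (he : 0 ≤ e0)
    (G : ℕ → ℝ) (hG0 : ∀ c, 0 ≤ G c) (hG : ∀ c, G c ≤ e0 / (c : ℝ)) (N : ℕ)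
    (hlo : ∀ c, N < c → Lo σ c → A * (1 / (c : ℝ) + 1 / (σ c : ℝ)) + G c ≤
      a / ((σ c : ℝ) - c) + b * (1 / (2 * (c : ℝ) - σ c) + 1 / (2 * (σ c : ℝ) - c)))
    (hup : ∀ c, N < c → Up σ c → A * (1 / (c : ℝ) + 1 / (σ c : ℝ)) + G c ≤
      a / ((σ c : ℝ) - c) + b / (2 * (σ c : ℝ) - c) + ν / (rk σ c : ℝ)) :
    ∃ C : ℝ, ∀ T1 T : ℕ, 0 < T1 → T1 ≤ T →
      A * Real.log ((T : ℝ) / T1) + ∑ c ∈ cols σ T1 T, G c ≤
        (a + b + ν) * Real.log ((T : ℝ) / T1) + C := by
  refine ⟨A * Real.log 2 + a * Real.log 2 + b * Real.log 5 + (2 * A + e0 + |ν|) * N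
    + |ν| * (1 + Real.log (2 ^ 101)) + 5 * A + 2 * e0, ?_⟩
  intro T1 T h1 h2
  have hT1 : (0 : ℝ) < T1 := by exact_mod_cast h1
  have hT1' : (1 : ℝ) ≤ T1 := by exact_mod_cast h1
  have hT : (0 : ℝ) < T := lt_of_lt_of_le hT1 (by exact_mod_cast h2)
  have hTT : (T1 : ℝ) ≤ T := by exact_mod_cast h2
  have hl : Real.log ((T : ℝ) / T1) = Real.log T - Real.log T1 := Real.log_div hT.ne' hT1.ne'
  classical
  set E : ℕ → ℝ := fun c => if c ≤ N then 2 * A else
    if Up σ c then ν / (rk σ c : ℝ) - G c else - G c with hEdef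
  have hrec : ∀ c : ℕ, 1 ≤ c → Col σ c → 1 / (c : ℝ) + 1 / (σ c : ℝ) ≤ 2 := by
    intro c hc hcol
    have e1 : (1 : ℝ) ≤ c := by exact_mod_cast hc
    have e2 : (1 : ℝ) ≤ (σ c : ℝ) := by
      have : 1 ≤ σ c := by unfold Col at hcol; omega
      exact_mod_cast this
    have e3 : 1 / (c : ℝ) ≤ 1 := by
      rw [div_le_one (by linarith)]; exact e1
    have e4 : 1 / (σ c : ℝ) ≤ 1 := by
      rw [div_le_one (by linarith)]; exact e2
    linarith
  have key := win h T1 T A a b e0 hA ha hb he E ?_ ?_ ?_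
  rotate_left
  · intro c hc
    rw [mem_los] at hc
    have hnup : ¬ Up σ c := by unfold Up; omega
    simp only [hEdef]
    split_ifs with hcN
    · have : 0 ≤ e0 / (c : ℝ) := by positivity
      linarith
    · linarith [hG c]
  · intro c hc
    rw [mem_los] at hc
    have hLo : Lo σ c := hc.2
    have hnup : ¬ Up σ c := by unfold Up; omega
    simp only [hEdef]
    split_ifs with hcN
    · have d1 : (0 : ℝ) < (σ c : ℝ) - c := by
        have : (c : ℝ) < (σ c : ℝ) := by exact_mod_cast hc.2.1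
        linarith
      have d2 : (0 : ℝ) < 2 * (c : ℝ) - σ c := by
        have : (σ c : ℝ) < 2 * (c : ℝ) := by exact_mod_cast hc.2.2
        linarith
      have d3 : (0 : ℝ) < 2 * (σ c : ℝ) - c := by
        have : (0 : ℝ) ≤ (c : ℝ) := by positivity
        linarith
      have t1 : 0 ≤ a / ((σ c : ℝ) - c) := div_nonneg ha d1.le
      have t2 : 0 ≤ b * (1 / (2 * (c : ℝ) - σ c) + 1 / (2 * (σ c : ℝ) - c)) := by positivity
      have t3 := hrec c (by omega) hLo.col
      nlinarith [mul_le_mul_of_nonneg_left t3 hA]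
    · have := hlo c (by omega) hLo
      linarith
  · intro c hc
    rw [mem_ups] at hc
    have hUp : Up σ c := hc.2
    simp only [hEdef]
    split_ifs with hcN
    · have d1 : (0 : ℝ) < (σ c : ℝ) - c := by
        have : (c : ℝ) < (σ c : ℝ) := by exact_mod_cast (show c < σ c by omega)
        linarith
      have d3 : (0 : ℝ) < 2 * (σ c : ℝ) - c := by
        have : (0 : ℝ) ≤ (c : ℝ) := by positivity
        linarith
      have t1 : 0 ≤ a / ((σ c : ℝ) - c) := div_nonneg ha d1.le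
      have t2 : 0 ≤ b / (2 * (σ c : ℝ) - c) := div_nonneg hb d3.le
      have t3 := hrec c (by omega) hUp.col
      nlinarith [mul_le_mul_of_nonneg_left t3 hA]
    · have := hup c (by omega) hUp
      linarith
  -- bound for the sum of E
  have hsumE : ∑ c ∈ cols σ T1 T, E c ≤ - ∑ c ∈ cols σ T1 T, G c
      + ν * ∑ c ∈ ups σ T1 T, 1 / (rk σ c : ℝ) + (2 * A + e0 + |ν|) * N := by
    have hK : 0 ≤ 2 * A + e0 + |ν| := by positivity
    have hpt : ∀ c ∈ cols σ T1 T, E c ≤ - G c + (if Up σ c then ν / (rk σ c : ℝ) else 0)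
        + (if c ≤ N then 2 * A + e0 + |ν| else 0) := by
      intro c hc
      rw [mem_cols] at hc
      have hc1 : 1 ≤ c := by omega
      have hc1' : (1 : ℝ) ≤ c := by exact_mod_cast hc1
      simp only [hEdef]
      by_cases hcN : c ≤ N
      · rw [if_pos hcN, if_pos hcN]
        have g1 : G c ≤ e0 := by
          have := hG c
          have e5 : e0 / (c : ℝ) ≤ e0 := div_le_self he hc1'
          linarith
        have g2 : -|ν| ≤ (if Up σ c then ν / (rk σ c : ℝ) else 0) := by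
          split_ifs with hU
          · have r1 : 1 ≤ rk σ c := rk_pos h hU
            have r1' : (1 : ℝ) ≤ (rk σ c : ℝ) := by exact_mod_cast r1
            have r2 : |ν / (rk σ c : ℝ)| ≤ |ν| := by
              rw [abs_div, abs_of_pos (by linarith : (0 : ℝ) < (rk σ c : ℝ))]
              exact div_le_self (abs_nonneg _) r1'
            have := (abs_le.mp r2).1
            exact this
          · have := abs_nonneg ν
            linarith
        linarith
      · rw [if_neg hcN, if_neg hcN]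
        split_ifs with hU
        · linarith
        · linarith
    calc ∑ c ∈ cols σ T1 T, E c ≤ ∑ c ∈ cols σ T1 T, (- G c +
          (if Up σ c then ν / (rk σ c : ℝ) else 0)
          + (if c ≤ N then 2 * A + e0 + |ν| else 0)) := Finset.sum_le_sum hpt
      _ = - ∑ c ∈ cols σ T1 T, G c + ∑ c ∈ cols σ T1 T, (if Up σ c then ν / (rk σ c : ℝ) else 0)
          + ∑ c ∈ cols σ T1 T, (if c ≤ N then 2 * A + e0 + |ν| else 0) := by
          rw [Finset.sum_add_distrib, Finset.sum_add_distrib, Finset.sum_neg_distrib]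
      _ ≤ _ := by
          have s1 : ∑ c ∈ cols σ T1 T, (if Up σ c then ν / (rk σ c : ℝ) else 0)
              = ν * ∑ c ∈ ups σ T1 T, 1 / (rk σ c : ℝ) := by
            rw [sum_cols h]
            have z1 : ∑ c ∈ los σ T1 T, (if Up σ c then ν / (rk σ c : ℝ) else 0) = 0 := by
              apply Finset.sum_eq_zero
              intro c hc
              rw [mem_los] at hc
              rw [if_neg]
              unfold Up; omega
            have z2 : ∑ c ∈ ups σ T1 T, (if Up σ c then ν / (rk σ c : ℝ) else 0)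
                = ∑ c ∈ ups σ T1 T, ν * (1 / (rk σ c : ℝ)) := by
              apply Finset.sum_congr rfl
              intro c hc
              rw [mem_ups] at hc
              rw [if_pos (show Up σ c from hc.2)]
              ring
            rw [z1, z2, zero_add, Finset.mul_sum]
          have s2 : ∑ c ∈ cols σ T1 T, (if c ≤ N then 2 * A + e0 + |ν| else 0)
              ≤ (2 * A + e0 + |ν|) * N := by
            rw [← Finset.sum_filter, Finset.sum_const, nsmul_eq_mul, mul_comm]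
            apply mul_le_mul_of_nonneg_left _ hK
            have hsub : (cols σ T1 T).filter (fun c => c ≤ N) ⊆ Ioc 0 N := by
              intro c hc
              rw [Finset.mem_filter, mem_cols] at hc
              rw [Finset.mem_Ioc]
              omega
            have := Finset.card_le_card hsub
            rw [Nat.card_Ioc] at this
            exact_mod_cast this
          rw [s1]
          linarith
  have hR := rank_harm h T1 T h1 h2
  have hνS : ν * ∑ c ∈ ups σ T1 T, 1 / (rk σ c : ℝ) ≤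
      ν * Real.log ((T : ℝ) / T1) + |ν| * (1 + Real.log (2 ^ 101)) := by
    have e1 : ν * ∑ c ∈ ups σ T1 T, 1 / (rk σ c : ℝ) - ν * Real.log ((T : ℝ) / T1) ≤
        |ν| * (1 + Real.log (2 ^ 101)) := by
      rw [← mul_sub]
      calc ν * (∑ c ∈ ups σ T1 T, 1 / (rk σ c : ℝ) - Real.log ((T : ℝ) / T1))
          ≤ |ν * (∑ c ∈ ups σ T1 T, 1 / (rk σ c : ℝ) - Real.log ((T : ℝ) / T1))| := le_abs_self _
        _ = |ν| * |∑ c ∈ ups σ T1 T, 1 / (rk σ c : ℝ) - Real.log ((T : ℝ) / T1)| := abs_mul _ _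
        _ ≤ _ := mul_le_mul_of_nonneg_left hR (abs_nonneg _)
    linarith
  have b1 : Real.log ((T : ℝ) / T1) - Real.log 2 ≤ Hs T1 T := by
    have hg := Hs_ge T1 T h2
    have hle : Real.log ((T : ℝ) / (2 * T1)) ≤ Real.log (((T : ℝ) + 1) / ((T1 : ℝ) + 1)) := by
      apply Real.log_le_log (by positivity)
      rw [div_le_div_iff₀ (by positivity) (by positivity)]
      nlinarith
    rw [Real.log_div hT.ne' (by positivity), Real.log_mul (by norm_num) hT1.ne'] at hle
    rw [hl]
    linarith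
  have b2 : Hs T1 (2 * T) ≤ Real.log ((T : ℝ) / T1) + Real.log 2 := by
    have hg := Hs_le T1 (2 * T) h1 (by omega)
    push_cast at hg
    rw [Real.log_div (by positivity) hT1.ne', Real.log_mul (by norm_num) hT.ne'] at hg
    rw [hl]
    linarith
  have b5 : Hs T1 (5 * T) ≤ Real.log ((T : ℝ) / T1) + Real.log 5 := by
    have hg := Hs_le T1 (5 * T) h1 (by omega)
    push_cast at hg
    rw [Real.log_div (by positivity) hT1.ne', Real.log_mul (by norm_num) hT.ne'] at hg
    rw [hl]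
    linarith
  have c1 := mul_le_mul_of_nonneg_left b1 hA
  have c2 := mul_le_mul_of_nonneg_left b2 ha
  have c5 := mul_le_mul_of_nonneg_left b5 hb
  nlinarith [c1, c2, c5, hsumE, hνS, key]

end Wyk
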