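import Pool.Agent.Wyk.HsB

/-!
# Packing of the positive integers (module Pk1)

`pk1`. Every `n ∈ (T1, T]` is a column (`n < σ n`) or an image (`σ n < n`), since `σ n ≠ n`. So
`Hs T1 T = ∑_{cols} 1/c + ∑_{n ∈ (T1,T], σ n < n} 1/n`. The second sum is split into
* `σ n ≤ T1`: the `n` are at most `T1` many (`n ↦ σ n` is injective by `inv`, with values in
  `[1, T1]`; `σ n ≠ 0` as `σ 0 = 0` and `n > 0`; use `card_inj_le`), each term is `≤ 1/T1` (here
  `T1 ≥ 1`, else the set is empty), so the sum is `≤ 1`;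
* `σ n > T1`: put `c = σ n`; then `T1 < c < n ≤ T`, `σ c = n`, so `c ∈ cols σ T1 T`, and `n ↦ c` is
  injective, so the sum is `≤ ∑_{c ∈ cols σ T1 T} 1/σ c`.

`pk1rev`. The columns `c ∈ (0,T]` and the images `σ c ≤ T` are distinct numbers in `(0,T]` (a column
is not an image: `c < σ c` and `σ (σ c) = c < σ c`), so
`∑_{cols} 1/c + ∑_{c ∈ cols, σ c ≤ T} 1/σ c ≤ Hs 0 T`; the columns `c ≤ T` with `σ c > T` are at most
`T` many and contribute `≤ T * (1/T) = 1` (if `T = 0` everything is `0`).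
-/

open Finset

namespace Wyk

variable {σ : ℕ → ℕ}

theorem pk1 (h : WS σ) (T1 T : ℕ) :
    Hs T1 T ≤ 1 + ∑ c ∈ cols σ T1 T, (1 / (c : ℝ) + 1 / (σ c : ℝ)) := by
  have hsplit : Hs T1 T = ∑ n ∈ cols σ T1 T, 1 / (n : ℝ) +
      ∑ n ∈ (Ioc T1 T).filter (fun n => ¬ Col σ n), 1 / (n : ℝ) := by
    unfold Hs cols
    rw [Finset.sum_filter_add_sum_filter_not]
  have himg : ∀ n ∈ (Ioc T1 T).filter (fun n => ¬ Col σ n), (T1 < n ∧ n ≤ T) ∧ σ n < n := by
    intro n hn
    rw [Finset.mem_filter, Finset.mem_Ioc] at hn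
    obtain ⟨⟨h1, h2⟩, h3⟩ := hn
    have h4 := h.ne n (by omega)
    unfold Col at h3
    exact ⟨⟨h1, h2⟩, by omega⟩
  have hinj : ∀ a b : ℕ, σ a = σ b → a = b := by
    intro a b hab
    rw [← h.inv a, ← h.inv b, hab]
  have hsplit2 : ∑ n ∈ (Ioc T1 T).filter (fun n => ¬ Col σ n), 1 / (n : ℝ) =
      ∑ n ∈ ((Ioc T1 T).filter (fun n => ¬ Col σ n)).filter (fun n => σ n ≤ T1), 1 / (n : ℝ) +
      ∑ n ∈ ((Ioc T1 T).filter (fun n => ¬ Col σ n)).filter (fun n => ¬ σ n ≤ T1),
        1 / (n : ℝ) := by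
    rw [Finset.sum_filter_add_sum_filter_not]
  have hA : ∑ n ∈ ((Ioc T1 T).filter (fun n => ¬ Col σ n)).filter (fun n => σ n ≤ T1),
      1 / (n : ℝ) ≤ 1 := by
    rcases Nat.eq_zero_or_pos T1 with h0 | h0
    · have hemp : ((Ioc T1 T).filter (fun n => ¬ Col σ n)).filter (fun n => σ n ≤ T1) = ∅ := by
        rw [Finset.eq_empty_iff_forall_notMem]
        intro n hn
        rw [Finset.mem_filter] at hn
        obtain ⟨h1, h2⟩ := hn
        obtain ⟨⟨h3, h4⟩, h5⟩ := himg n h1
        have h6 : σ n = 0 := by omega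
        have h7 := h.inv n
        rw [h6, h.zero] at h7
        omega
      rw [hemp]
      simp
    · have hcard : (((Ioc T1 T).filter (fun n => ¬ Col σ n)).filter
          (fun n => σ n ≤ T1)).card ≤ T1 := by
        refine card_inj_le _ σ T1 (fun a _ b _ hab => hinj a b hab) ?_
        intro n hn
        rw [Finset.mem_filter] at hn
        obtain ⟨h1, h2⟩ := hn
        obtain ⟨⟨h3, h4⟩, h5⟩ := himg n h1
        refine ⟨?_, h2⟩
        by_contra h6
        have h6' : σ n = 0 := by omega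
        have h7 := h.inv n
        rw [h6', h.zero] at h7
        omega
      have hT1 : (0 : ℝ) < T1 := by exact_mod_cast h0
      calc ∑ n ∈ ((Ioc T1 T).filter (fun n => ¬ Col σ n)).filter (fun n => σ n ≤ T1),
            1 / (n : ℝ)
          ≤ ∑ _n ∈ ((Ioc T1 T).filter (fun n => ¬ Col σ n)).filter (fun n => σ n ≤ T1),
            1 / (T1 : ℝ) := by
            refine Finset.sum_le_sum ?_
            intro n hn
            rw [Finset.mem_filter] at hn
            obtain ⟨h1, h2⟩ := hn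
            obtain ⟨⟨h3, h4⟩, h5⟩ := himg n h1
            refine one_div_le_one_div_of_le hT1 ?_
            exact_mod_cast h3.le
        _ = (((Ioc T1 T).filter (fun n => ¬ Col σ n)).filter (fun n => σ n ≤ T1)).card *
            (1 / (T1 : ℝ)) := by
            rw [Finset.sum_const, nsmul_eq_mul]
        _ ≤ T1 * (1 / (T1 : ℝ)) := by
            refine mul_le_mul_of_nonneg_right ?_ (by positivity)
            exact_mod_cast hcard
        _ = 1 := by
            field_simp
  have hB : ∑ n ∈ ((Ioc T1 T).filter (fun n => ¬ Col σ n)).filter (fun n => ¬ σ n ≤ T1),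
      1 / (n : ℝ) ≤ ∑ c ∈ cols σ T1 T, 1 / (σ c : ℝ) := by
    have e1 : ∑ n ∈ ((Ioc T1 T).filter (fun n => ¬ Col σ n)).filter (fun n => ¬ σ n ≤ T1),
        1 / (n : ℝ) = ∑ c ∈ (((Ioc T1 T).filter (fun n => ¬ Col σ n)).filter
          (fun n => ¬ σ n ≤ T1)).image σ, 1 / (σ c : ℝ) := by
      rw [Finset.sum_image (fun a _ b _ hab => hinj a b hab)]
      refine Finset.sum_congr rfl ?_
      intro n _
      rw [h.inv]
    rw [e1]
    refine Finset.sum_le_sum_of_subset_of_nonneg ?_ ?_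
    · intro c hc
      rw [Finset.mem_image] at hc
      obtain ⟨n, hn, rfl⟩ := hc
      rw [Finset.mem_filter] at hn
      obtain ⟨h1, h2⟩ := hn
      obtain ⟨⟨h3, h4⟩, h5⟩ := himg n h1
      rw [mem_cols, h.inv]
      omega
    · intro c _ _
      positivity
  rw [hsplit, hsplit2, Finset.sum_add_distrib]
  linarith

theorem pk1rev (h : WS σ) (T : ℕ) :
    ∑ c ∈ cols σ 0 T, (1 / (c : ℝ) + 1 / (σ c : ℝ)) ≤ Hs 0 T + 1 := by
  have hinj : ∀ a b : ℕ, σ a = σ b → a = b := by
    intro a b hab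
    rw [← h.inv a, ← h.inv b, hab]
  rcases Nat.eq_zero_or_pos T with h0 | h0
  · subst h0
    have : cols σ 0 0 = ∅ := by
      rw [Finset.eq_empty_iff_forall_notMem]
      intro x hx
      rw [mem_cols] at hx
      omega
    rw [this]
    simp [Hs]
  have hT : (0 : ℝ) < T := by exact_mod_cast h0
  have hsplit2 : ∑ c ∈ cols σ 0 T, 1 / (σ c : ℝ) =
      ∑ c ∈ (cols σ 0 T).filter (fun c => σ c ≤ T), 1 / (σ c : ℝ) +
      ∑ c ∈ (cols σ 0 T).filter (fun c => ¬ σ c ≤ T), 1 / (σ c : ℝ) := by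
    rw [Finset.sum_filter_add_sum_filter_not]
  have hA : ∑ c ∈ (cols σ 0 T).filter (fun c => ¬ σ c ≤ T), 1 / (σ c : ℝ) ≤ 1 := by
    have hcard : ((cols σ 0 T).filter (fun c => ¬ σ c ≤ T)).card ≤ T := by
      refine card_inj_le _ id T (fun a _ b _ hab => hab) ?_
      intro n hn
      rw [Finset.mem_filter, mem_cols] at hn
      exact hn.1.1
    calc ∑ c ∈ (cols σ 0 T).filter (fun c => ¬ σ c ≤ T), 1 / (σ c : ℝ)
        ≤ ∑ _c ∈ (cols σ 0 T).filter (fun c => ¬ σ c ≤ T), 1 / (T : ℝ) := by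
          refine Finset.sum_le_sum ?_
          intro n hn
          rw [Finset.mem_filter, mem_cols] at hn
          refine one_div_le_one_div_of_le hT ?_
          have : T ≤ σ n := by omega
          exact_mod_cast this
      _ = ((cols σ 0 T).filter (fun c => ¬ σ c ≤ T)).card * (1 / (T : ℝ)) := by
          rw [Finset.sum_const, nsmul_eq_mul]
      _ ≤ T * (1 / (T : ℝ)) := by
          refine mul_le_mul_of_nonneg_right ?_ (by positivity)
          exact_mod_cast hcard
      _ = 1 := by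
          field_simp
  have hB : ∑ c ∈ cols σ 0 T, 1 / (c : ℝ) +
      ∑ c ∈ (cols σ 0 T).filter (fun c => σ c ≤ T), 1 / (σ c : ℝ) ≤ Hs 0 T := by
    have e1 : ∑ c ∈ (cols σ 0 T).filter (fun c => σ c ≤ T), 1 / (σ c : ℝ) =
        ∑ n ∈ ((cols σ 0 T).filter (fun c => σ c ≤ T)).image σ, 1 / (n : ℝ) := by
      rw [Finset.sum_image (fun a _ b _ hab => hinj a b hab)]
    have hdisj : Disjoint (cols σ 0 T)
        (((cols σ 0 T).filter (fun c => σ c ≤ T)).image σ) := by
      rw [Finset.disjoint_left]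
      intro x hx hy
      rw [Finset.mem_image] at hy
      obtain ⟨c, hc, rfl⟩ := hy
      rw [Finset.mem_filter, mem_cols] at hc
      rw [mem_cols, h.inv] at hx
      omega
    rw [e1, ← Finset.sum_union hdisj]
    unfold Hs
    refine Finset.sum_le_sum_of_subset_of_nonneg ?_ ?_
    · intro x hx
      rw [Finset.mem_union] at hx
      rw [Finset.mem_Ioc]
      rcases hx with hx | hx
      · rw [mem_cols] at hx
        exact hx.1
      · rw [Finset.mem_image] at hx
        obtain ⟨c, hc, rfl⟩ := hx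
        rw [Finset.mem_filter, mem_cols] at hc
        omega
    · intro x _ _
      positivity
  rw [Finset.sum_add_distrib, hsplit2]
  linarith

end Wyk
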