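import Pool.Agent.Wyk.HsB
import Pool.Agent.Wyk.C1

/-!
# Packing of the differences and of the values `2a - b` (module Pk2)

`pk2`. For the columns `c` with `T1 < c ≤ T` and `T1 + c < σ c` put `f c = σ c - c ∈ ℕ`. By `dinj`
`f` is injective, `T1 < f c`, and `f c ≤ 2c ≤ 2T` by `sig_le`. Use `sum_inj_le` with
`(f c : ℝ) = σ c - c`.

`pk3`. The numbers `2c - σ c` (lower columns `c`) are the values of `e n = 2n - σ n` (in `ℤ`) at
`n = c`, and the numbers `2 σ c - c` (all columns) are the values of `e` at `n = σ c` (as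
`σ (σ c) = c`). The `n`s are distinct: a column `c < σ c` is never equal to some `σ c'` with
`c' < σ c'`, because `σ (σ c') = c' < σ c'`. So by `einj` all these values are distinct. They lie in
`(T1, 5T]`: `2c - σ c > T1` by the filter, `2c - σ c < c ≤ T` (as `c < σ c`);
`2 σ c - c > σ c > c > T1`, and `2 σ c - c ≤ 6c - c = 5c` by `sig_le`. (Use `sum_inj_le` for the
disjoint sum type, e.g. `Finset.disjSum`, or for the finset `A ∪ B.image σ` of the `n`s with
`f n = 2n - σ n ∈ ℕ`.)
-/

open Finset

namespace Wyk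

variable {σ : ℕ → ℕ}

theorem pk2 (h : WS σ) (T1 T : ℕ) :
    ∑ c ∈ (cols σ T1 T).filter (fun c => T1 + c < σ c), 1 / ((σ c : ℝ) - c) ≤ Hs T1 (2 * T) := by
  have h1 := sum_inj_le ((cols σ T1 T).filter (fun c => T1 + c < σ c)) (fun c => σ c - c) T1 (2 * T) ?_ ?_
  · refine le_trans (le_of_eq ?_) h1
    refine Finset.sum_congr rfl fun c hc => ?_
    rw [Finset.mem_filter] at hc
    have h2 : c ≤ σ c := by omega
    simp only [Nat.cast_sub h2]
  · intro a ha b hb hab
    rw [Finset.mem_coe, Finset.mem_filter] at ha hb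
    simp only at hab
    exact h.dinj a b (by omega)
  · intro c hc
    rw [Finset.mem_filter, mem_cols] at hc
    obtain ⟨⟨⟨h3, h4⟩, h5⟩, h6⟩ := hc
    have h7 := sig_le h (c := c) h5
    omega

theorem pk3 (h : WS σ) (T1 T : ℕ) :
    ∑ c ∈ (los σ T1 T).filter (fun c => σ c + T1 < 2 * c), 1 / (2 * (c : ℝ) - σ c)
      + ∑ c ∈ cols σ T1 T, 1 / (2 * (σ c : ℝ) - c) ≤ Hs T1 (5 * T) := by
  have h1 := sum_inj_le (((los σ T1 T).filter (fun c => σ c + T1 < 2 * c)).disjSum (cols σ T1 T))
    (fun x => 2 * (Sum.elim id σ x) - σ (Sum.elim id σ x)) T1 (5 * T) ?_ ?_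
  · refine le_trans (le_of_eq ?_) h1
    rw [Finset.sum_disjSum]
    refine congrArg₂ (· + ·) (Finset.sum_congr rfl fun c hc => ?_) (Finset.sum_congr rfl fun c hc => ?_)
    · rw [Finset.mem_filter] at hc
      have h2 : σ c ≤ 2 * c := by omega
      simp only [Sum.elim_inl, id, Nat.cast_sub h2]
      push_cast
      rfl
    · rw [mem_cols] at hc
      have h3 := h.inv c
      have h2 : c ≤ 2 * σ c := by omega
      simp only [Sum.elim_inr, h3, Nat.cast_sub h2]
      push_cast
      rfl
  · intro a ha b hb hab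
    rw [Finset.mem_coe] at ha hb
    have key : ∀ m n : ℕ, σ m ≤ 2 * m → σ n ≤ 2 * n → 2 * m - σ m = 2 * n - σ n → m = n := by
      intro m n h1 h2 h3
      exact h.einj m n (by omega)
    have hle : ∀ x ∈ ((los σ T1 T).filter (fun c => σ c + T1 < 2 * c)).disjSum (cols σ T1 T),
        σ (Sum.elim id σ x) ≤ 2 * (Sum.elim id σ x) := by
      intro x hx
      rcases x with c | c
      · rw [Finset.inl_mem_disjSum, Finset.mem_filter] at hx
        simp only [Sum.elim_inl, id]
        omega
      · rw [Finset.inr_mem_disjSum, mem_cols] at hx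
        simp only [Sum.elim_inr, h.inv c]
        omega
    have hk := key _ _ (hle a ha) (hle b hb) hab
    rcases a with c | c <;> rcases b with d | d
    · simp only [Sum.elim_inl, id] at hk
      rw [hk]
    · exfalso
      simp only [Sum.elim_inl, Sum.elim_inr, id] at hk
      rw [Finset.inl_mem_disjSum, Finset.mem_filter, mem_los] at ha
      rw [Finset.inr_mem_disjSum, mem_cols] at hb
      have h3 := h.inv d
      rw [← hk] at h3
      omega
    · exfalso
      simp only [Sum.elim_inl, Sum.elim_inr, id] at hk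
      rw [Finset.inl_mem_disjSum, Finset.mem_filter, mem_los] at hb
      rw [Finset.inr_mem_disjSum, mem_cols] at ha
      have h3 := h.inv c
      rw [hk] at h3
      omega
    · simp only [Sum.elim_inr] at hk
      have h3 := h.inv c
      have h4 := h.inv d
      rw [hk] at h3
      rw [← h3, h4]
  · intro x hx
    rcases x with c | c
    · rw [Finset.inl_mem_disjSum, Finset.mem_filter, mem_los] at hx
      simp only [Sum.elim_inl, id]
      omega
    · rw [Finset.inr_mem_disjSum, mem_cols] at hx
      have h7 := sig_le h (c := c) hx.2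
      simp only [Sum.elim_inr, h.inv c]
      omega

end Wyk
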