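import Mathlib

/-!
# A pointwise inequality (module PtB)

With `y = d / c ∈ (0,1)` and denominators cleared the claim reads
`2y⁴ + (21/8)y³ - (9/4)y² - (1/2)y + 3/8 ≥ 0` for `0 < y < 1`; the minimum is about `0.0129` at
`y ≈ 0.475`. (Homogeneous form: `2d⁴ + (21/8)d³c - (9/4)d²c² - (1/2)dc³ + (3/8)c⁴ > 0` for
`0 < d < c`.) E.g. `nlinarith` with `sq_nonneg (y - 19/40)`, `mul_pos`, products; or write
`2y⁴ + (21/8)y³ - (9/4)y² - y/2 + 3/8 = (y - x)² (2y² + p y + r) + (small positive)` with `x = 19/40`.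
-/

namespace Wyk

/-- `c` the column, `d = σ c - c` -/
theorem ptB (c d : ℝ) (hd : 0 < d) (hdc : d < c) :
    1 / c + 1 / (c + d) ≤ (3 / 8) / d + (3 / 8) * (1 / (c - d) + 1 / (c + 2 * d)) := by
  have hc : 0 < c := hd.trans hdc
  have h1 : 0 < c - d := sub_pos.2 hdc
  have h2 : 0 < c + d := by positivity
  have h3 : 0 < c + 2 * d := by positivity
  have hN : 0 ≤ 2 * d ^ 4 + (21 / 8) * d ^ 3 * c - (9 / 4) * d ^ 2 * c ^ 2 - (1 / 2) * d * c ^ 3
      + (3 / 8) * c ^ 4 := by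
    have e : 2 * d ^ 4 + (21 / 8) * d ^ 3 * c - (9 / 4) * d ^ 2 * c ^ 2 - (1 / 2) * d * c ^ 3
      + (3 / 8) * c ^ 4 = (d - (19 / 40) * c) ^ 2 * (2 * d ^ 2 + (181 / 40) * (d * c)
        + (639 / 400) * c ^ 2) + c ^ 3 * ((9321 / 640000) * c - (2130 / 640000) * d) := by
      ring
    rw [e]
    have h4 : 0 ≤ (9321 / 640000) * c - (2130 / 640000) * d := by linarith
    positivity
  have e2 : (3 / 8) / d + (3 / 8) * (1 / (c - d) + 1 / (c + 2 * d)) - (1 / c + 1 / (c + d)) =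
      (2 * d ^ 4 + (21 / 8) * d ^ 3 * c - (9 / 4) * d ^ 2 * c ^ 2 - (1 / 2) * d * c ^ 3
      + (3 / 8) * c ^ 4) / (d * c * (c + d) * (c - d) * (c + 2 * d)) := by
    field_simp
    ring
  have h5 : 0 ≤ (2 * d ^ 4 + (21 / 8) * d ^ 3 * c - (9 / 4) * d ^ 2 * c ^ 2 - (1 / 2) * d * c ^ 3
      + (3 / 8) * c ^ 4) / (d * c * (c + d) * (c - d) * (c + 2 * d)) := by
    apply div_nonneg hN
    positivity
  linarith [e2, h5]

end Wyk
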