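import Pool.Agent.Wyk.Win
import Pool.Agent.Wyk.PtB

/-!
# The upper columns have positive lower density (module ThmB)

Let `M = 2^50`, `T ≥ M² = 2^100`, and suppose `M² * rk σ T ≤ T`. Put `T1 = T / M` (floor), so
`T1 ≥ M ≥ 1`, `T1 * M ≤ T`, `T < (T1+1) M ≤ 2 T1 M`.

Apply `win` to the window `(T1, T]` with `A = 1`, `a = b = 3/8`, `e0 = 0`, `E c = 0` for lower columns
(`hlo` is `ptB` with `d = σ c - c`, `c - d = 2c - σ c`, `c + 2d = 2σ c - c`) and `E c = 2 / T1` for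
upper columns (`1/c + 1/σ c ≤ 2/c ≤ 2/T1`), i.e. `E c = if Up σ c then 2/T1 else 0`. The number of
upper columns in the window is `≤ rk σ T ≤ T/M²`, so
`∑ E ≤ (2/T1) (T/M²) ≤ 2 (2 T1 M)/(T1 M²) = 4/M ≤ 1`. Therefore
`Hs T1 T ≤ (3/8)(Hs T1 (2T) + Hs T1 (5T)) + 1 + 5`.

By `Hs_ge`: `Hs T1 T ≥ log((T+1)/(T1+1)) ≥ log(M/2)` since `T + 1 ≥ M T1 ≥ (M/2)(T1+1)`.
By `Hs_le`: `Hs T1 (2T) ≤ log(2T/T1) ≤ log(4M)`, `Hs T1 (5T) ≤ log(5T/T1) ≤ log(10 M)`.
So with `l = log 2`, `log M = 50 l`: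
`49 l ≤ (3/8)(52 l + log 10 + 50 l) + 6`, and `log 10 ≤ log 16 = 4 l`, so
`49 l ≤ (3/8) * 106 l + 6 = 39.75 l + 6`, i.e. `9.25 l ≤ 6`, but `l > 0.693` (`Real.log_two_gt_d9`)
gives `9.25 l > 6.4`. Contradiction.

`inf_up`: for `n` given, `T = 2^100 (n+1)`: `rk σ T > n ≥ rk σ n`, so there is an upper column in
`(n, T]` (otherwise `rk σ T = rk σ n`; or use `exists_rk` with `i = rk σ T`: the upper column `c'`
has `rk σ c' = rk σ T > n ≥ rk σ n`, so `c' > n` by `rk_mono`).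
-/

open Finset

namespace Wyk

variable {σ : ℕ → ℕ}

private theorem ThmB_logpow (n : ℕ) : Real.log ((2:ℝ) ^ n) = n * Real.log 2 := by
  rw [Real.log_pow]

theorem up_density (h : WS σ) (T : ℕ) (hT : 2 ^ 100 ≤ T) : T < 2 ^ 100 * rk σ T := by
  by_contra hcon
  push Not at hcon
  obtain ⟨M, hM⟩ : ∃ M : ℕ, M = 2 ^ 50 := ⟨_, rfl⟩
  have hMM : M * M = 2 ^ 100 := by rw [hM]; norm_num
  have hMpos : 0 < M := by rw [hM]; positivity
  obtain ⟨T1, hT1⟩ : ∃ T1 : ℕ, T1 = T / M := ⟨_, rfl⟩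
  have h1 : T1 * M ≤ T := by rw [hT1]; exact Nat.div_mul_le_self T M
  have h2 : T < (T1 + 1) * M := by
    rw [hT1]
    exact Nat.lt_mul_of_div_lt (Nat.lt_succ_self _) hMpos
  have hT1M : M ≤ T1 := by
    rw [hT1, Nat.le_div_iff_mul_le hMpos, hMM]; exact hT
  have hT1pos : 0 < T1 := lt_of_lt_of_le hMpos hT1M
  have hT1T : T1 ≤ T := by
    calc T1 = T1 * 1 := (mul_one _).symm
      _ ≤ T1 * M := Nat.mul_le_mul_left _ hMpos
      _ ≤ T := h1
  -- real versions
  have hMr : (M : ℝ) = 2 ^ 50 := by rw [hM]; norm_num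
  have hMr0 : (0 : ℝ) < M := by exact_mod_cast hMpos
  have hT1r : (0 : ℝ) < T1 := by exact_mod_cast hT1pos
  have hT1r1 : (1 : ℝ) ≤ T1 := by exact_mod_cast hT1pos
  have h1r : (T1 : ℝ) * M ≤ T := by exact_mod_cast h1
  have h2r : (T : ℝ) < (T1 + 1) * M := by exact_mod_cast h2
  have h2r' : (T : ℝ) ≤ 2 * T1 * M := by nlinarith
  have hrk : (2 : ℝ) ^ 100 * rk σ T ≤ T := by exact_mod_cast hcon
  have hTr : (0 : ℝ) < T := by nlinarith
  have hwin := win h T1 T 1 (3 / 8) (3 / 8) 0 zero_le_one (by norm_num) (by norm_num) le_rfl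
    (fun c => if Up σ c then 2 / (T1 : ℝ) else 0)
    (by
      intro c _
      have : (0 : ℝ) ≤ if Up σ c then 2 / (T1 : ℝ) else 0 := by
        split_ifs
        · positivity
        · exact le_rfl
      simpa using this)
    (by
      intro c hc
      rw [mem_los] at hc
      obtain ⟨⟨hc1, hc2⟩, hc3, hc4⟩ := hc
      have hc3r : (c : ℝ) < σ c := by exact_mod_cast hc3
      have hc4r : (σ c : ℝ) < 2 * c := by exact_mod_cast hc4
      have hp := ptB (c : ℝ) ((σ c : ℝ) - c) (by linarith) (by linarith)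
      have e1 : (c : ℝ) + ((σ c : ℝ) - c) = σ c := by ring
      have e2 : (c : ℝ) - ((σ c : ℝ) - c) = 2 * c - σ c := by ring
      have e3 : (c : ℝ) + 2 * ((σ c : ℝ) - c) = 2 * σ c - c := by ring
      rw [e1, e2, e3] at hp
      have : (0 : ℝ) ≤ if Up σ c then 2 / (T1 : ℝ) else 0 := by
        split_ifs
        · positivity
        · exact le_rfl
      linarith)
    (by
      intro c hc
      rw [mem_ups] at hc
      obtain ⟨⟨hc1, hc2⟩, hc3⟩ := hc
      have hup : Up σ c := hc3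
      rw [if_pos hup]
      have hc1r : (T1 : ℝ) < c := by exact_mod_cast hc1
      have hc3r : 2 * (c : ℝ) < σ c := by exact_mod_cast hc3
      have hcr : (0 : ℝ) < c := lt_trans hT1r hc1r
      have i1 : 1 / (c : ℝ) ≤ 1 / T1 := one_div_le_one_div_of_le hT1r hc1r.le
      have i2 : 1 / (σ c : ℝ) ≤ 1 / T1 := one_div_le_one_div_of_le hT1r (by linarith)
      have i3 : (0 : ℝ) ≤ 3 / 8 / ((σ c : ℝ) - c) := div_nonneg (by norm_num) (by linarith)
      have i4 : (0 : ℝ) ≤ 3 / 8 / (2 * (σ c : ℝ) - c) := div_nonneg (by norm_num) (by linarith)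
      have i5 : 2 / (T1 : ℝ) = 1 / T1 + 1 / T1 := by ring
      rw [i5]
      linarith)
  -- the error sum
  have hsum : ∑ c ∈ cols σ T1 T, (if Up σ c then 2 / (T1 : ℝ) else 0) ≤ 1 := by
    rw [sum_cols h]
    have e1 : ∑ c ∈ los σ T1 T, (if Up σ c then 2 / (T1 : ℝ) else 0) = 0 := by
      apply Finset.sum_eq_zero
      intro c hc
      rw [mem_los] at hc
      rw [if_neg]
      unfold Up
      omega
    have e2 : ∑ c ∈ ups σ T1 T, (if Up σ c then 2 / (T1 : ℝ) else 0)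
        = ((ups σ T1 T).card : ℝ) * (2 / T1) := by
      rw [Finset.sum_congr rfl (g := fun _ => 2 / (T1 : ℝ))]
      · rw [Finset.sum_const, nsmul_eq_mul]
      · intro c hc
        rw [mem_ups] at hc
        rw [if_pos]
        exact hc.2
    have e3 : ((ups σ T1 T).card : ℝ) ≤ rk σ T := by
      have : (ups σ T1 T).card ≤ (ups σ 0 T).card := by
        apply Finset.card_le_card
        intro c hc
        rw [mem_ups] at hc ⊢
        exact ⟨⟨by omega, hc.1.2⟩, hc.2⟩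
      exact_mod_cast this
    rw [e1, e2, zero_add]
    calc ((ups σ T1 T).card : ℝ) * (2 / T1) ≤ (rk σ T : ℝ) * (2 / T1) := by
          apply mul_le_mul_of_nonneg_right e3
          positivity
      _ ≤ 1 := by
          rw [← mul_div_assoc, div_le_one hT1r]
          have e4 : (2 : ℝ) ^ 100 * rk σ T ≤ 2 * T1 * 2 ^ 50 := by
            calc (2 : ℝ) ^ 100 * rk σ T ≤ T := hrk
              _ ≤ 2 * T1 * M := h2r'
              _ = 2 * T1 * 2 ^ 50 := by rw [hMr]
          have e5 : (2 : ℝ) ^ 100 = 2 ^ 50 * 2 ^ 50 := by norm_num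
          rw [e5] at e4
          have e6 : (2 : ℝ) ^ 50 * rk σ T ≤ 2 * T1 := by
            have : (2 : ℝ) ^ 50 * ((2 : ℝ) ^ 50 * rk σ T) ≤ (2 : ℝ) ^ 50 * (2 * T1) := by linarith
            exact le_of_mul_le_mul_left this (by positivity)
          have e7 : (0 : ℝ) ≤ rk σ T := Nat.cast_nonneg _
          have e8 : (4 : ℝ) ≤ 2 ^ 50 := by norm_num
          nlinarith
  -- the logarithms
  have hl0 : (0.6931471803 : ℝ) < Real.log 2 := Real.log_two_gt_d9
  have b1 : 49 * Real.log 2 ≤ Hs T1 T := by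
    have := Hs_ge T1 T hT1T
    refine le_trans ?_ this
    have e : (49 : ℝ) * Real.log 2 = Real.log (2 ^ 49) := by
      rw [ThmB_logpow]; norm_num
    rw [e]
    apply Real.log_le_log (by positivity)
    rw [le_div_iff₀ (by positivity)]
    have : (2 : ℝ) ^ 50 = 2 * 2 ^ 49 := by norm_num
    rw [hMr, this] at h1r
    have h49 : (0 : ℝ) < 2 ^ 49 := by positivity
    nlinarith
  have b2 : Hs T1 (2 * T) ≤ 52 * Real.log 2 := by
    have := Hs_le T1 (2 * T) hT1pos (by omega)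
    refine le_trans this ?_
    have e : (52 : ℝ) * Real.log 2 = Real.log (2 ^ 52) := by
      rw [ThmB_logpow]; norm_num
    rw [e]
    apply Real.log_le_log
    · push_cast; positivity
    · rw [div_le_iff₀ hT1r]
      push_cast
      rw [hMr] at h2r'
      have : (2 : ℝ) ^ 52 = 4 * 2 ^ 50 := by norm_num
      rw [this]
      linarith
  have b3 : Hs T1 (5 * T) ≤ 54 * Real.log 2 := by
    have := Hs_le T1 (5 * T) hT1pos (by omega)
    refine le_trans this ?_
    have e : (54 : ℝ) * Real.log 2 = Real.log (2 ^ 54) := by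
      rw [ThmB_logpow]; norm_num
    rw [e]
    apply Real.log_le_log
    · push_cast; positivity
    · rw [div_le_iff₀ hT1r]
      push_cast
      rw [hMr] at h2r'
      have : (2 : ℝ) ^ 54 = 16 * 2 ^ 50 := by norm_num
      rw [this]
      have : (0 : ℝ) ≤ 2 ^ 50 * T1 := by positivity
      linarith
  simp only [one_mul, mul_one, mul_zero, add_zero] at hwin
  linarith

theorem inf_up (h : WS σ) (n : ℕ) : ∃ c, n < c ∧ Up σ c := by
  have hT : 2 ^ 100 ≤ 2 ^ 100 * (n + 1) := Nat.le_mul_of_pos_right _ (Nat.succ_pos n)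
  have h1 := up_density h (2 ^ 100 * (n + 1)) hT
  have h2 : n + 1 < rk σ (2 ^ 100 * (n + 1)) := Nat.lt_of_mul_lt_mul_left h1
  obtain ⟨c', hc1, hc2, hc3⟩ := exists_rk (σ := σ) (c := 2 ^ 100 * (n + 1))
    (i := rk σ (2 ^ 100 * (n + 1))) (by omega) le_rfl
  refine ⟨c', ?_, hc2⟩
  by_contra hle
  push Not at hle
  have h3 := rk_mono σ hle
  have h4 := rk_le σ n
  omega

end Wyk
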