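import Pool.Agent.Wyk.Pk1
import Pool.Agent.Wyk.Pk2

/-!
# The windowed duality inequality (module Win)

Let `W = (T1, T]`. Multiply `pk1` by `A`:
`A Hs T1 T ≤ A + ∑_{cols} A (1/c + 1/σ c)`, and split the columns into lower and upper ones
(`sum_cols`).

Upper columns: by `hup`, `A (1/c + 1/σ c) ≤ a/(σ c - c) + b/(2σ c - c) + E c`, and
`σ c - c > c > T1`, i.e. `c` belongs to the filter in `pk2`.

Lower columns: call `c` good if `T1 + c < σ c` and `σ c + T1 < 2c`. For good `c` use `hlo`.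
The lower columns `c ∈ W` with `σ c ≤ T1 + c` are at most `T1` many (`c ↦ σ c - c ∈ [1, T1]` is
injective by `dinj`), those with `2c ≤ σ c + T1` are at most `T1` many (`c ↦ 2c - σ c ∈ [1, T1]` is
injective by `einj`). For a bad `c` we have `c > T1` and
`A (1/c + 1/σ c) - E c ≤ 2A/c + e0/c ≤ (2A + e0)/T1` (`T1 ≥ 1` if there is a bad `c`; if `T1 = 0`
there is no bad `c`), so the bad lower columns satisfy
`∑_{bad} A (1/c + 1/σ c) ≤ ∑_{bad} E c + 2 T1 (2A + e0)/T1 = ∑_{bad} E c + 4A + 2 e0`.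

Sum: `A Hs T1 T ≤ A + a ∑' 1/(σ c - c) + b (∑' 1/(2c - σ c) + ∑ 1/(2σ c - c)) + ∑_{cols} E c + 4A + 2e0`
where `∑'` only contains the `c` in the filters of `pk2`, `pk3` (all summands are nonnegative, so
passing from the good `c` to all `c` in the filters increases the sums). Conclude by `pk2`, `pk3`.
-/

open Finset

namespace Wyk

variable {σ : ℕ → ℕ}

private theorem win_bad (h : WS σ) (T1 T : ℕ) :
    ((los σ T1 T).filter (fun c => ¬ (T1 + c < σ c ∧ σ c + T1 < 2 * c))).card ≤ 2 * T1 := by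
  have hsub : (los σ T1 T).filter (fun c => ¬ (T1 + c < σ c ∧ σ c + T1 < 2 * c)) ⊆
      (los σ T1 T).filter (fun c => σ c ≤ T1 + c) ∪
        (los σ T1 T).filter (fun c => 2 * c ≤ σ c + T1) := by
    intro c hc
    rw [Finset.mem_union, Finset.mem_filter, Finset.mem_filter]
    rw [Finset.mem_filter] at hc
    obtain ⟨h1, h2⟩ := hc
    by_cases h3 : T1 + c < σ c
    · right; refine ⟨h1, ?_⟩; by_contra h4; exact h2 ⟨h3, by omega⟩
    · left; exact ⟨h1, by omega⟩
  have h1 : ((los σ T1 T).filter (fun c => σ c ≤ T1 + c)).card ≤ T1 := by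
    apply card_inj_le _ (fun c => σ c - c) T1
    · intro x hx y hy hxy
      have hx' := (Finset.mem_filter.mp (Finset.mem_coe.mp hx)).1
      have hy' := (Finset.mem_filter.mp (Finset.mem_coe.mp hy)).1
      rw [mem_los] at hx' hy'
      simp only at hxy
      apply h.dinj
      omega
    · intro c hc
      rw [Finset.mem_filter, mem_los] at hc
      omega
  have h2 : ((los σ T1 T).filter (fun c => 2 * c ≤ σ c + T1)).card ≤ T1 := by
    apply card_inj_le _ (fun c => 2 * c - σ c) T1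
    · intro x hx y hy hxy
      have hx' := (Finset.mem_filter.mp (Finset.mem_coe.mp hx)).1
      have hy' := (Finset.mem_filter.mp (Finset.mem_coe.mp hy)).1
      rw [mem_los] at hx' hy'
      simp only at hxy
      apply h.einj
      omega
    · intro c hc
      rw [Finset.mem_filter, mem_los] at hc
      omega
  have h3 := (Finset.card_le_card hsub).trans (Finset.card_union_le _ _)
  omega

theorem win (h : WS σ) (T1 T : ℕ) (A a b e0 : ℝ) (hA : 0 ≤ A) (ha : 0 ≤ a) (hb : 0 ≤ b)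
    (he : 0 ≤ e0) (E : ℕ → ℝ)
    (hE : ∀ c ∈ los σ T1 T, -(e0 / (c : ℝ)) ≤ E c)
    (hlo : ∀ c ∈ los σ T1 T, A * (1 / (c : ℝ) + 1 / (σ c : ℝ)) ≤
      a / ((σ c : ℝ) - c) + b * (1 / (2 * (c : ℝ) - σ c) + 1 / (2 * (σ c : ℝ) - c)) + E c)
    (hup : ∀ c ∈ ups σ T1 T, A * (1 / (c : ℝ) + 1 / (σ c : ℝ)) ≤
      a / ((σ c : ℝ) - c) + b / (2 * (σ c : ℝ) - c) + E c) :
    A * Hs T1 T ≤ a * Hs T1 (2 * T) + b * Hs T1 (5 * T) + ∑ c ∈ cols σ T1 T, E c
      + 5 * A + 2 * e0 := by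
  -- abbreviations
  set g1 : ℕ → ℝ := fun c => if T1 + c < σ c then a * (1 / ((σ c : ℝ) - c)) else 0 with hg1
  set g2 : ℕ → ℝ := fun c => if σ c + T1 < 2 * c then b * (1 / (2 * (c : ℝ) - σ c)) else 0 with hg2
  set g3 : ℕ → ℝ := fun c => b * (1 / (2 * (σ c : ℝ) - c)) with hg3
  set g4 : ℕ → ℝ := fun c => if ¬ (T1 + c < σ c ∧ σ c + T1 < 2 * c)
    then (2 * A + e0) / (T1 : ℝ) else 0 with hg4
  have hlos : ∑ c ∈ los σ T1 T, A * (1 / (c : ℝ) + 1 / (σ c : ℝ)) ≤
      ∑ c ∈ los σ T1 T, (g1 c + g2 c + g3 c + E c + g4 c) := by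
    apply Finset.sum_le_sum
    intro c hc
    have h1 := hlo c hc
    have h2 := hE c hc
    rw [mem_los] at hc
    have hcs : (c : ℝ) < (σ c : ℝ) := by exact_mod_cast hc.2.1
    have hc2 : (σ c : ℝ) < 2 * (c : ℝ) := by exact_mod_cast hc.2.2
    have hcp : (0 : ℝ) < (c : ℝ) := by
      have : 0 < c := by omega
      exact_mod_cast this
    have n1 : 0 ≤ a * (1 / ((σ c : ℝ) - c)) :=
      mul_nonneg ha (one_div_nonneg.mpr (by linarith))
    have n2 : 0 ≤ b * (1 / (2 * (c : ℝ) - σ c)) :=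
      mul_nonneg hb (one_div_nonneg.mpr (by linarith))
    have n3 : 0 ≤ b * (1 / (2 * (σ c : ℝ) - c)) :=
      mul_nonneg hb (one_div_nonneg.mpr (by linarith))
    have g1n : 0 ≤ g1 c := by
      simp only [hg1]; split_ifs
      · exact n1
      · exact le_refl _
    have g2n : 0 ≤ g2 c := by
      simp only [hg2]; split_ifs
      · exact n2
      · exact le_refl _
    by_cases hgood : T1 + c < σ c ∧ σ c + T1 < 2 * c
    · have e1 : g1 c = a * (1 / ((σ c : ℝ) - c)) := by simp only [hg1]; rw [if_pos hgood.1]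
      have e2 : g2 c = b * (1 / (2 * (c : ℝ) - σ c)) := by simp only [hg2]; rw [if_pos hgood.2]
      have e4 : g4 c = 0 := by simp only [hg4]; rw [if_neg (not_not.mpr hgood)]
      rw [e1, e2, e4]
      have e5 : a / ((σ c : ℝ) - c) = a * (1 / ((σ c : ℝ) - c)) := by ring
      rw [e5] at h1
      simp only [hg3]
      linarith
    · have e4 : g4 c = (2 * A + e0) / (T1 : ℝ) := by simp only [hg4]; rw [if_pos hgood]
      have hT1 : 0 < T1 := by
        by_contra h0
        apply hgood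
        constructor <;> omega
      have hT1' : (0 : ℝ) < (T1 : ℝ) := by exact_mod_cast hT1
      have hTc : (T1 : ℝ) ≤ (c : ℝ) := by
        have : T1 ≤ c := by omega
        exact_mod_cast this
      have k1 : 1 / (σ c : ℝ) ≤ 1 / (c : ℝ) := one_div_le_one_div_of_le hcp hcs.le
      have k2 : 1 / (c : ℝ) ≤ 1 / (T1 : ℝ) := one_div_le_one_div_of_le hT1' hTc
      have k3 : A * (1 / (c : ℝ) + 1 / (σ c : ℝ)) ≤ 2 * A * (1 / (T1 : ℝ)) := by
        have : A * (1 / (c : ℝ) + 1 / (σ c : ℝ)) ≤ A * (1 / (T1 : ℝ) + 1 / (T1 : ℝ)) :=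
          mul_le_mul_of_nonneg_left (by linarith) hA
        linarith
      have k4 : e0 / (c : ℝ) ≤ e0 * (1 / (T1 : ℝ)) := by
        have := mul_le_mul_of_nonneg_left k2 he
        rw [div_eq_mul_one_div]
        exact this
      have k5 : (2 * A + e0) / (T1 : ℝ) = 2 * A * (1 / (T1 : ℝ)) + e0 * (1 / (T1 : ℝ)) := by ring
      rw [e4, k5]
      have n3' : 0 ≤ g3 c := n3
      linarith
  have hups : ∑ c ∈ ups σ T1 T, A * (1 / (c : ℝ) + 1 / (σ c : ℝ)) ≤
      ∑ c ∈ ups σ T1 T, (g1 c + g3 c + E c) := by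
    apply Finset.sum_le_sum
    intro c hc
    have h1 := hup c hc
    rw [mem_ups] at hc
    have e1 : g1 c = a * (1 / ((σ c : ℝ) - c)) := by
      simp only [hg1]; rw [if_pos (by omega)]
    have e5 : a / ((σ c : ℝ) - c) = a * (1 / ((σ c : ℝ) - c)) := by ring
    have e6 : b / (2 * (σ c : ℝ) - c) = g3 c := by simp only [hg3]; ring
    rw [e5, e6] at h1
    rw [e1]
    exact h1
  have hbad : ∑ c ∈ los σ T1 T, g4 c ≤ 4 * A + 2 * e0 := by
    simp only [hg4]
    rw [← Finset.sum_filter, Finset.sum_const, nsmul_eq_mul]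
    have hc := win_bad h T1 T
    rcases Nat.eq_zero_or_pos T1 with h0 | h0
    · have : ((los σ T1 T).filter (fun c => ¬ (T1 + c < σ c ∧ σ c + T1 < 2 * c))).card = 0 := by
        omega
      rw [this]
      simp only [Nat.cast_zero, zero_mul]
      positivity
    · have hT1' : (0 : ℝ) < (T1 : ℝ) := by exact_mod_cast h0
      have hc' : (((los σ T1 T).filter (fun c => ¬ (T1 + c < σ c ∧ σ c + T1 < 2 * c))).card : ℝ)
          ≤ 2 * (T1 : ℝ) := by exact_mod_cast hc
      have hn : 0 ≤ (2 * A + e0) / (T1 : ℝ) := by positivity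
      calc _ ≤ 2 * (T1 : ℝ) * ((2 * A + e0) / (T1 : ℝ)) := mul_le_mul_of_nonneg_right hc' hn
        _ = 4 * A + 2 * e0 := by field_simp; ring
  have hp2 : ∑ c ∈ cols σ T1 T, g1 c ≤ a * Hs T1 (2 * T) := by
    have : ∑ c ∈ cols σ T1 T, g1 c =
        a * ∑ c ∈ (cols σ T1 T).filter (fun c => T1 + c < σ c), 1 / ((σ c : ℝ) - c) := by
      simp only [hg1]
      rw [← Finset.sum_filter, Finset.mul_sum]
    rw [this]
    exact mul_le_mul_of_nonneg_left (pk2 h T1 T) ha
  have hp3 : ∑ c ∈ los σ T1 T, g2 c + ∑ c ∈ cols σ T1 T, g3 c ≤ b * Hs T1 (5 * T) := by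
    have e1 : ∑ c ∈ los σ T1 T, g2 c =
        b * ∑ c ∈ (los σ T1 T).filter (fun c => σ c + T1 < 2 * c), 1 / (2 * (c : ℝ) - σ c) := by
      simp only [hg2]
      rw [← Finset.sum_filter, Finset.mul_sum]
    have e2 : ∑ c ∈ cols σ T1 T, g3 c = b * ∑ c ∈ cols σ T1 T, 1 / (2 * (σ c : ℝ) - c) := by
      simp only [hg3]
      rw [Finset.mul_sum]
    rw [e1, e2, ← mul_add]
    exact mul_le_mul_of_nonneg_left (pk3 h T1 T) hb
  have hp1 := mul_le_mul_of_nonneg_left (pk1 h T1 T) hA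
  have hcol : A * (1 + ∑ c ∈ cols σ T1 T, (1 / (c : ℝ) + 1 / (σ c : ℝ))) =
      A + (∑ c ∈ los σ T1 T, A * (1 / (c : ℝ) + 1 / (σ c : ℝ)) +
        ∑ c ∈ ups σ T1 T, A * (1 / (c : ℝ) + 1 / (σ c : ℝ))) := by
    rw [← sum_cols h, ← Finset.mul_sum]; ring
  have s1 := sum_cols h T1 T g1
  have s3 := sum_cols h T1 T g3
  have sE := sum_cols h T1 T E
  simp only [Finset.sum_add_distrib] at hlos hups
  rw [hcol] at hp1
  linarith

end Wyk
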